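import Pool.Agent.HaefligerClasses.Model

/-! # Stokes' theorem on the unit cube -/

namespace Pool.Agent.HaefligerClasses

open Filter Topology MeasureTheory
open scoped ContDiff

theorem integral_extDeriv_cube_of {n : ℕ}
    (B : (Fin (n + 1) → ℝ) → (Fin (n + 1) → ℝ) [⋀^Fin n]→L[ℝ] ℝ)
    (hd : ∀ ξ, DifferentiableAt ℝ B ξ) (hB : ∀ v, ContDiff ℝ 1 (fun ξ => B ξ v)) :
    ∫ ξ in Set.Icc (0 : Fin (n + 1) → ℝ) 1, extDeriv B ξ (fun i => Pi.single i 1) =
      ∑ i : Fin (n + 1), (-1 : ℝ) ^ (i : ℕ) *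
        ((∫ η in Set.Icc (0 : Fin n → ℝ) 1,
            B (i.insertNth 1 η) (fun k => Pi.single (i.succAbove k) 1)) -
          ∫ η in Set.Icc (0 : Fin n → ℝ) 1,
            B (i.insertNth 0 η) (fun k => Pi.single (i.succAbove k) 1)) := by
  -- the face functions
  set f : Fin (n + 1) → (Fin (n + 1) → ℝ) → ℝ := fun i ξ =>
    (-1 : ℝ) ^ (i : ℕ) * B ξ (fun k => Pi.single (i.succAbove k) 1) with hf
  have hfc : ∀ i, ContDiff ℝ 1 (f i) := fun i => contDiff_const.mul (hB _)
  have hfd : ∀ i ξ, HasFDerivAt (f i) (fderiv ℝ (f i) ξ) ξ := fun i ξ =>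
    ((hfc i).differentiable (by norm_num) ξ).hasFDerivAt
  have hsum : ∀ ξ, extDeriv B ξ (fun i => Pi.single i 1) =
      ∑ i, fderiv ℝ (f i) ξ (Pi.single i 1) := by
    intro ξ
    rw [extDeriv_apply (hd ξ)]
    refine Finset.sum_congr rfl fun i _ => ?_
    have hrem : (i.removeNth (fun i : Fin (n + 1) => (Pi.single i 1 : Fin (n + 1) → ℝ))) =
        fun k => Pi.single (i.succAbove k) 1 := by
      ext k l
      rfl
    rw [hrem]
    have hdiff : DifferentiableAt ℝ (fun ξ => B ξ (fun k => Pi.single (i.succAbove k) 1)) ξ :=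
      ((hB _).differentiable (by norm_num)) ξ
    have : fderiv ℝ (f i) ξ = ((-1 : ℝ) ^ (i : ℕ)) •
        fderiv ℝ (fun ξ => B ξ (fun k => Pi.single (i.succAbove k) 1)) ξ := by
      rw [hf]
      exact fderiv_const_mul hdiff _
    rw [this]
    simp
  simp only [hsum]
  have key := integral_divergence_of_hasFDerivAt_off_countable' (0 : Fin (n + 1) → ℝ) 1
    (by intro i; norm_num) f (fun i => fderiv ℝ (f i)) ∅ Set.countable_empty
    (fun i => (hfc i).continuous.continuousOn) (fun ξ _ i => hfd i ξ)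
    (by
      apply Continuous.integrableOn_Icc
      exact continuous_finsetSum _ fun i _ =>
        ((hfc i).continuous_fderiv (by norm_num)).clm_apply continuous_const)
  rw [key]
  refine Finset.sum_congr rfl fun i _ => ?_
  simp only [hf, integral_const_mul, ← mul_sub]
  rfl

theorem integral_extDeriv_cube {n : ℕ}
    (B : (Fin (n + 1) → ℝ) → (Fin (n + 1) → ℝ) [⋀^Fin n]→L[ℝ] ℝ) (hB : ContDiff ℝ 1 B) :
    ∫ ξ in Set.Icc (0 : Fin (n + 1) → ℝ) 1, extDeriv B ξ (fun i => Pi.single i 1) =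
      ∑ i : Fin (n + 1), (-1 : ℝ) ^ (i : ℕ) *
        ((∫ η in Set.Icc (0 : Fin n → ℝ) 1,
            B (i.insertNth 1 η) (fun k => Pi.single (i.succAbove k) 1)) -
          ∫ η in Set.Icc (0 : Fin n → ℝ) 1,
            B (i.insertNth 0 η) (fun k => Pi.single (i.succAbove k) 1)) :=
  integral_extDeriv_cube_of B (fun ξ => (hB.differentiable (by norm_num)) ξ)
    (fun v => (ContinuousAlternatingMap.apply ℝ (Fin (n + 1) → ℝ) ℝ v).contDiff.comp hB)

end Pool.Agent.HaefligerClasses
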