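import Pool.Agent.HaefligerClasses.Sphere

/-!
# The transition germs of the example
-/

namespace Pool.Agent.HaefligerClasses

open Filter Topology
open scoped ContDiff

/-- two continuous functions with equal squares and equal nonzero value agree near the point -/
theorem eq_of_sq_eq {X : Type} [TopologicalSpace X] {f g : X → ℂ} {x₀ : X}
    (hf : ContinuousAt f x₀) (hg : ContinuousAt g x₀)
    (hsq : ∀ᶠ x in 𝓝 x₀, f x ^ 2 = g x ^ 2) (h0 : f x₀ = g x₀) (hne : f x₀ ≠ 0) :
    ∀ᶠ x in 𝓝 x₀, f x = g x := by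
  have h1 : f x₀ + g x₀ ≠ 0 := by
    rw [← h0, ← two_mul]
    exact mul_ne_zero two_ne_zero hne
  have h2 : ∀ᶠ x in 𝓝 x₀, f x + g x ≠ 0 := (hf.add hg).eventually_ne h1
  filter_upwards [hsq, h2] with x h3 h4
  have h5 : (f x - g x) * (f x + g x) = 0 := by linear_combination h3
  rcases mul_eq_zero.1 h5 with h | h
  · exact sub_eq_zero.1 h
  · exact absurd h h4

/-- the branch of `w ^ (-1/2)` with value `g₀` at `g₀ ^ (-2)` -/
noncomputable def sg (g₀ w : ℂ) : ℂ := g₀ * Complex.exp (-(1 / 2) * Complex.log (w * g₀ ^ 2))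

theorem sg_sq {g₀ w : ℂ} (hg : g₀ ≠ 0) (hw : w ≠ 0) : sg g₀ w ^ 2 = w⁻¹ := by
  have h1 : w * g₀ ^ 2 ≠ 0 := mul_ne_zero hw (pow_ne_zero 2 hg)
  unfold sg
  rw [mul_pow, ← Complex.exp_nat_mul]
  have h2 : ((2 : ℕ) : ℂ) * (-(1 / 2) * Complex.log (w * g₀ ^ 2)) =
      -Complex.log (w * g₀ ^ 2) := by push_cast; ring
  rw [h2, Complex.exp_neg, Complex.exp_log h1]
  field_simp

theorem sg_base {g₀ w : ℂ} (h : w * g₀ ^ 2 = 1) : sg g₀ w = g₀ := by
  unfold sg
  rw [h]; simp

theorem contDiffAt_sg {E : Type} [NormedAddCommGroup E] [NormedSpace ℝ E] {g w : E → ℂ} {x : E}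
    (hg : ContDiffAt ℝ ∞ g x) (hw : ContDiffAt ℝ ∞ w x) (h : w x * g x ^ 2 ∈ Complex.slitPlane) :
    ContDiffAt ℝ ∞ (fun y => sg (g y) (w y)) x := by
  unfold sg
  have hlog : ContDiffAt ℝ ∞ (fun y => Complex.log (w y * g y ^ 2)) x := by
    have h1 : ContDiffAt ℂ ∞ Complex.log (w x * g x ^ 2) := Complex.contDiffAt_log h
    exact (h1.restrict_scalars ℝ).comp x (hw.mul (hg.pow 2))
  exact hg.mul (contDiffAt_const.mul hlog).cexp

theorem continuousAt_sg {X : Type} [TopologicalSpace X] {g w : X → ℂ} {x : X}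
    (hg : ContinuousAt g x) (hw : ContinuousAt w x) (h : w x * g x ^ 2 ∈ Complex.slitPlane) :
    ContinuousAt (fun y => sg (g y) (w y)) x := by
  unfold sg
  have hlog : ContinuousAt (fun y => Complex.log (w y * g y ^ 2)) x :=
    (continuousAt_clog h).comp (f := fun y => w y * g y ^ 2) (hw.mul (hg.pow 2))
  exact hg.mul ((continuousAt_const.mul hlog).cexp)

theorem gA_sq_mul_gB_sq {v : ℂ} {t : ℝ} (h1 : chartDom true v t) (h2 : chartDom false v t) :
    gA v t ^ 2 * gB v t ^ 2 = 1 := by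
  rw [← mul_pow, gA_mul_gB v t h1 h2, one_pow]

theorem one_mem_slit : (1 : ℂ) ∈ Complex.slitPlane := Complex.one_mem_slitPlane

section

variable {P J K : Type} [Fintype P] [Fintype J] [Fintype K] [DecidableEq P] [DecidableEq J]
  [DecidableEq K] (blk : P → J)

theorem mem_domX_act {ε : J → Bool} {a : LSp P} {x : XSp P J} :
    actX blk a x ∈ domX ε ↔ x ∈ domX ε := by
  unfold domX actX
  simp only [Set.mem_setOf_eq]
  exact forall_congr' fun j => chartDom_rot _ _ _ _

theorem contDiff_ang (a : P → ℤ) (j : J) : ContDiff ℝ ∞ (fun z : P → ℝ => ang blk a z j) := by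
  unfold ang
  apply contDiff_const.mul
  apply ContDiff.sum
  intro p _
  split_ifs
  · exact contDiff_const.mul (contDiff_apply ℝ ℝ p)
  · exact contDiff_const

theorem continuous_ang (a : P → ℤ) (j : J) : Continuous (fun z : P → ℝ => ang blk a z j) :=
  (contDiff_ang blk a j).continuous

theorem isOpen_domX (ε : J → Bool) : IsOpen (domX ε : Set (XSp P J)) := by
  have : (domX ε : Set (XSp P J)) =
      ⋂ j, (fun x : XSp P J => (x.2.2.1 j, x.2.2.2 j)) ⁻¹'
        {x : ℂ × ℝ | chartDom (ε j) x.1 x.2} := by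
    ext x; simp [domX]
  rw [this]
  apply isOpen_iInter_of_finite
  intro j
  exact (isOpen_chartDom (ε j)).preimage (by fun_prop)

/-- continuity of the chart coordinates along the covering space -/
theorem continuousAt_gC_X {b : Bool} {j : J} {x : XSp P J}
    (h : chartDom b (x.2.2.1 j) (x.2.2.2 j)) :
    ContinuousAt (fun y : XSp P J => gC b (y.2.2.1 j) (y.2.2.2 j)) x := by
  have h1 := (contDiffAt_gC b _ _ h).continuousAt
  have h2 : ContinuousAt (fun y : XSp P J => (y.2.2.1 j, y.2.2.2 j)) x := by fun_prop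
  exact ContinuousAt.comp (f := fun y : XSp P J => (y.2.2.1 j, y.2.2.2 j)) h1 h2

theorem continuousAt_gB_X {j : J} {x : XSp P J}
    (h : chartDom false (x.2.2.1 j) (x.2.2.2 j)) :
    ContinuousAt (fun y : XSp P J => gB (y.2.2.1 j) (y.2.2.2 j)) x := by
  have h1 := continuousAt_gC_X (b := false) h
  simpa only [gC, Bool.false_eq_true, if_false] using h1

theorem continuousAt_gA_X {j : J} {x : XSp P J}
    (h : chartDom true (x.2.2.1 j) (x.2.2.2 j)) :
    ContinuousAt (fun y : XSp P J => gA (y.2.2.1 j) (y.2.2.2 j)) x := by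
  have h1 := continuousAt_gC_X (b := true) h
  simpa only [gC, if_true] using h1

/-! ### HS1: germs -/

theorem contDiffAt_trC {E : Type} [NormedAddCommGroup E] [NormedSpace ℝ E] (b b' : Bool)
    {θ : E → ℝ} {w : E → ℂ} {g₀ : ℂ} {x : E} (hθ : ContDiffAt ℝ ∞ θ x) (hw : ContDiffAt ℝ ∞ w x)
    (h1 : b = true → b' = false → w x ≠ 0) (h2 : b = false → b' = true → w x * g₀ ^ 2 = 1) :
    ContDiffAt ℝ ∞ (fun y => trC b b' (θ y) g₀ (w y)) x := by
  have hθ' : ContDiffAt ℝ ∞ (fun y => ((θ y : ℝ) : ℂ)) x :=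
    Complex.ofRealCLM.contDiff.contDiffAt.comp x hθ
  have e2 : ContDiffAt ℝ ∞ (fun y => Complex.exp (2 * (θ y : ℂ) * Complex.I)) x :=
    ((contDiffAt_const.mul hθ').mul contDiffAt_const).cexp
  have e1 : ContDiffAt ℝ ∞ (fun y => Complex.exp (-(θ y : ℂ) * Complex.I)) x :=
    (hθ'.neg.mul contDiffAt_const).cexp
  cases b <;> cases b'
  · exact e1.mul hw
  · have hs : ContDiffAt ℝ ∞ (fun y => sg g₀ (w y)) x :=
      contDiffAt_sg contDiffAt_const hw (by rw [h2 rfl rfl]; exact one_mem_slit)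
    exact e1.mul hs
  · exact e2.mul ((hw.pow 2).inv (pow_ne_zero 2 (h1 rfl rfl)))
  · exact e2.mul hw

theorem gamX_smooth (ε : J → Bool) (a : LSp P) (ε' : J → Bool) (x : XSp P J)
    (hx : x ∈ domX ε') (hx' : actX blk a x ∈ domX ε) :
    ContDiffAt ℝ ∞ (gamX blk ε a ε' x : QSp P J K → QSp P J K) (fX K ε' x) := by
  rw [mem_domX_act] at hx'
  unfold gamX
  have hfst : ContDiff ℝ ∞ (fun q : QSp P J K => q.1) := contDiff_fst
  have hw : ∀ j, ContDiff ℝ ∞ (fun q : QSp P J K => q.2.1 j) := fun j =>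
    (contDiff_apply ℝ ℂ j).comp (contDiff_fst.comp contDiff_snd)
  refine ContDiffAt.prodMk ?_ (ContDiffAt.prodMk ?_ ?_)
  · rw [contDiffAt_pi]
    intro p
    exact (((contDiff_apply ℝ ℝ p).comp hfst).add contDiff_const).contDiffAt
  · rw [contDiffAt_pi]
    intro j
    apply contDiffAt_trC
    · exact ((contDiff_ang blk a.1 j).comp hfst).contDiffAt
    · exact (hw j).contDiffAt
    · intro h1 h2
      have hx1 := hx j
      have hx2 := hx' j
      rw [h2] at hx1
      rw [h1] at hx2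
      simp only [fX, wC, h2, Bool.false_eq_true, if_false]
      exact gB_ne_zero hx2 hx1
    · intro h1 h2
      have hx1 := hx j
      have hx2 := hx' j
      rw [h2] at hx1
      rw [h1] at hx2
      simp only [fX, wC, h2, if_true]
      exact gA_sq_mul_gB_sq hx1 hx2
  · exact (contDiff_snd.comp contDiff_snd).contDiffAt

/-- the branch agrees with `gB` near the base point -/
theorem sg_gA_eq_gB {j : J} {x : XSp P J}
    (h1 : chartDom true (x.2.2.1 j) (x.2.2.2 j)) (h2 : chartDom false (x.2.2.1 j) (x.2.2.2 j)) :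
    ∀ᶠ y : XSp P J in 𝓝 x, sg (gB (x.2.2.1 j) (x.2.2.2 j)) (gA (y.2.2.1 j) (y.2.2.2 j) ^ 2) =
      gB (y.2.2.1 j) (y.2.2.2 j) := by
  have hbase := gA_sq_mul_gB_sq h1 h2
  have hA := continuousAt_gA_X h1
  have hB := continuousAt_gB_X h2
  have hd1 : ∀ᶠ y : XSp P J in 𝓝 x, chartDom true (y.2.2.1 j) (y.2.2.2 j) :=
    ((isOpen_chartDom true).preimage
      (f := fun y : XSp P J => (y.2.2.1 j, y.2.2.2 j)) (by fun_prop)).mem_nhds h1
  have hd2 : ∀ᶠ y : XSp P J in 𝓝 x, chartDom false (y.2.2.1 j) (y.2.2.2 j) :=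
    ((isOpen_chartDom false).preimage
      (f := fun y : XSp P J => (y.2.2.1 j, y.2.2.2 j)) (by fun_prop)).mem_nhds h2
  apply eq_of_sq_eq
  · exact continuousAt_sg continuousAt_const (hA.pow 2) (by rw [hbase]; exact one_mem_slit)
  · exact hB
  · filter_upwards [hd1, hd2] with y k1 k2
    rw [sg_sq (gB_ne_zero h1 h2) (pow_ne_zero 2 (gA_ne_zero k1 k2))]
    exact inv_eq_of_mul_eq_one_right (gA_sq_mul_gB_sq k1 k2)
  · exact sg_base hbase
  · rw [sg_base hbase]
    exact gB_ne_zero h1 h2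

theorem gamX_map (ε : J → Bool) (a : LSp P) (ε' : J → Bool) (x : XSp P J)
    (hx : x ∈ domX ε') (hx' : actX blk a x ∈ domX ε) :
    ∀ᶠ y in 𝓝 x, (gamX blk ε a ε' x : QSp P J K → QSp P J K) (fX K ε' y) =
      fX K ε (actX blk a y) := by
  rw [mem_domX_act] at hx'
  have hopen := (isOpen_domX (P := P) ε').mem_nhds hx
  have hopen' := (isOpen_domX (P := P) ε).mem_nhds hx'
  have key : ∀ᶠ y : XSp P J in 𝓝 x, ∀ j, trC (ε j) (ε' j) (ang blk a.1 y.2.1 j)
      (gB (x.2.2.1 j) (x.2.2.2 j)) (wC (ε' j) (y.2.2.1 j) (y.2.2.2 j)) =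
      wC (ε j) (Complex.exp (ang blk a.1 y.2.1 j * Complex.I) * y.2.2.1 j) (y.2.2.2 j) := by
    rw [eventually_all]
    intro j
    have hx1 := hx j
    have hx2 := hx' j
    rcases hb : ε j with _ | _ <;> rcases hb' : ε' j with _ | _
    · filter_upwards with y
      rw [wC_rot]
      simp only [trC, wC, mu, Bool.false_eq_true, if_false]
      push_cast
      ring_nf
    · rw [hb'] at hx1
      rw [hb] at hx2
      filter_upwards [sg_gA_eq_gB hx1 hx2] with y hy
      rw [wC_rot]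
      simp only [trC, wC, mu, Bool.false_eq_true, if_false, if_true]
      unfold sg at hy
      rw [hy]
      push_cast
      ring_nf
    · rw [hb'] at hx1
      rw [hb] at hx2
      filter_upwards [hopen, hopen'] with y k1 k2
      have k1' := k1 j
      have k2' := k2 j
      rw [hb'] at k1'
      rw [hb] at k2'
      rw [wC_rot]
      simp only [trC, wC, mu, Bool.false_eq_true, if_false, if_true]
      have hinv : (gB (y.2.2.1 j) (y.2.2.2 j) ^ 2)⁻¹ = gA (y.2.2.1 j) (y.2.2.2 j) ^ 2 :=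
        inv_eq_of_mul_eq_one_right (by rw [mul_comm]; exact gA_sq_mul_gB_sq k2' k1')
      rw [hinv]
      push_cast
      ring_nf
    · filter_upwards with y
      rw [wC_rot]
      simp only [trC, wC, mu, if_true]
      push_cast
      ring_nf
  filter_upwards [key] with y hy
  unfold gamX fX actX
  simp only
  refine Prod.ext rfl (Prod.ext ?_ rfl)
  funext j
  exact hy j

theorem gamX_locConst (ε : J → Bool) (a : LSp P) (ε' : J → Bool) (x : XSp P J)
    (hx : x ∈ domX ε') (hx' : actX blk a x ∈ domX ε) :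
    ∀ᶠ y in 𝓝 x, (gamX blk ε a ε' y : QSp P J K → QSp P J K) =ᶠ[𝓝 (fX K ε' y)]
      gamX blk ε a ε' x := by
  rw [mem_domX_act] at hx'
  have hopen := (isOpen_domX (P := P) ε').mem_nhds hx
  have hopen' := (isOpen_domX (P := P) ε).mem_nhds hx'
  have key : ∀ᶠ y : XSp P J in 𝓝 x, ∀ j, ε j = false → ε' j = true →
      (sg (gB (x.2.2.1 j) (x.2.2.2 j)) (gA (y.2.2.1 j) (y.2.2.2 j) ^ 2) =
        gB (y.2.2.1 j) (y.2.2.2 j) ∧
      gA (y.2.2.1 j) (y.2.2.2 j) ^ 2 * gB (x.2.2.1 j) (x.2.2.2 j) ^ 2 ∈ Complex.slitPlane) := by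
    rw [eventually_all]
    intro j
    by_cases hb : ε j = false
    swap
    · exact Eventually.of_forall fun y h => absurd h hb
    by_cases hb' : ε' j = true
    swap
    · exact Eventually.of_forall fun y _ h => absurd h hb'
    have hx1 := hx j
    have hx2 := hx' j
    rw [hb'] at hx1
    rw [hb] at hx2
    have hc : ContinuousAt (fun y : XSp P J =>
        gA (y.2.2.1 j) (y.2.2.2 j) ^ 2 * gB (x.2.2.1 j) (x.2.2.2 j) ^ 2) x :=
      ((continuousAt_gA_X hx1).pow 2).mul continuousAt_const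
    have hmem : gA (x.2.2.1 j) (x.2.2.2 j) ^ 2 * gB (x.2.2.1 j) (x.2.2.2 j) ^ 2 ∈
        Complex.slitPlane := by
      rw [gA_sq_mul_gB_sq hx1 hx2]; exact one_mem_slit
    have hs := hc.eventually (Complex.isOpen_slitPlane.mem_nhds hmem)
    filter_upwards [sg_gA_eq_gB hx1 hx2, hs] with y h1 h2
    exact fun _ _ => ⟨h1, h2⟩
  filter_upwards [key, hopen, hopen'] with y hy k1 k2
  have key2 : ∀ᶠ q : QSp P J K in 𝓝 (fX K ε' y), ∀ j,
      trC (ε j) (ε' j) (ang blk a.1 q.1 j) (gB (y.2.2.1 j) (y.2.2.2 j)) (q.2.1 j) =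
      trC (ε j) (ε' j) (ang blk a.1 q.1 j) (gB (x.2.2.1 j) (x.2.2.2 j)) (q.2.1 j) := by
    rw [eventually_all]
    intro j
    have hyj := hy j
    have k1' := k1 j
    have k2' := k2 j
    have hx1 := hx j
    have hx2 := hx' j
    rcases hb : ε j with _ | _ <;> rcases hb' : ε' j with _ | _
    · exact Eventually.of_forall fun q => rfl
    · rw [hb'] at k1' hx1
      rw [hb] at k2' hx2
      obtain ⟨h1, h2⟩ := hyj hb hb'
      have hw : ContinuousAt (fun q : QSp P J K => q.2.1 j) (fX K ε' y) := by fun_prop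
      have hval : (fX K ε' y).2.1 j = gA (y.2.2.1 j) (y.2.2.2 j) ^ 2 := by
        simp only [fX, wC, hb', if_true]
      have hne : ∀ᶠ q : QSp P J K in 𝓝 (fX K ε' y), q.2.1 j ≠ 0 :=
        hw.eventually_ne (by rw [hval]; exact pow_ne_zero 2 (gA_ne_zero k1' k2'))
      have hfin : ∀ᶠ q : QSp P J K in 𝓝 (fX K ε' y),
          sg (gB (y.2.2.1 j) (y.2.2.2 j)) (q.2.1 j) =
            sg (gB (x.2.2.1 j) (x.2.2.2 j)) (q.2.1 j) := by
        apply eq_of_sq_eq
        · exact continuousAt_sg continuousAt_const hw (by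
            rw [hval, gA_sq_mul_gB_sq k1' k2']; exact one_mem_slit)
        · exact continuousAt_sg continuousAt_const hw (by rw [hval]; exact h2)
        · filter_upwards [hne] with q hq
          rw [sg_sq (gB_ne_zero k1' k2') hq, sg_sq (gB_ne_zero hx1 hx2) hq]
        · rw [hval, h1, sg_base (gA_sq_mul_gB_sq k1' k2')]
        · rw [hval, sg_base (gA_sq_mul_gB_sq k1' k2')]
          exact gB_ne_zero k1' k2'
      filter_upwards [hfin] with q hq
      unfold sg at hq
      simp only [trC]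
      rw [hq]
    · exact Eventually.of_forall fun q => rfl
    · exact Eventually.of_forall fun q => rfl
  filter_upwards [key2] with q hq
  unfold gamX
  refine Prod.ext rfl (Prod.ext ?_ rfl)
  funext j
  exact hq j

theorem ang_add_int (a b : P → ℤ) (c : P → ℤ) (z : P → ℝ) (j : J) :
    ∃ m : ℤ, ang blk a (fun p => z p + c p) j + ang blk b z j =
      ang blk (a + b) z j + 2 * Real.pi * m := by
  refine ⟨∑ p, if blk p = j then a p * c p else 0, ?_⟩
  unfold ang
  push_cast
  rw [← mul_add, ← mul_add, ← Finset.sum_add_distrib, ← Finset.sum_add_distrib]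
  congr 1
  apply Finset.sum_congr rfl
  intro p _
  split_ifs
  · simp only [Pi.add_apply]; push_cast; ring
  · simp

theorem exp_ang_add (k : ℤ) (a b c : P → ℤ) (z : P → ℝ) (j : J) :
    Complex.exp (k * (ang blk a (fun p => z p + c p) j : ℂ) * Complex.I) *
      Complex.exp (k * (ang blk b z j : ℂ) * Complex.I) =
    Complex.exp (k * (ang blk (a + b) z j : ℂ) * Complex.I) := by
  obtain ⟨m, hm⟩ := ang_add_int blk a b c z j
  rw [← Complex.exp_add]
  have h1 : (k * (ang blk a (fun p => z p + c p) j : ℂ) * Complex.I) +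
      (k * (ang blk b z j : ℂ) * Complex.I) =
      (k * (ang blk (a + b) z j : ℂ) * Complex.I) + ((k * m : ℤ) : ℂ) * (2 * Real.pi * Complex.I) := by
    have h2 : ((ang blk a (fun p => z p + c p) j : ℝ) : ℂ) + ((ang blk b z j : ℝ) : ℂ) =
        ((ang blk (a + b) z j : ℝ) : ℂ) + 2 * Real.pi * m := by
      exact_mod_cast congrArg (fun r : ℝ => (r : ℂ)) hm
    push_cast
    linear_combination (k * Complex.I) * h2
  rw [h1, Complex.exp_add, Complex.exp_int_mul_two_pi_mul_I, mul_one]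

theorem exp_ang_add_two (a b c : P → ℤ) (z : P → ℝ) (j : J) :
    Complex.exp (2 * (ang blk a (fun p => z p + c p) j : ℂ) * Complex.I) *
      Complex.exp (2 * (ang blk b z j : ℂ) * Complex.I) =
    Complex.exp (2 * (ang blk (a + b) z j : ℂ) * Complex.I) := by
  have := exp_ang_add blk 2 a b c z j
  push_cast at this
  exact this

theorem exp_ang_add_neg (a b c : P → ℤ) (z : P → ℝ) (j : J) :
    Complex.exp (-(ang blk a (fun p => z p + c p) j : ℂ) * Complex.I) *
      Complex.exp (-(ang blk b z j : ℂ) * Complex.I) =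
    Complex.exp (-(ang blk (a + b) z j : ℂ) * Complex.I) := by
  have := exp_ang_add blk (-1) a b c z j
  push_cast at this
  simpa only [neg_mul, one_mul] using this

theorem exp_two_eq_sq (θ : ℂ) :
    Complex.exp (2 * θ * Complex.I) = Complex.exp (θ * Complex.I) ^ 2 := by
  rw [← Complex.exp_nat_mul]; congr 1; push_cast; ring

theorem exp_neg_eq_inv (θ : ℂ) :
    Complex.exp (-θ * Complex.I) = (Complex.exp (θ * Complex.I))⁻¹ := by
  rw [← Complex.exp_neg]; congr 1; ring

theorem gamX_comp (ε : J → Bool) (a : LSp P) (ε' : J → Bool) (b : LSp P) (ε'' : J → Bool)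
    (x : XSp P J) (hx : x ∈ domX ε'') (h1 : actX blk b x ∈ domX ε')
    (h2 : actX blk a (actX blk b x) ∈ domX ε) :
    (fun v : QSp P J K => gamX blk ε a ε' (actX blk b x) (gamX blk ε' b ε'' x v))
      =ᶠ[𝓝 (fX K ε'' x)] gamX blk ε (a + b) ε'' x := by
  rw [mem_domX_act, mem_domX_act] at h2
  rw [mem_domX_act] at h1
  have key : ∀ᶠ q : QSp P J K in 𝓝 (fX K ε'' x), ∀ j,
      trC (ε j) (ε' j) (ang blk a.1 (fun p => q.1 p + b.2 p) j)
        (gB (Complex.exp (ang blk b.1 x.2.1 j * Complex.I) * x.2.2.1 j) (x.2.2.2 j))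
        (trC (ε' j) (ε'' j) (ang blk b.1 q.1 j) (gB (x.2.2.1 j) (x.2.2.2 j)) (q.2.1 j)) =
      trC (ε j) (ε'' j) (ang blk (a.1 + b.1) q.1 j) (gB (x.2.2.1 j) (x.2.2.2 j)) (q.2.1 j) := by
    rw [eventually_all]
    intro j
    have k0 := hx j
    have k1 := h1 j
    have k2 := h2 j
    have hw : ContinuousAt (fun q : QSp P J K => q.2.1 j) (fX K ε'' x) := by fun_prop
    have hang : ContinuousAt (fun q : QSp P J K => ((ang blk b.1 q.1 j : ℝ) : ℂ)) (fX K ε'' x) :=
      (Complex.continuous_ofReal.comp ((continuous_ang blk b.1 j).comp continuous_fst)).continuousAt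
    have hang0 : ang blk b.1 (fX K ε'' x).1 j = ang blk b.1 x.2.1 j := rfl
    rcases hb : ε j with _ | _ <;> rcases hb' : ε' j with _ | _ <;> rcases hb'' : ε'' j with _ | _
    · -- F F F
      filter_upwards with q
      simp only [trC]
      rw [← exp_ang_add_neg blk a.1 b.1 b.2 q.1 j, mul_assoc]
    · -- F F T
      filter_upwards with q
      simp only [trC]
      rw [← exp_ang_add_neg blk a.1 b.1 b.2 q.1 j, mul_assoc]
    · -- F T F
      rw [hb''] at k0
      rw [hb'] at k1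
      have hg : gB (x.2.2.1 j) (x.2.2.2 j) ≠ 0 := gB_ne_zero k1 k0
      have hval : (fX K ε'' x).2.1 j = gB (x.2.2.1 j) (x.2.2.2 j) := by
        simp only [fX, wC, hb'', Bool.false_eq_true, if_false]
      have hvn : (fX K ε'' x).2.1 j ≠ 0 := by rw [hval]; exact hg
      have hne : ∀ᶠ q : QSp P J K in 𝓝 (fX K ε'' x), q.2.1 j ≠ 0 :=
        hw.eventually_ne hvn
      set E0 := Complex.exp (ang blk b.1 x.2.1 j * Complex.I) with hE0
      have hE0n : E0 ≠ 0 := Complex.exp_ne_zero _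
      have hg' : gB (E0 * x.2.2.1 j) (x.2.2.2 j) = E0⁻¹ * gB (x.2.2.1 j) (x.2.2.2 j) := by
        rw [hE0, gB_rot, exp_neg_eq_inv]
      have hg'n : gB (E0 * x.2.2.1 j) (x.2.2.2 j) ≠ 0 := by
        rw [hg']; exact mul_ne_zero (inv_ne_zero hE0n) hg
      have hunit : Complex.exp (2 * (ang blk b.1 (fX K ε'' x).1 j : ℂ) * Complex.I) *
          ((fX K ε'' x).2.1 j ^ 2)⁻¹ * gB (E0 * x.2.2.1 j) (x.2.2.2 j) ^ 2 = 1 := by
        rw [hg', hval, hang0, exp_two_eq_sq, ← hE0]
        field_simp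
      have hfin : ∀ᶠ q : QSp P J K in 𝓝 (fX K ε'' x),
          sg (gB (E0 * x.2.2.1 j) (x.2.2.2 j))
            (Complex.exp (2 * (ang blk b.1 q.1 j : ℂ) * Complex.I) * (q.2.1 j ^ 2)⁻¹) =
            Complex.exp (-(ang blk b.1 q.1 j : ℂ) * Complex.I) * q.2.1 j := by
        apply eq_of_sq_eq
        · apply continuousAt_sg continuousAt_const
          · exact ((continuousAt_const.mul hang).mul continuousAt_const).cexp.mul
              ((hw.pow 2).inv₀ (pow_ne_zero 2 hvn))
          · rw [hunit]; exact one_mem_slit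
        · exact (hang.neg.mul continuousAt_const).cexp.mul hw
        · filter_upwards [hne] with q hq
          rw [sg_sq hg'n (mul_ne_zero (Complex.exp_ne_zero _) (inv_ne_zero (pow_ne_zero 2 hq))),
            exp_two_eq_sq, exp_neg_eq_inv]
          have := Complex.exp_ne_zero (ang blk b.1 q.1 j * Complex.I)
          field_simp
        · rw [sg_base hunit, hg', hval, hang0, exp_neg_eq_inv]
        · rw [sg_base hunit]; exact hg'n
      filter_upwards [hfin] with q hq
      simp only [trC]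
      unfold sg at hq
      rw [hq, ← exp_ang_add_neg blk a.1 b.1 b.2 q.1 j, mul_assoc]
    · -- F T T
      rw [hb''] at k0
      rw [hb] at k2
      have hg : gB (x.2.2.1 j) (x.2.2.2 j) ≠ 0 := gB_ne_zero k0 k2
      have hval : (fX K ε'' x).2.1 j = gA (x.2.2.1 j) (x.2.2.2 j) ^ 2 := by
        simp only [fX, wC, hb'', if_true]
      have hne : ∀ᶠ q : QSp P J K in 𝓝 (fX K ε'' x), q.2.1 j ≠ 0 :=
        hw.eventually_ne (by rw [hval]; exact pow_ne_zero 2 (gA_ne_zero k0 k2))
      set E0 := Complex.exp (ang blk b.1 x.2.1 j * Complex.I) with hE0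
      have hE0n : E0 ≠ 0 := Complex.exp_ne_zero _
      have hg' : gB (E0 * x.2.2.1 j) (x.2.2.2 j) = E0⁻¹ * gB (x.2.2.1 j) (x.2.2.2 j) := by
        rw [hE0, gB_rot, exp_neg_eq_inv]
      have hg'n : gB (E0 * x.2.2.1 j) (x.2.2.2 j) ≠ 0 := by
        rw [hg']; exact mul_ne_zero (inv_ne_zero hE0n) hg
      have hbase := gA_sq_mul_gB_sq k0 k2
      have hunit : Complex.exp (2 * (ang blk b.1 (fX K ε'' x).1 j : ℂ) * Complex.I) *
          (fX K ε'' x).2.1 j * gB (E0 * x.2.2.1 j) (x.2.2.2 j) ^ 2 = 1 := by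
        rw [hg', hval, hang0, exp_two_eq_sq, ← hE0, mul_pow, inv_pow]
        have hE2 : E0 ^ 2 ≠ 0 := pow_ne_zero 2 hE0n
        calc E0 ^ 2 * gA (x.2.2.1 j) (x.2.2.2 j) ^ 2 *
              ((E0 ^ 2)⁻¹ * gB (x.2.2.1 j) (x.2.2.2 j) ^ 2)
            = (E0 ^ 2 * (E0 ^ 2)⁻¹) * (gA (x.2.2.1 j) (x.2.2.2 j) ^ 2 *
              gB (x.2.2.1 j) (x.2.2.2 j) ^ 2) := by ring
          _ = 1 := by rw [mul_inv_cancel₀ hE2, hbase, one_mul]
      have hbase' : (fX K ε'' x).2.1 j * gB (x.2.2.1 j) (x.2.2.2 j) ^ 2 = 1 := by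
        rw [hval]; exact hbase
      have hfin : ∀ᶠ q : QSp P J K in 𝓝 (fX K ε'' x),
          sg (gB (E0 * x.2.2.1 j) (x.2.2.2 j))
            (Complex.exp (2 * (ang blk b.1 q.1 j : ℂ) * Complex.I) * q.2.1 j) =
            Complex.exp (-(ang blk b.1 q.1 j : ℂ) * Complex.I) *
              sg (gB (x.2.2.1 j) (x.2.2.2 j)) (q.2.1 j) := by
        apply eq_of_sq_eq
        · apply continuousAt_sg continuousAt_const
          · exact ((continuousAt_const.mul hang).mul continuousAt_const).cexp.mul hw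
          · rw [hunit]; exact one_mem_slit
        · exact (hang.neg.mul continuousAt_const).cexp.mul
            (continuousAt_sg continuousAt_const hw (by rw [hbase']; exact one_mem_slit))
        · filter_upwards [hne] with q hq
          rw [mul_pow, sg_sq hg'n (mul_ne_zero (Complex.exp_ne_zero _) hq), sg_sq hg hq,
            exp_two_eq_sq, exp_neg_eq_inv]
          have := Complex.exp_ne_zero (ang blk b.1 q.1 j * Complex.I)
          field_simp
        · rw [sg_base hunit, sg_base hbase', hg', hang0, exp_neg_eq_inv]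
        · rw [sg_base hunit]; exact hg'n
      filter_upwards [hfin] with q hq
      simp only [trC]
      unfold sg at hq
      rw [hq, ← exp_ang_add_neg blk a.1 b.1 b.2 q.1 j, mul_assoc]
    · -- T F F
      filter_upwards with q
      simp only [trC]
      rw [← exp_ang_add_two blk a.1 b.1 b.2 q.1 j, exp_neg_eq_inv,
        exp_two_eq_sq (ang blk b.1 q.1 j), mul_pow, mul_inv, inv_pow, inv_inv]
      ring
    · -- T F T
      rw [hb''] at k0
      rw [hb'] at k1
      have hg : gB (x.2.2.1 j) (x.2.2.2 j) ≠ 0 := gB_ne_zero k0 k1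
      have hval : (fX K ε'' x).2.1 j = gA (x.2.2.1 j) (x.2.2.2 j) ^ 2 := by
        simp only [fX, wC, hb'', if_true]
      have hne : ∀ᶠ q : QSp P J K in 𝓝 (fX K ε'' x), q.2.1 j ≠ 0 :=
        hw.eventually_ne (by rw [hval]; exact pow_ne_zero 2 (gA_ne_zero k0 k1))
      filter_upwards [hne] with q hq
      have hs := sg_sq hg hq
      unfold sg at hs
      simp only [trC]
      rw [mul_pow (Complex.exp (-(ang blk b.1 q.1 j : ℂ) * Complex.I)), hs,
        ← exp_ang_add_two blk a.1 b.1 b.2 q.1 j, mul_inv, inv_inv, exp_neg_eq_inv,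
        exp_two_eq_sq (ang blk b.1 q.1 j), inv_pow, inv_inv]
      ring
    · -- T T F
      filter_upwards with q
      simp only [trC]
      rw [← exp_ang_add_two blk a.1 b.1 b.2 q.1 j]
      ring
    · -- T T T
      filter_upwards with q
      simp only [trC]
      rw [← exp_ang_add_two blk a.1 b.1 b.2 q.1 j]
      ring
  filter_upwards [key] with q hq
  unfold gamX
  refine Prod.ext ?_ (Prod.ext ?_ rfl)
  · funext p
    simp only [Prod.snd_add, Pi.add_apply]
    push_cast
    ring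
  · funext j
    exact hq j

end

end Pool.Agent.HaefligerClasses
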