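import Pool.Agent.HaefligerClasses.Model

/-!
# Algebra of the blocks `B1`, `B2`
-/

namespace Pool.Agent.HaefligerClasses

open Filter Topology
open scoped ContDiff

set_option linter.unusedSectionVars false

variable {P J K : Type} [Fintype P] [Fintype J] [Fintype K] [DecidableEq P] [DecidableEq J]
  (blk : P → J)

theorem B1_apply (j : J) (c : ℂ) (q : QSp P J K) :
    B1 P K j c q = ((0 : P → ℝ), Pi.single j (c * q.2.1 j), (0 : K → ℝ)) := by
  simp [B1, injJ, projJ]

theorem B2_apply (p : P) (c : ℂ) (q : QSp P J K) :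
    B2 blk K p c q = ((0 : P → ℝ), Pi.single (blk p) ((q.1 p : ℂ) * c), (0 : K → ℝ)) := by
  simp [B2, injJ, projP]

theorem B1_comp_B1 (j l : J) (c d : ℂ) :
    B1 P K j c ∘L B1 P K l d = if j = l then B1 P K j (c * d) else 0 := by
  refine ContinuousLinearMap.ext fun q => ?_
  rw [ContinuousLinearMap.comp_apply]
  ext i
  · split_ifs <;> simp [B1_apply]
  · split_ifs with h
    · subst h
      simp [B1_apply, mul_assoc]
    · simp [B1_apply, Pi.single_eq_of_ne h]
  · split_ifs <;> simp [B1_apply]

theorem B1_comp_B2 (j : J) (p : P) (c d : ℂ) :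
    B1 P K j c ∘L B2 blk K p d = if j = blk p then B2 blk K p (c * d) else 0 := by
  refine ContinuousLinearMap.ext fun q => ?_
  rw [ContinuousLinearMap.comp_apply]
  ext i
  · split_ifs <;> simp [B1_apply, B2_apply]
  · split_ifs with h
    · subst h
      simp [B1_apply, B2_apply, mul_left_comm]
    · simp [B1_apply, B2_apply, Pi.single_eq_of_ne h]
  · split_ifs <;> simp [B1_apply, B2_apply]

theorem B2_comp_B1 (j : J) (p : P) (c d : ℂ) :
    B2 blk K p c ∘L B1 P K j d = 0 := by
  refine ContinuousLinearMap.ext fun q => ?_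
  rw [ContinuousLinearMap.comp_apply]
  ext i <;> simp [B1_apply, B2_apply]

theorem B2_comp_B2 (p r : P) (c d : ℂ) :
    B2 blk K p c ∘L B2 blk K r d = 0 := by
  refine ContinuousLinearMap.ext fun q => ?_
  rw [ContinuousLinearMap.comp_apply]
  ext i <;> simp [B2_apply]

/-- the general block element -/
noncomputable def blk12 (K : Type) [Fintype K] (α : J → ℂ) (β : P → ℂ) :
    QSp P J K →L[ℝ] QSp P J K :=
  (∑ j, B1 P K j (α j)) + ∑ p, B2 blk K p (β p)

theorem blk12_apply (α : J → ℂ) (β : P → ℂ) (q : QSp P J K) :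
    blk12 blk K α β q = ((0 : P → ℝ),
      fun j => α j * q.2.1 j + ∑ p, if blk p = j then (q.1 p : ℂ) * β p else 0, (0 : K → ℝ)) := by
  have h1 : (∑ j, B1 P K j (α j)) q = ((0 : P → ℝ), fun j => α j * q.2.1 j, (0 : K → ℝ)) := by
    rw [ContinuousLinearMap.sum_apply]
    simp only [B1_apply]
    ext i
    · simp [Prod.fst_sum]
    · simp [Prod.snd_sum, Prod.fst_sum, Finset.sum_apply, Pi.single_apply]
    · simp [Prod.snd_sum]
  have h2 : (∑ p, B2 blk K p (β p)) q = ((0 : P → ℝ),
      fun j => ∑ p, if blk p = j then (q.1 p : ℂ) * β p else 0, (0 : K → ℝ)) := by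
    rw [ContinuousLinearMap.sum_apply]
    simp only [B2_apply]
    ext i
    · simp [Prod.fst_sum]
    · simp [Prod.snd_sum, Prod.fst_sum, Finset.sum_apply, Pi.single_apply, eq_comm]
    · simp [Prod.snd_sum]
  rw [blk12, ContinuousLinearMap.add_apply, h1, h2]
  ext i <;> simp

theorem blk12_comp (α α' : J → ℂ) (β β' : P → ℂ) :
    blk12 blk K α β ∘L blk12 blk K α' β' =
      blk12 blk K (fun j => α j * α' j) (fun p => α (blk p) * β' p) := by
  refine ContinuousLinearMap.ext fun q => ?_
  rw [ContinuousLinearMap.comp_apply, blk12_apply, blk12_apply, blk12_apply]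
  ext i
  · simp
  · simp only [Pi.zero_apply, Complex.ofReal_zero, zero_mul, ite_self, Finset.sum_const_zero,
      add_zero]
    rw [mul_add, Finset.mul_sum, mul_assoc]
    congr 1
    refine Finset.sum_congr rfl fun p _ => ?_
    split_ifs with h
    · subst h; ring
    · simp
  · simp

theorem blk12_add (α α' : J → ℂ) (β β' : P → ℂ) :
    blk12 blk K α β + blk12 blk K α' β' = blk12 blk K (fun j => α j + α' j) (fun p => β p + β' p) := by
  simp only [blk12, map_add, Finset.sum_add_distrib]
  abel

theorem blk12_sub (α α' : J → ℂ) (β β' : P → ℂ) :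
    blk12 blk K α β - blk12 blk K α' β' = blk12 blk K (fun j => α j - α' j) (fun p => β p - β' p) := by
  simp only [blk12, map_sub, Finset.sum_sub_distrib]
  abel

end Pool.Agent.HaefligerClasses
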