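import Pool.Agent.HaefligerClasses.Sphere

/-!
# Transformation of the line bundle connection
-/

namespace Pool.Agent.HaefligerClasses

open Filter Topology
open scoped ContDiff

section

variable {P J : Type} [Fintype P] [Fintype J] [DecidableEq P] [DecidableEq J] (blk : P → J)

/-! ### the angle -/

/-- the derivative of the angle -/
noncomputable def thD (a : P → ℤ) (j : J) : XSp P J →L[ℝ] ℂ :=
  ∑ p, if blk p = j then (2 * Real.pi * ((a p : ℝ) : ℂ)) • dzC J p else 0

theorem dzC_apply (p : P) (u : XSp P J) : dzC J p u = ((u.2.1 p : ℝ) : ℂ) := rfl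

theorem dyC_apply (p : P) (u : XSp P J) : dyC J p u = ((u.1 p : ℝ) : ℂ) := rfl

theorem thD_apply (a : P → ℤ) (j : J) (u : XSp P J) :
    thD blk a j u = ((ang blk a u.2.1 j : ℝ) : ℂ) := by
  unfold thD ang
  rw [_root_.sum_apply, Finset.mul_sum, Complex.ofReal_sum]
  refine Finset.sum_congr rfl fun p _ => ?_
  split_ifs with h
  · rw [_root_.smul_apply, dzC_apply, smul_eq_mul]
    push_cast
    ring
  · simp

theorem hasFDerivAt_ang (a : P → ℤ) (j : J) (x : XSp P J) :
    HasFDerivAt (fun y : XSp P J => ((ang blk a y.2.1 j : ℝ) : ℂ)) (thD blk a j) x := by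
  have h : (fun y : XSp P J => ((ang blk a y.2.1 j : ℝ) : ℂ)) = thD blk a j := by
    funext y
    rw [thD_apply]
  rw [h]
  exact (thD blk a j).hasFDerivAt

theorem hasFDerivAt_exp_ang (a : P → ℤ) (j : J) (x : XSp P J) (m : ℂ) :
    HasFDerivAt (fun y : XSp P J => Complex.exp (m * ((ang blk a y.2.1 j : ℝ) : ℂ) * Complex.I))
      ((m * Complex.I * Complex.exp (m * ((ang blk a x.2.1 j : ℝ) : ℂ) * Complex.I)) •
        thD blk a j) x := by
  have h1 := (((hasFDerivAt_ang blk a j x).const_mul m).mul_const Complex.I).cexp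
  refine h1.congr_fderiv ?_
  refine ContinuousLinearMap.ext fun u => ?_
  simp only [_root_.smul_apply, smul_eq_mul]
  ring

/-! ### the action -/

theorem hasFDerivAt_actX (a : LSp P) (x : XSp P J) :
    HasFDerivAt (actX blk a : XSp P J → XSp P J)
      ((ContinuousLinearMap.fst ℝ (P → ℝ) ((P → ℝ) × (J → ℂ) × (J → ℝ))).prod
        (((ContinuousLinearMap.fst ℝ (P → ℝ) ((J → ℂ) × (J → ℝ))) ∘L
          (ContinuousLinearMap.snd ℝ (P → ℝ) ((P → ℝ) × (J → ℂ) × (J → ℝ)))).prod
        ((ContinuousLinearMap.pi fun j =>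
          (Complex.I * Complex.exp (1 * ((ang blk a.1 x.2.1 j : ℝ) : ℂ) * Complex.I) *
            x.2.2.1 j) • thD blk a.1 j +
          Complex.exp (1 * ((ang blk a.1 x.2.1 j : ℝ) : ℂ) * Complex.I) •
            ((ContinuousLinearMap.proj j : (J → ℂ) →L[ℝ] ℂ) ∘L
              (ContinuousLinearMap.fst ℝ (J → ℂ) (J → ℝ)) ∘L
              (ContinuousLinearMap.snd ℝ (P → ℝ) ((J → ℂ) × (J → ℝ))) ∘L
              (ContinuousLinearMap.snd ℝ (P → ℝ) ((P → ℝ) × (J → ℂ) × (J → ℝ))))).prod
        ((ContinuousLinearMap.snd ℝ (J → ℂ) (J → ℝ)) ∘L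
              (ContinuousLinearMap.snd ℝ (P → ℝ) ((J → ℂ) × (J → ℝ))) ∘L
              (ContinuousLinearMap.snd ℝ (P → ℝ) ((P → ℝ) × (J → ℂ) × (J → ℝ))))))) x := by
  unfold actX
  refine HasFDerivAt.prodMk ?_ (HasFDerivAt.prodMk ?_ (HasFDerivAt.prodMk ?_ ?_))
  · have := (ContinuousLinearMap.fst ℝ (P → ℝ) ((P → ℝ) × (J → ℂ) × (J → ℝ))).hasFDerivAt
      (x := x)
    exact this.add_const (fun p => (a.1 p : ℝ))
  · have := ((ContinuousLinearMap.fst ℝ (P → ℝ) ((J → ℂ) × (J → ℝ))) ∘L
          (ContinuousLinearMap.snd ℝ (P → ℝ) ((P → ℝ) × (J → ℂ) × (J → ℝ)))).hasFDerivAt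
      (x := x)
    exact this.add_const (fun p => (a.2 p : ℝ))
  · rw [hasFDerivAt_pi]
    intro j
    have h1 := hasFDerivAt_exp_ang blk a.1 j x 1
    have h2 := ((ContinuousLinearMap.proj j : (J → ℂ) →L[ℝ] ℂ) ∘L
              (ContinuousLinearMap.fst ℝ (J → ℂ) (J → ℝ)) ∘L
              (ContinuousLinearMap.snd ℝ (P → ℝ) ((J → ℂ) × (J → ℝ))) ∘L
              (ContinuousLinearMap.snd ℝ (P → ℝ) ((P → ℝ) × (J → ℂ) × (J → ℝ)))).hasFDerivAt
      (x := x)
    have h3 := h1.mul h2
    have e1 : (fun y : XSp P J => Complex.exp ((ang blk a.1 y.2.1 j : ℝ) * Complex.I) *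
        y.2.2.1 j) = fun y : XSp P J => Complex.exp (1 * ((ang blk a.1 y.2.1 j : ℝ) : ℂ) *
          Complex.I) * y.2.2.1 j := by
      funext y
      rw [one_mul]
    rw [e1]
    refine h3.congr_fderiv ?_
    refine ContinuousLinearMap.ext fun u => ?_
    simp only [_root_.add_apply, _root_.smul_apply, smul_eq_mul,
      ContinuousLinearMap.comp_apply, ContinuousLinearMap.proj_apply,
      ContinuousLinearMap.coe_fst', ContinuousLinearMap.coe_snd']
    ring
  · exact ((ContinuousLinearMap.snd ℝ (J → ℂ) (J → ℝ)) ∘L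
              (ContinuousLinearMap.snd ℝ (P → ℝ) ((J → ℂ) × (J → ℝ))) ∘L
              (ContinuousLinearMap.snd ℝ (P → ℝ) ((P → ℝ) × (J → ℂ) × (J → ℝ)))).hasFDerivAt
      (x := x)

theorem differentiableAt_actX (a : LSp P) (x : XSp P J) :
    DifferentiableAt ℝ (actX blk a : XSp P J → XSp P J) x :=
  (hasFDerivAt_actX blk a x).differentiableAt

theorem fderiv_actX_fst (a : LSp P) (x u : XSp P J) :
    (fderiv ℝ (actX blk a : XSp P J → XSp P J) x u).1 = u.1 := by
  rw [(hasFDerivAt_actX blk a x).fderiv]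
  rfl

theorem fderiv_actX_snd (a : LSp P) (x u : XSp P J) :
    (fderiv ℝ (actX blk a : XSp P J → XSp P J) x u).2.1 = u.2.1 := by
  rw [(hasFDerivAt_actX blk a x).fderiv]
  rfl

/-! ### the chart coordinate -/

theorem contDiffAt_gX (b : Bool) (j : J) (x : XSp P J)
    (hx : chartDom b (x.2.2.1 j) (x.2.2.2 j)) :
    ContDiffAt ℝ ∞ (gX b j : XSp P J → ℂ) x := by
  have h1 := contDiffAt_gC b (x.2.2.1 j) (x.2.2.2 j) hx
  have h2 : ContDiffAt ℝ ∞ (fun y : XSp P J => ((y.2.2.1 j, y.2.2.2 j) : ℂ × ℝ)) x := by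
    fun_prop
  exact ContDiffAt.comp x h1 h2

theorem contDiffAt_hX (b : Bool) (j : J) (x : XSp P J)
    (hx : chartDom b (x.2.2.1 j) (x.2.2.2 j)) :
    ContDiffAt ℝ ∞ (hX b j : XSp P J → ℝ) x := by
  have h1 := contDiffAt_hC b (x.2.2.1 j) (x.2.2.2 j) hx
  have h2 : ContDiffAt ℝ ∞ (fun y : XSp P J => ((y.2.2.1 j, y.2.2.2 j) : ℂ × ℝ)) x := by
    fun_prop
  exact ContDiffAt.comp x h1 h2

theorem wX_eq (b : Bool) (j : J) (x : XSp P J) :
    wX b j x = if b then gX b j x ^ 2 else gX b j x := by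
  unfold wX gX wC gC
  cases b <;> simp

theorem contDiffAt_wX (b : Bool) (j : J) (x : XSp P J)
    (hx : chartDom b (x.2.2.1 j) (x.2.2.2 j)) :
    ContDiffAt ℝ ∞ (wX b j : XSp P J → ℂ) x := by
  have h := contDiffAt_gX b j x hx
  have e : (wX b j : XSp P J → ℂ) = fun y => if b then gX b j y ^ 2 else gX b j y := by
    funext y
    exact wX_eq b j y
  rw [e]
  cases b
  · simpa using h
  · simpa using h.pow 2

theorem actX_dom (b : Bool) (a : LSp P) (j : J) (x : XSp P J)
    (hx : chartDom b (x.2.2.1 j) (x.2.2.2 j)) :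
    chartDom b ((actX blk a x).2.2.1 j) ((actX blk a x).2.2.2 j) := by
  unfold actX
  exact (chartDom_rot b _ _ _).2 hx

theorem gX_act (b : Bool) (a : LSp P) (j : J) (x : XSp P J) :
    gX b j (actX blk a x) = Complex.exp ((if b then 1 else -1 : ℂ) *
      ((ang blk a.1 x.2.1 j : ℝ) : ℂ) * Complex.I) * gX b j x := by
  unfold gX actX
  exact gC_rot b _ _ _

theorem wX_act (b : Bool) (a : LSp P) (j : J) (x : XSp P J) :
    wX b j (actX blk a x) = Complex.exp ((mu b : ℂ) *
      ((ang blk a.1 x.2.1 j : ℝ) : ℂ) * Complex.I) * wX b j x := by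
  unfold wX actX
  exact wC_rot b _ _ _

theorem hX_act (b : Bool) (a : LSp P) (j : J) (x : XSp P J) :
    hX b j (actX blk a x) = hX b j x := by
  unfold hX actX
  exact hC_rot b _ _ _

theorem hX_eq (b : Bool) (j : J) (x : XSp P J) : hX b j x =
    (if b then 0 else 3) + (if b then 1 else -1) *
      (3 * Complex.normSq (gX b j x) / (1 + Complex.normSq (gX b j x))) :=
  hC_eq b _ _

theorem fderiv_gX_act (b : Bool) (a : LSp P) (j : J) (x : XSp P J)
    (hx : chartDom b (x.2.2.1 j) (x.2.2.2 j)) (u : XSp P J) :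
    fderiv ℝ (gX b j : XSp P J → ℂ) (actX blk a x) (fderiv ℝ (actX blk a) x u) =
      Complex.exp ((if b then 1 else -1 : ℂ) * ((ang blk a.1 x.2.1 j : ℝ) : ℂ) * Complex.I) *
        ((if b then 1 else -1 : ℂ) * Complex.I * thD blk a.1 j u * gX b j x +
          fderiv ℝ (gX b j : XSp P J → ℂ) x u) := by
  have hg' : DifferentiableAt ℝ (gX b j : XSp P J → ℂ) (actX blk a x) :=
    (contDiffAt_gX b j _ (actX_dom blk b a j x hx)).differentiableAt (by simp)
  have hg : DifferentiableAt ℝ (gX b j : XSp P J → ℂ) x :=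
    (contDiffAt_gX b j _ hx).differentiableAt (by simp)
  have h1 := (hg'.hasFDerivAt.comp x (differentiableAt_actX blk a x).hasFDerivAt)
  have h2 := (hasFDerivAt_exp_ang blk a.1 j x (if b then 1 else -1 : ℂ)).mul hg.hasFDerivAt
  have e : (gX b j : XSp P J → ℂ) ∘ actX blk a = fun y => Complex.exp ((if b then 1 else -1 : ℂ) *
      ((ang blk a.1 y.2.1 j : ℝ) : ℂ) * Complex.I) * gX b j y := by
    funext y
    exact gX_act blk b a j y
  rw [e] at h1
  have h3 := h1.unique h2
  have h4 := congrArg (fun L : XSp P J →L[ℝ] ℂ => L u) h3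
  simp only [ContinuousLinearMap.comp_apply, _root_.add_apply,
    _root_.smul_apply, smul_eq_mul] at h4
  rw [h4]
  ring

theorem alphaX_apply (b : Bool) (j : J) (x u : XSp P J) :
    alphaX blk b j x u =
      (∑ p, if blk p = j then
        (-(2 * Real.pi * Complex.I) * ((2 - hX b j x : ℝ) : ℂ) * ((x.1 p : ℝ) : ℂ)) *
          ((u.2.1 p : ℝ) : ℂ) else 0)
      - (3 * (starRingEnd ℂ) (gX b j x) / ((1 + Complex.normSq (gX b j x) : ℝ) : ℂ)) *
        fderiv ℝ (gX b j) x u := by
  unfold alphaX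
  rw [_root_.sub_apply, _root_.smul_apply, smul_eq_mul,
    _root_.sum_apply]
  congr 1
  refine Finset.sum_congr rfl fun p _ => ?_
  split_ifs with h
  · rw [_root_.smul_apply, smul_eq_mul, dzC_apply]
  · rfl

/-- the line bundle connection in the same chart -/
theorem alphaX_same (b : Bool) (a : LSp P) (j : J) (x : XSp P J)
    (hx : chartDom b (x.2.2.1 j) (x.2.2.2 j)) (u : XSp P J) :
    alphaX blk b j (actX blk a x) (fderiv ℝ (actX blk a) x u) =
      alphaX blk b j x u - Complex.I * (mu b : ℂ) * thD blk a.1 j u := by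
  rw [alphaX_apply, alphaX_apply, fderiv_gX_act blk b a j x hx u, hX_act, gX_act,
    fderiv_actX_snd, thD_apply]
  set E := Complex.exp ((if b then 1 else -1 : ℂ) * ((ang blk a.1 x.2.1 j : ℝ) : ℂ) *
    Complex.I) with hE
  have hEE : (starRingEnd ℂ) E * E = 1 := by
    rw [hE, ← Complex.exp_conj, ← Complex.exp_add]
    have : (starRingEnd ℂ) ((if b then 1 else -1 : ℂ) * ((ang blk a.1 x.2.1 j : ℝ) : ℂ) *
        Complex.I) + (if b then 1 else -1 : ℂ) * ((ang blk a.1 x.2.1 j : ℝ) : ℂ) *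
        Complex.I = 0 := by
      rw [map_mul, map_mul, Complex.conj_I, Complex.conj_ofReal]
      cases b <;> simp
    rw [this, Complex.exp_zero]
  have hnE : Complex.normSq (E * gX b j x) = Complex.normSq (gX b j x) := by
    rw [map_mul]
    have : Complex.normSq E = 1 := by
      have h := Complex.normSq_eq_conj_mul_self (z := E)
      rw [hEE] at h
      exact_mod_cast h
    rw [this, one_mul]
  rw [hnE]
  set g := gX b j x with hg
  set n := Complex.normSq g with hn
  have hn0 : 0 ≤ n := Complex.normSq_nonneg g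
  have hn1 : ((1 + n : ℝ) : ℂ) ≠ 0 := by
    have : (1 + n : ℝ) ≠ 0 := by positivity
    exact_mod_cast this
  have hsum : (∑ p, if blk p = j then
        (-(2 * Real.pi * Complex.I) * ((2 - hX b j x : ℝ) : ℂ) *
          (((actX blk a x).1 p : ℝ) : ℂ)) * ((u.2.1 p : ℝ) : ℂ) else 0) =
      (∑ p, if blk p = j then
        (-(2 * Real.pi * Complex.I) * ((2 - hX b j x : ℝ) : ℂ) * ((x.1 p : ℝ) : ℂ)) *
          ((u.2.1 p : ℝ) : ℂ) else 0) -
      Complex.I * ((2 - hX b j x : ℝ) : ℂ) * ((ang blk a.1 u.2.1 j : ℝ) : ℂ) := by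
    have h1 : ((ang blk a.1 u.2.1 j : ℝ) : ℂ) = ∑ p, if blk p = j then
        (2 * Real.pi * ((a.1 p : ℝ) : ℂ) * ((u.2.1 p : ℝ) : ℂ)) else 0 := by
      unfold ang
      rw [Finset.mul_sum, Complex.ofReal_sum]
      refine Finset.sum_congr rfl fun p _ => ?_
      split_ifs with h
      · push_cast
        ring
      · simp
    rw [h1, Finset.mul_sum, ← Finset.sum_sub_distrib]
    refine Finset.sum_congr rfl fun p _ => ?_
    split_ifs with h
    · unfold actX
      push_cast
      ring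
    · simp
  rw [hsum]
  have hgg : (starRingEnd ℂ) g * g = (n : ℂ) := by
    rw [hn, Complex.normSq_eq_conj_mul_self]
  have hh : ((2 - hX b j x : ℝ) : ℂ) = (mu b : ℂ) + (if b then -1 else 1) *
      (3 * (n : ℂ) / ((1 + n : ℝ) : ℂ)) := by
    rw [hX_eq]
    cases b
    · simp only [Bool.false_eq_true, if_false, mu, ← hg, ← hn]
      push_cast
      ring
    · simp only [if_true, mu, ← hg, ← hn]
      push_cast
      ring
  rw [hh, map_mul]
  set D := fderiv ℝ (gX b j : XSp P J → ℂ) x u with hD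
  set T := ((ang blk a.1 u.2.1 j : ℝ) : ℂ) with hT
  have key : 3 * ((starRingEnd ℂ) E * (starRingEnd ℂ) g) / ((1 + n : ℝ) : ℂ) *
      (E * ((if b then 1 else -1 : ℂ) * Complex.I * T * g + D)) =
      3 * (n : ℂ) / ((1 + n : ℝ) : ℂ) * ((if b then 1 else -1 : ℂ) * Complex.I * T) +
        3 * (starRingEnd ℂ) g / ((1 + n : ℝ) : ℂ) * D := by
    calc 3 * ((starRingEnd ℂ) E * (starRingEnd ℂ) g) / ((1 + n : ℝ) : ℂ) *
      (E * ((if b then 1 else -1 : ℂ) * Complex.I * T * g + D))
        = 3 * ((starRingEnd ℂ) g * g) / ((1 + n : ℝ) : ℂ) *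
            ((if b then 1 else -1 : ℂ) * Complex.I * T) * ((starRingEnd ℂ) E * E) +
          3 * (starRingEnd ℂ) g / ((1 + n : ℝ) : ℂ) * D * ((starRingEnd ℂ) E * E) := by ring
      _ = _ := by rw [hEE, hgg]; ring
  rw [key]
  cases b
  · simp only [Bool.false_eq_true, if_false]
    ring
  · simp only [if_true]
    ring

/-- change of chart of the line bundle connection -/
theorem alphaX_change (j : J) (x : XSp P J)
    (h1 : chartDom true (x.2.2.1 j) (x.2.2.2 j)) (h2 : chartDom false (x.2.2.1 j) (x.2.2.2 j))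
    (u : XSp P J) :
    alphaX blk true j x u = alphaX blk false j x u +
      3 * fderiv ℝ (gX false j : XSp P J → ℂ) x u / gX false j x := by
  have hopen : ∀ᶠ y : XSp P J in 𝓝 x, chartDom true (y.2.2.1 j) (y.2.2.2 j) ∧
      chartDom false (y.2.2.1 j) (y.2.2.2 j) := by
    have hc : ContinuousAt (fun y : XSp P J => ((y.2.2.1 j, y.2.2.2 j) : ℂ × ℝ)) x := by
      fun_prop
    exact (hc.eventually ((isOpen_chartDom true).mem_nhds h1)).and
      (hc.eventually ((isOpen_chartDom false).mem_nhds h2))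
  have hmul : ∀ y : XSp P J, chartDom true (y.2.2.1 j) (y.2.2.2 j) →
      chartDom false (y.2.2.1 j) (y.2.2.2 j) → gX true j y * gX false j y = 1 := by
    intro y hy1 hy2
    have := gA_mul_gB _ _ hy1 hy2
    simpa [gX, gC] using this
  have hAB := hmul x h1 h2
  have hg1 : DifferentiableAt ℝ (gX true j : XSp P J → ℂ) x :=
    (contDiffAt_gX true j _ h1).differentiableAt (by simp)
  have hg2 : DifferentiableAt ℝ (gX false j : XSp P J → ℂ) x :=
    (contDiffAt_gX false j _ h2).differentiableAt (by simp)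
  have hd : gX true j x * fderiv ℝ (gX false j : XSp P J → ℂ) x u +
      gX false j x * fderiv ℝ (gX true j : XSp P J → ℂ) x u = 0 := by
    have h3 := hg1.hasFDerivAt.mul hg2.hasFDerivAt
    have h4 : HasFDerivAt (fun y : XSp P J => gX true j y * gX false j y)
        (0 : XSp P J →L[ℝ] ℂ) x := by
      have : (fun y : XSp P J => gX true j y * gX false j y) =ᶠ[𝓝 x] fun _ => (1 : ℂ) := by
        filter_upwards [hopen] with y hy
        exact hmul y hy.1 hy.2
      exact (hasFDerivAt_const (1 : ℂ) x).congr_of_eventuallyEq this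
    have h5 := congrArg (fun L : XSp P J →L[ℝ] ℂ => L u) (h3.unique h4)
    simpa only [_root_.add_apply, _root_.smul_apply, smul_eq_mul,
      _root_.zero_apply] using h5
  rw [alphaX_apply, alphaX_apply]
  have hh : hX true j x = hX false j x := hC_overlap _ _ h1 h2
  rw [hh]
  set A := gX true j x with hA
  set B := gX false j x with hB
  set dA := fderiv ℝ (gX true j : XSp P J → ℂ) x u with hdA
  set dB := fderiv ℝ (gX false j : XSp P J → ℂ) x u with hdB
  have hB0 : B ≠ 0 := right_ne_zero_of_mul_eq_one hAB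
  have hA0 : A ≠ 0 := left_ne_zero_of_mul_eq_one hAB
  have hAe : A = B⁻¹ := eq_inv_of_mul_eq_one_left hAB
  have hdAe : dA = - dB / B ^ 2 := by
    rw [hAe] at hd
    field_simp at hd ⊢
    linear_combination hd
  have hnB : Complex.normSq B ≠ 0 := by
    rwa [Ne, Complex.normSq_eq_zero]
  have hcB : (starRingEnd ℂ) B ≠ 0 := by
    rwa [Ne, map_eq_zero]
  have hBB : ((Complex.normSq B : ℝ) : ℂ) = (starRingEnd ℂ) B * B :=
    Complex.normSq_eq_conj_mul_self
  have hn1 : ((1 + Complex.normSq B : ℝ) : ℂ) ≠ 0 := by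
    have : (1 + Complex.normSq B : ℝ) ≠ 0 := by
      have := Complex.normSq_nonneg B
      positivity
    exact_mod_cast this
  have hn2 : (1 + (starRingEnd ℂ) B * B : ℂ) ≠ 0 := by
    rw [← hBB]
    have := hn1
    push_cast at this
    exact this
  have key : 3 * (starRingEnd ℂ) A / ((1 + Complex.normSq A : ℝ) : ℂ) * dA =
      3 * (starRingEnd ℂ) B / ((1 + Complex.normSq B : ℝ) : ℂ) * dB - 3 * dB / B := by
    have e1 : ((1 + Complex.normSq A : ℝ) : ℂ) = (1 + (starRingEnd ℂ) B * B) /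
        ((starRingEnd ℂ) B * B) := by
      rw [hAe, map_inv₀]
      push_cast
      rw [hBB]
      field_simp
      ring
    have e2 : ((1 + Complex.normSq B : ℝ) : ℂ) = 1 + (starRingEnd ℂ) B * B := by
      push_cast
      rw [hBB]
    rw [e1, e2, hdAe, hAe, map_inv₀]
    field_simp
    ring
  rw [key]
  ring

/-! ### the derivative of the transition functions -/

/-- the logarithmic derivative of `cC` -/
theorem hasFDerivAt_cC (b b' : Bool) (a : LSp P) (j : J) (x : XSp P J)
    (hx : chartDom b' (x.2.2.1 j) (x.2.2.2 j)) (hx' : chartDom b (x.2.2.1 j) (x.2.2.2 j)) :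
    HasFDerivAt (fun y : XSp P J => cC b b' (ang blk a.1 y.2.1 j) (gB (y.2.2.1 j) (y.2.2.2 j)))
      (cC b b' (ang blk a.1 x.2.1 j) (gB (x.2.2.1 j) (x.2.2.2 j)) •
        ((Complex.I * (mu b : ℂ)) • thD blk a.1 j +
          (if b = b' then (0 : ℂ) else if b then -3 / gX false j x else 3 / gX false j x) •
            fderiv ℝ (gX false j : XSp P J → ℂ) x)) x := by
  cases b <;> cases b'
  · -- false false
    have h := hasFDerivAt_exp_ang blk a.1 j x (-1)
    have e : (fun y : XSp P J => cC false false (ang blk a.1 y.2.1 j)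
        (gB (y.2.2.1 j) (y.2.2.2 j))) = fun y : XSp P J =>
        Complex.exp (-1 * ((ang blk a.1 y.2.1 j : ℝ) : ℂ) * Complex.I) := by
      funext y
      simp [cC]
    rw [e]
    refine h.congr_fderiv ?_
    refine ContinuousLinearMap.ext fun u => ?_
    simp [cC, mu]
    ring
  · -- false true
    have hg : DifferentiableAt ℝ (gX false j : XSp P J → ℂ) x :=
      (contDiffAt_gX false j _ hx').differentiableAt (by simp)
    have h := ((hasFDerivAt_exp_ang blk a.1 j x (-1)).mul (hg.hasFDerivAt.pow 3)).const_mul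
      (-(1 / 2) : ℂ)
    have e : (fun y : XSp P J => cC false true (ang blk a.1 y.2.1 j)
        (gB (y.2.2.1 j) (y.2.2.2 j))) = fun y : XSp P J =>
        -(1 / 2) * (Complex.exp (-1 * ((ang blk a.1 y.2.1 j : ℝ) : ℂ) * Complex.I) *
          gX false j y ^ 3) := by
      funext y
      simp [cC, gX, gC]
      ring
    rw [e]
    refine h.congr_fderiv ?_
    have hB0 : gX false j x ≠ 0 := by
      have := gA_mul_gB _ _ hx hx'
      exact right_ne_zero_of_mul_eq_one this
    have hB : gB (x.2.2.1 j) (x.2.2.2 j) = gX false j x := by simp [gX, gC]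
    refine ContinuousLinearMap.ext fun u => ?_
    simp only [cC, mu, hB, _root_.add_apply, _root_.smul_apply,
      smul_eq_mul]
    simp
    field_simp
    ring
  · -- true false
    have hg : DifferentiableAt ℝ (gX false j : XSp P J → ℂ) x :=
      (contDiffAt_gX false j _ hx).differentiableAt (by simp)
    have hB0 : gX false j x ≠ 0 := by
      have := gA_mul_gB _ _ hx' hx
      exact right_ne_zero_of_mul_eq_one this
    have hB : gB (x.2.2.1 j) (x.2.2.2 j) = gX false j x := by simp [gX, gC]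
    have h := ((hasFDerivAt_exp_ang blk a.1 j x 2).mul
      ((hasFDerivAt_inv' (𝕜 := ℝ) (pow_ne_zero 3 hB0)).comp x
        (hg.hasFDerivAt.pow 3))).const_mul (-2 : ℂ)
    have e : (fun y : XSp P J => cC true false (ang blk a.1 y.2.1 j)
        (gB (y.2.2.1 j) (y.2.2.2 j))) = fun y : XSp P J =>
        -2 * (Complex.exp (2 * ((ang blk a.1 y.2.1 j : ℝ) : ℂ) * Complex.I) *
          (gX false j y ^ 3)⁻¹) := by
      funext y
      simp [cC, gX, gC]
      ring
    rw [e]
    refine h.congr_fderiv ?_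
    refine ContinuousLinearMap.ext fun u => ?_
    simp only [cC, mu, hB, _root_.add_apply, _root_.smul_apply,
      smul_eq_mul]
    simp
    field_simp
    ring
  · -- true true
    have h := hasFDerivAt_exp_ang blk a.1 j x 2
    have e : (fun y : XSp P J => cC true true (ang blk a.1 y.2.1 j)
        (gB (y.2.2.1 j) (y.2.2.2 j))) = fun y : XSp P J =>
        Complex.exp (2 * ((ang blk a.1 y.2.1 j : ℝ) : ℂ) * Complex.I) := by
      funext y
      simp [cC]
    rw [e]
    refine h.congr_fderiv ?_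
    refine ContinuousLinearMap.ext fun u => ?_
    simp [cC, mu]
    ring

theorem mu_wX (b b' : Bool) (a : LSp P) (j : J) (x : XSp P J)
    (hx : chartDom b' (x.2.2.1 j) (x.2.2.2 j)) (hx' : chartDom b (x.2.2.1 j) (x.2.2.2 j)) :
    (mu b' : ℂ) * wX b' j x * cC b b' (ang blk a.1 x.2.1 j) (gB (x.2.2.1 j) (x.2.2.2 j)) =
      (mu b : ℂ) * wX b j (actX blk a x) := by
  rw [wX_act]
  cases b <;> cases b'
  · simp [mu, wX, wC, cC]
    ring
  · have h := gA_mul_gB _ _ hx hx'
    simp only [mu, wX, wC, cC]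
    simp
    linear_combination (Complex.exp (-(((ang blk a.1 x.2.1 j : ℝ) : ℂ) * Complex.I)) *
      gB (x.2.2.1 j) (x.2.2.2 j) * (gA (x.2.2.1 j) (x.2.2.2 j) * gB (x.2.2.1 j) (x.2.2.2 j)
        + 1)) * h
  · have h := gA_mul_gB _ _ hx' hx
    have hB0 := right_ne_zero_of_mul_eq_one h
    simp only [mu, wX, wC, cC]
    simp
    field_simp
    linear_combination (-(gA (x.2.2.1 j) (x.2.2.2 j) * gB (x.2.2.1 j) (x.2.2.2 j) + 1)) * h
  · simp [mu, wX, wC, cC]
    ring

theorem alphaX_transf (b b' : Bool) (a : LSp P) (j : J) (x : XSp P J)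
    (hx : chartDom b' (x.2.2.1 j) (x.2.2.2 j)) (hx' : chartDom b (x.2.2.1 j) (x.2.2.2 j))
    (u : XSp P J) :
    alphaX blk b j (actX blk a x) (fderiv ℝ (actX blk a) x u) *
        cC b b' (ang blk a.1 x.2.1 j) (gB (x.2.2.1 j) (x.2.2.2 j)) =
      cC b b' (ang blk a.1 x.2.1 j) (gB (x.2.2.1 j) (x.2.2.2 j)) * alphaX blk b' j x u -
        fderiv ℝ (fun y : XSp P J =>
          cC b b' (ang blk a.1 y.2.1 j) (gB (y.2.2.1 j) (y.2.2.2 j))) x u := by
  rw [(hasFDerivAt_cC blk b b' a j x hx hx').fderiv, alphaX_same blk b a j x hx' u]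
  simp only [_root_.add_apply, _root_.smul_apply, smul_eq_mul]
  cases b <;> cases b'
  · simp
    ring
  · rw [alphaX_change blk j x hx hx' u]
    simp
    ring
  · rw [alphaX_change blk j x hx' hx u]
    simp
    ring
  · simp
    ring

end

end Pool.Agent.HaefligerClasses
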