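import Pool.Agent.HaefligerClasses.Transport

/-! # Combinatorics and linear algebra: choice of the model -/

namespace Pool.Agent.HaefligerClasses

open Filter Topology MeasureTheory
open scoped ContDiff

/-- the rotation in the plane `2j, 2j+1` -/
private noncomputable def rotE (q : ℕ) (j : Fin (q / 2)) : (Fin q → ℝ) →L[ℝ] (Fin q → ℝ) :=
  torusElement q (Pi.single j 1)

private theorem torusElement_eq_sum (q : ℕ) (x : Fin (q / 2) → ℝ) :
    torusElement q x = ∑ j, x j • rotE q j := by
  ext v i
  simp only [rotE, torusElement, _root_.sum_apply, _root_.smul_apply,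
    LinearMap.coe_toContinuousLinearMap', Matrix.toLin'_apply, Matrix.mulVec, dotProduct,
    Finset.sum_apply, Pi.smul_apply, smul_eq_mul, Finset.mul_sum]
  rw [Finset.sum_comm]
  refine Finset.sum_congr rfl fun c _ => ?_
  simp only [torusMatrix, Matrix.of_apply]
  split_ifs with h1 h2
  · rw [Finset.sum_eq_single ⟨c.1 / 2, by omega⟩]
    · simp
    · intro b _ hb
      simp [Ne.symm hb]
    · simp
  · rw [Finset.sum_eq_single ⟨i.1 / 2, by omega⟩]
    · simp
    · intro b _ hb
      simp [Ne.symm hb]
    · simp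
  · simp

private theorem rotE_apply (q : ℕ) (j : Fin (q / 2)) (v : Fin q → ℝ) (i : Fin q) :
    rotE q j v i = if i.1 = 2 * j.1 + 1 then v ⟨2 * j.1, by omega⟩ else
      if i.1 = 2 * j.1 then - v ⟨2 * j.1 + 1, by omega⟩ else 0 := by
  simp only [rotE, torusElement, LinearMap.coe_toContinuousLinearMap', Matrix.toLin'_apply,
    Matrix.mulVec, dotProduct]
  split_ifs with h1 h2
  · rw [Finset.sum_eq_single ⟨2 * j.1, by omega⟩]
    · simp only [torusMatrix, Matrix.of_apply]
      rw [dif_pos ⟨by omega, by simpa using h1⟩]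
      rw [Pi.single_apply, if_pos (by ext; simp), one_mul]
    · intro c _ hc
      simp only [torusMatrix, Matrix.of_apply]
      rw [dif_neg (by
        rintro ⟨_, h3⟩
        exact hc (by ext; simp; omega))]
      split_ifs with h4
      · rw [Pi.single_apply, if_neg (by intro h5; rw [Fin.ext_iff] at h5; simp at h5; omega)]
        simp
      · simp
    · simp
  · rw [Finset.sum_eq_single ⟨2 * j.1 + 1, by omega⟩]
    · simp only [torusMatrix, Matrix.of_apply]
      rw [dif_neg (by omega), dif_pos ⟨by omega, by simp; omega⟩]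
      rw [Pi.single_apply, if_pos (by ext; simp; omega)]
      simp
    · intro c _ hc
      simp only [torusMatrix, Matrix.of_apply]
      rw [dif_neg (by omega)]
      rw [dif_neg (by
        rintro ⟨_, h3⟩
        exact hc (by ext; simp; omega))]
      simp
    · simp
  · refine Finset.sum_eq_zero fun c _ => ?_
    simp only [torusMatrix, Matrix.of_apply]
    split_ifs with h3 h4
    · rw [Pi.single_apply, if_neg (by intro h5; rw [Fin.ext_iff] at h5; simp at h5; omega)]
      simp
    · rw [Pi.single_apply, if_neg (by intro h5; rw [Fin.ext_iff] at h5; simp at h5; omega)]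
      simp
    · simp

/-! ### every plane occurs an even number of times -/

/-- the reflection in the coordinate `2j` -/
private noncomputable def reflE (q : ℕ) (j : Fin (q / 2)) : (Fin q → ℝ) ≃L[ℝ] (Fin q → ℝ) :=
  ContinuousLinearEquiv.piCongrRight (fun i : Fin q =>
    if i.1 = 2 * j.1 then ContinuousLinearEquiv.neg ℝ else ContinuousLinearEquiv.refl ℝ ℝ)

private theorem reflE_apply (q : ℕ) (j : Fin (q / 2)) (v : Fin q → ℝ) (i : Fin q) :
    reflE q j v i = if i.1 = 2 * j.1 then - v i else v i := by
  simp only [reflE, ContinuousLinearEquiv.piCongrRight_apply]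
  split_ifs <;> simp

private theorem reflE_symm_apply (q : ℕ) (j : Fin (q / 2)) (v : Fin q → ℝ) (i : Fin q) :
    (reflE q j).symm v i = if i.1 = 2 * j.1 then - v i else v i := by
  have h : (reflE q j).symm v = reflE q j v := by
    rw [ContinuousLinearEquiv.symm_apply_eq]
    ext i
    rw [reflE_apply, reflE_apply]
    split_ifs <;> simp
  rw [h, reflE_apply]

private theorem reflE_conj (q : ℕ) (j k : Fin (q / 2)) :
    (reflE q j : (Fin q → ℝ) →L[ℝ] (Fin q → ℝ)) ∘L rotE q k ∘L
      ((reflE q j).symm : (Fin q → ℝ) →L[ℝ] (Fin q → ℝ)) =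
    (if k = j then (-1 : ℝ) else 1) • rotE q k := by
  refine ContinuousLinearMap.ext fun v => funext fun i => ?_
  simp only [ContinuousLinearMap.comp_apply, ContinuousLinearEquiv.coe_coe, reflE_apply,
    rotE_apply, reflE_symm_apply, _root_.smul_apply, Pi.smul_apply, smul_eq_mul]
  by_cases hkj : k = j
  · subst hkj
    by_cases h1 : i.1 = 2 * k.1
    · have h2 : ¬ i.1 = 2 * k.1 + 1 := by omega
      simp [h1]
    · by_cases h2 : i.1 = 2 * k.1 + 1
      · simp [h2]
      · simp [h1, h2]
  · have hkj' : k.1 ≠ j.1 := fun h => hkj (Fin.ext h)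
    by_cases h1 : i.1 = 2 * k.1
    · have h2 : ¬ i.1 = 2 * j.1 := by omega
      have h3 : ¬ 2 * k.1 + 1 = 2 * j.1 := by omega
      have h4 : ¬ i.1 = 2 * k.1 + 1 := by omega
      simp [h1, hkj, hkj', h3]
    · by_cases h2 : i.1 = 2 * k.1 + 1
      · have h3 : ¬ 2 * k.1 + 1 = 2 * j.1 := by omega
        simp [h2, hkj, hkj', h3]
      · simp [h1, h2, hkj]

private theorem even_card {q d : ℕ} (F : InvariantForm (Fin q → ℝ) d) (r : Fin d → Fin (q / 2))
    (hr : F.toFun (fun s => rotE q (r s)) ≠ 0) (j : Fin (q / 2)) :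
    Even (Finset.univ.filter fun s => r s = j).card := by
  have h1 := F.conj (reflE q j) (fun s => rotE q (r s))
  simp only [reflE_conj] at h1
  rw [MultilinearMap.map_smul_univ, smul_eq_mul] at h1
  have h2 : (∏ s, if r s = j then (-1 : ℝ) else 1) = 1 := by
    have := mul_right_cancel₀ hr (h1.trans (one_mul _).symm)
    exact this
  rw [Finset.prod_ite, Finset.prod_const, Finset.prod_const_one, mul_one] at h2
  by_contra hodd
  rw [Nat.not_even_iff_odd] at hodd
  rw [hodd.neg_one_pow] at h2
  norm_num at h2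

private theorem two_mul_card {q d : ℕ} (F : InvariantForm (Fin q → ℝ) d)
    (r : Fin d → Fin (q / 2)) (hr : F.toFun (fun s => rotE q (r s)) ≠ 0) :
    2 * (Finset.univ.image r).card ≤ d := by
  have h1 := Finset.card_eq_sum_card_image r (Finset.univ : Finset (Fin d))
  rw [Finset.card_univ, Fintype.card_fin] at h1
  refine le_trans ?_ h1.ge
  rw [mul_comm, ← smul_eq_mul, ← Finset.sum_const]
  refine Finset.sum_le_sum fun j hj => ?_
  obtain ⟨s, _, hs⟩ := Finset.mem_image.1 hj
  have h2 := even_card F r hr j
  have h3 : 0 < (Finset.univ.filter fun s => r s = j).card :=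
    Finset.card_pos.2 ⟨s, by simpa using hs⟩
  obtain ⟨m, hm⟩ := h2
  omega

/-! ### expansion -/

private theorem exists_planes {q e : ℕ} (F : InvariantForm (Fin q → ℝ) (e + 1))
    (x : Fin (q / 2) → ℝ) (hx : F.toFun (fun _ => torusElement q x) ≠ 0) :
    ∃ r : Fin (e + 1) → Fin (q / 2), F.toFun (fun s => rotE q (r s)) ≠ 0 ∧ ∀ s, x (r s) ≠ 0 := by
  have h1 : F.toFun (fun _ => torusElement q x) =
      ∑ r : Fin (e + 1) → Fin (q / 2), F.toFun (fun s => x (r s) • rotE q (r s)) := by
    rw [torusElement_eq_sum]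
    exact F.toFun.map_sum (fun _ j => x j • rotE q j)
  rw [h1] at hx
  obtain ⟨r, _, hr⟩ := Finset.exists_ne_zero_of_sum_ne_zero hx
  rw [MultilinearMap.map_smul_univ, smul_eq_mul] at hr
  refine ⟨r, right_ne_zero_of_mul hr, fun s => ?_⟩
  have := left_ne_zero_of_mul hr
  rw [Finset.prod_ne_zero_iff] at this
  exact this s (Finset.mem_univ _)

/-! ### the linear isomorphism -/

section

variable {q : ℕ} (S : Finset (Fin (q / 2))) {P K : Type} [Fintype P] [Fintype K]

/-- index is in one of the planes of `S` -/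
private def inPl (i : Fin q) : Prop := ∃ h : i.1 / 2 < q / 2, (⟨i.1 / 2, h⟩ : Fin (q / 2)) ∈ S

private noncomputable def linE (θ : {i : Fin q // ¬ inPl S i} ≃ P ⊕ K) :
    QSp P S K ≃ₗ[ℝ] (Fin q → ℝ) := by
  classical
  exact
  { toFun := fun u i => if h : inPl S i then
        (if i.1 % 2 = 0 then (u.2.1 ⟨_, h.2⟩).re else (u.2.1 ⟨_, h.2⟩).im)
      else Sum.elim u.1 u.2.2 (θ ⟨i, h⟩)
    map_add' := by
      intro u u'
      ext i
      by_cases h : inPl S i
      · simp only [dif_pos h, Pi.add_apply]
        split_ifs <;> simp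
      · simp only [dif_neg h, Pi.add_apply]
        rcases θ ⟨i, h⟩ with p | k <;> simp
    map_smul' := by
      intro c u
      ext i
      by_cases h : inPl S i
      · simp only [dif_pos h, Pi.smul_apply]
        split_ifs <;> simp
      · simp only [dif_neg h, Pi.smul_apply]
        rcases θ ⟨i, h⟩ with p | k <;> simp
    invFun := fun v => (fun p => v (θ.symm (Sum.inl p)).1,
      fun j => ⟨v ⟨2 * j.1.1, by have := j.1.2; omega⟩, v ⟨2 * j.1.1 + 1, by
        have := j.1.2; omega⟩⟩, fun k => v (θ.symm (Sum.inr k)).1)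
    left_inv := by
      rintro ⟨z, w, s⟩
      refine Prod.ext ?_ (Prod.ext ?_ ?_)
      · funext p
        have h := (θ.symm (Sum.inl p)).2
        simp only [dif_neg h]
        simp
      · funext j
        have h1 : inPl S ⟨2 * j.1.1, by have := j.1.2; omega⟩ := by
          have h2 : (⟨2 * j.1.1 / 2, by have := j.1.2; omega⟩ : Fin (q / 2)) = j.1 := by
            ext; simp
          exact ⟨by have := j.1.2; simp, by simp⟩
        have h1' : inPl S ⟨2 * j.1.1 + 1, by have := j.1.2; omega⟩ := by
          have h2 : (⟨(2 * j.1.1 + 1) / 2, by have := j.1.2; omega⟩ : Fin (q / 2)) = j.1 := by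
            ext; simp; omega
          exact ⟨by have := j.1.2; simp; omega, by rw [h2]; exact j.2⟩
        simp only [dif_pos h1, dif_pos h1']
        rw [if_pos (by omega), if_neg (by omega)]
        have e1 : (⟨⟨2 * j.1.1 / 2, h1.1⟩, h1.2⟩ : S) = j := by
          ext; simp
        have e2 : (⟨⟨(2 * j.1.1 + 1) / 2, h1'.1⟩, h1'.2⟩ : S) = j := by
          ext; simp; omega
        simp only [e1, e2]
      · funext k
        have h := (θ.symm (Sum.inr k)).2
        simp only [dif_neg h]
        simp
    right_inv := by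
      intro v
      funext i
      by_cases h : inPl S i
      · simp only [dif_pos h]
        split_ifs with h2
        · congr 1
          ext
          simp
          omega
        · congr 1
          ext
          simp
          omega
      · simp only [dif_neg h]
        rcases h3 : θ ⟨i, h⟩ with p | k
        · simp only [Sum.elim_inl]
          rw [← h3]
          simp
        · simp only [Sum.elim_inr]
          rw [← h3]
          simp }

private theorem rotJ_apply {P J K : Type} [Fintype P] [Fintype J] [Fintype K] [DecidableEq J]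
    (j : J) (u : QSp P J K) : rotJ P K j u = (0, Pi.single j (Complex.I * u.2.1 j), 0) := by
  simp [rotJ, B1, injJ, projJ]

private theorem linE_rotJ (θ : {i : Fin q // ¬ inPl S i} ≃ P ⊕ K) [DecidableEq S] (j : S)
    (u : QSp P S K) : linE S θ (rotJ P K j u) = rotE q j.1 (linE S θ u) := by
  classical
  have happ : ∀ (u : QSp P S K) (i : Fin q), linE S θ u i = if h : inPl S i then
        (if i.1 % 2 = 0 then (u.2.1 ⟨_, h.2⟩).re else (u.2.1 ⟨_, h.2⟩).im)
      else Sum.elim u.1 u.2.2 (θ ⟨i, h⟩) := fun u i => rfl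
  have hj := j.1.2
  have hpl : ∀ i : Fin q, (i.1 / 2 = j.1.1) → inPl S i := by
    intro i hi
    have h2 : i.1 / 2 < q / 2 := by omega
    have h3 : (⟨i.1 / 2, h2⟩ : Fin (q / 2)) = j.1 := Fin.ext hi
    exact ⟨h2, by rw [h3]; exact j.2⟩
  have hval : ∀ (i : Fin q) (h : inPl S i), i.1 / 2 = j.1.1 → (⟨⟨i.1 / 2, h.1⟩, h.2⟩ : S) = j :=
    fun i h hi => Subtype.ext (Fin.ext hi)
  funext i
  rw [rotE_apply, rotJ_apply, happ]
  by_cases h1 : i.1 = 2 * j.1.1 + 1
  · have hi : inPl S i := hpl i (by omega)
    have hi' : inPl S ⟨2 * j.1.1, by omega⟩ := hpl _ (by simp)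
    rw [if_pos h1, dif_pos hi, happ, dif_pos hi', if_neg (by omega), if_pos (by simp),
      hval i hi (by omega), hval _ hi' (by simp)]
    simp
  · by_cases h2 : i.1 = 2 * j.1.1
    · have hi : inPl S i := hpl i (by omega)
      have hi' : inPl S ⟨2 * j.1.1 + 1, by omega⟩ := hpl _ (by simp; omega)
      rw [if_neg h1, if_pos h2, dif_pos hi, happ, dif_pos hi', if_pos (by omega),
        if_neg (by simp), hval i hi (by omega), hval _ hi' (by simp; omega)]
      simp
    · rw [if_neg h1, if_neg h2]
      by_cases hi : inPl S i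
      · rw [dif_pos hi]
        have hne : (⟨⟨i.1 / 2, hi.1⟩, hi.2⟩ : S) ≠ j := by
          intro h3
          have h4 : i.1 / 2 = j.1.1 := congrArg (fun y : S => y.1.1) h3
          omega
        simp [hne]
      · rw [dif_neg hi]
        rcases θ ⟨i, hi⟩ with p | k <;> simp

end

theorem exists_model (q e : ℕ) (F : InvariantForm (Fin q → ℝ) (e + 1)) (x : Fin (q / 2) → ℝ)
    (hx : F.toFun (fun _ => torusElement q x) ≠ 0)
    (h : 3 * (e + 1) ≤ 2 * q ∨ (Finset.univ.filter fun j => x j ≠ 0).card + (e + 1) ≤ q) :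
    ∃ (P J K : Type) (_ : Fintype P) (_ : Fintype J) (_ : Fintype K) (_ : DecidableEq P)
      (_ : DecidableEq J) (blk : P → J) (slot : Fin (e + 1) ≃ P ⊕ J)
      (L : QSp P J K ≃L[ℝ] (Fin q → ℝ)),
      (F.map L).toFun (fun s => rotJ P K (Sum.elim blk id (slot s))) ≠ 0 := by
  classical
  obtain ⟨r, hr, hxr⟩ := exists_planes F x hx
  set S : Finset (Fin (q / 2)) := Finset.univ.image r with hS
  have hcard : S.card + (e + 1) ≤ q := by
    rcases h with h | h
    · have h2 : 2 * S.card ≤ e + 1 := two_mul_card F r hr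
      omega
    · have h2 : S ⊆ Finset.univ.filter fun j => x j ≠ 0 := by
        intro j hj
        obtain ⟨s, _, rfl⟩ := Finset.mem_image.1 hj
        simpa using hxr s
      have := Finset.card_le_card h2
      omega
  have hrS : ∀ s, r s ∈ S := fun s => Finset.mem_image_of_mem r (Finset.mem_univ s)
  -- representatives
  have hrep : ∀ j : S, ∃ s, r s = j.1 := by
    intro j
    obtain ⟨s, _, hs⟩ := Finset.mem_image.1 j.2
    exact ⟨s, hs⟩
  choose rep hrep using hrep
  have hrepinj : Function.Injective rep := by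
    intro j j' hjj
    apply Subtype.ext
    rw [← hrep j, ← hrep j', hjj]
  -- the slots
  have hbij : Function.Bijective (Sum.elim (Subtype.val : {s : Fin (e + 1) // s ∉ Set.range rep} →
      Fin (e + 1)) rep) := by
    constructor
    · apply Function.Injective.sumElim Subtype.val_injective hrepinj
      intro p j hpj
      exact p.2 ⟨j, hpj.symm⟩
    · intro s
      by_cases hs : s ∈ Set.range rep
      · obtain ⟨j, hj⟩ := hs
        exact ⟨Sum.inr j, hj⟩
      · exact ⟨Sum.inl ⟨s, hs⟩, rfl⟩
  set slot' := Equiv.ofBijective _ hbij with hslot'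
  have hcardP : Fintype.card {s : Fin (e + 1) // s ∉ Set.range rep} + S.card = e + 1 := by
    have := Fintype.card_congr slot'
    rw [Fintype.card_sum, Fintype.card_fin, Fintype.card_coe] at this
    exact this
  -- the other coordinates
  have hR1 : Fintype.card {i : Fin q // inPl S i} ≤ 2 * S.card := by
    have hinj : Function.Injective (fun i : {i : Fin q // inPl S i} =>
        ((⟨⟨i.1.1 / 2, i.2.1⟩, i.2.2⟩ : S), (⟨i.1.1 % 2, by omega⟩ : Fin 2))) := by
      intro i i' hii
      simp only [Prod.mk.injEq, Subtype.mk.injEq, Fin.mk.injEq] at hii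
      apply Subtype.ext
      apply Fin.ext
      omega
    have := Fintype.card_le_of_injective _ hinj
    rw [Fintype.card_prod, Fintype.card_coe, Fintype.card_fin] at this
    omega
  have hR2 : Fintype.card {i : Fin q // inPl S i} + Fintype.card {i : Fin q // ¬ inPl S i} = q := by
    have := Fintype.card_subtype_compl (fun i : Fin q => inPl S i)
    have h3 := Fintype.card_subtype_le (fun i : Fin q => inPl S i)
    rw [Fintype.card_fin] at this h3
    omega
  have hle : Fintype.card {s : Fin (e + 1) // s ∉ Set.range rep} ≤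
      Fintype.card {i : Fin q // ¬ inPl S i} := by omega
  obtain ⟨f⟩ := Function.Embedding.nonempty_of_card_le hle
  have hbij2 : Function.Bijective (Sum.elim (f : _ → {i : Fin q // ¬ inPl S i})
      (Subtype.val : {i : {i : Fin q // ¬ inPl S i} // i ∉ Set.range f} → _)) := by
    constructor
    · apply Function.Injective.sumElim f.injective Subtype.val_injective
      intro p j hpj
      exact j.2 ⟨p, hpj⟩
    · intro s
      by_cases hs : s ∈ Set.range f
      · obtain ⟨j, hj⟩ := hs
        exact ⟨Sum.inl j, hj⟩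
      · exact ⟨Sum.inr ⟨s, hs⟩, rfl⟩
  set θ := (Equiv.ofBijective _ hbij2).symm with hθ
  refine ⟨{s : Fin (e + 1) // s ∉ Set.range rep}, S,
    {i : {i : Fin q // ¬ inPl S i} // i ∉ Set.range f}, inferInstance, inferInstance,
    inferInstance, inferInstance, inferInstance, fun p => ⟨r p.1, hrS p.1⟩, slot'.symm,
    (linE S θ).toContinuousLinearEquiv, ?_⟩
  have key : ∀ s, (Sum.elim (fun p : {s : Fin (e + 1) // s ∉ Set.range rep} =>
      (⟨r p.1, hrS p.1⟩ : S)) id (slot'.symm s)).1 = r s := by
    intro s
    obtain ⟨t, rfl⟩ := slot'.surjective s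
    rw [Equiv.symm_apply_apply]
    rcases t with p | j
    · rfl
    · exact (hrep j).symm
  intro h0
  apply hr
  rw [← h0]
  change _ = F.toFun _
  congr 1
  funext s
  refine ContinuousLinearMap.ext fun v => ?_
  change _ = linE S θ (rotJ _ _ _ ((linE S θ).symm v))
  rw [linE_rotJ, LinearEquiv.apply_symm_apply, key]

end Pool.Agent.HaefligerClasses
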