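import Pool.Agent.HaefligerClasses.Form

/-!
# The curvature of the connection
-/

namespace Pool.Agent.HaefligerClasses

open Filter Topology
open scoped ContDiff

set_option linter.unusedSectionVars false

section

variable {P J K : Type} [Fintype P] [Fintype J] [Fintype K] [DecidableEq P] [DecidableEq J]
  (blk : P → J)

/-- the `j`-th sphere coordinates -/
noncomputable def sphJ (P : Type) [Fintype P] (j : J) : XSp P J →L[ℝ] ℂ × ℝ :=
  ((ContinuousLinearMap.proj j) ∘L (ContinuousLinearMap.fst ℝ (J → ℂ) (J → ℝ)) ∘L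
    (ContinuousLinearMap.snd ℝ (P → ℝ) ((J → ℂ) × (J → ℝ))) ∘L
    (ContinuousLinearMap.snd ℝ (P → ℝ) ((P → ℝ) × (J → ℂ) × (J → ℝ)))).prod
  ((ContinuousLinearMap.proj j) ∘L (ContinuousLinearMap.snd ℝ (J → ℂ) (J → ℝ)) ∘L
    (ContinuousLinearMap.snd ℝ (P → ℝ) ((J → ℂ) × (J → ℝ))) ∘L
    (ContinuousLinearMap.snd ℝ (P → ℝ) ((P → ℝ) × (J → ℂ) × (J → ℝ))))

theorem contDiffAt_formX (ε : J → Bool) (x : XSp P J) (hx : x ∈ domX ε) :
    ContDiffAt ℝ ∞ (formX blk K ε) x := by
  unfold formX
  refine ContDiffAt.add (ContDiffAt.sum fun j _ => ?_) (ContDiffAt.sum fun p _ => ?_)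
  · exact contDiffAt_const.clm_comp (contDiffAt_alphaX blk (ε j) j x (hx j))
  · exact contDiffAt_const.clm_comp (contDiffAt_betaX blk (ε (blk p)) p x (hx (blk p)))

theorem formX_apply (ε : J → Bool) (x u : XSp P J) :
    formX blk K ε x u = blk12 blk K (fun j => alphaX blk (ε j) j x u)
      (fun p => betaX blk (ε (blk p)) p x u) := by
  simp [formX, blk12]

/-- evaluation of the derivative of a form on a constant vector -/
theorem fderiv_apply_const {E F : Type} [NormedAddCommGroup E] [NormedSpace ℝ E]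
    [NormedAddCommGroup F] [NormedSpace ℝ F] (α : E → E →L[ℝ] F) (x u w : E)
    (h : DifferentiableAt ℝ α x) : fderiv ℝ (fun y => α y w) x u = fderiv ℝ α x u w := by
  have h1 := h.hasFDerivAt.clm_apply (hasFDerivAt_const w x)
  rw [h1.fderiv]
  simp

theorem fderiv_formX (ε : J → Bool) (x u w : XSp P J) (hx : x ∈ domX ε) :
    fderiv ℝ (formX blk K ε) x u w =
      blk12 blk K (fun j => fderiv ℝ (alphaX blk (ε j) j) x u w)
        (fun p => fderiv ℝ (betaX blk (ε (blk p)) p) x u w) := by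
  have hf : DifferentiableAt ℝ (formX blk K ε) x :=
    (contDiffAt_formX blk ε x hx).differentiableAt (by simp)
  have ha : ∀ j, DifferentiableAt ℝ (alphaX blk (ε j) j) x := fun j =>
    (contDiffAt_alphaX blk (ε j) j x (hx j)).differentiableAt (by simp)
  have hb : ∀ p, DifferentiableAt ℝ (betaX blk (ε (blk p)) p) x := fun p =>
    (contDiffAt_betaX blk (ε (blk p)) p x (hx (blk p))).differentiableAt (by simp)
  have ha' : ∀ j, DifferentiableAt ℝ (fun y => alphaX blk (ε j) j y w) x := fun j =>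
    (ha j).clm_apply (differentiableAt_const w)
  have hb' : ∀ p, DifferentiableAt ℝ (fun y => betaX blk (ε (blk p)) p y w) x := fun p =>
    (hb p).clm_apply (differentiableAt_const w)
  rw [← fderiv_apply_const _ _ _ _ hf]
  have h1 : (fun y => formX blk K ε y w) = fun y =>
      (∑ j, B1 P K j (alphaX blk (ε j) j y w)) + ∑ p, B2 blk K p (betaX blk (ε (blk p)) p y w) := by
    funext y
    rw [formX_apply]
    rfl
  have h2 : HasFDerivAt (fun y =>
      (∑ j, B1 P K j (alphaX blk (ε j) j y w)) + ∑ p, B2 blk K p (betaX blk (ε (blk p)) p y w))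
      ((∑ j, B1 P K j ∘L fderiv ℝ (fun y => alphaX blk (ε j) j y w) x) +
        ∑ p, B2 blk K p ∘L fderiv ℝ (fun y => betaX blk (ε (blk p)) p y w) x) x := by
    refine HasFDerivAt.add (HasFDerivAt.fun_sum fun j _ => ?_) (HasFDerivAt.fun_sum fun p _ => ?_)
    · exact (B1 P K j).hasFDerivAt.comp x (ha' j).hasFDerivAt
    · exact (B2 blk K p).hasFDerivAt.comp x (hb' p).hasFDerivAt
  rw [h1, h2.fderiv]
  simp only [_root_.add_apply, _root_.sum_apply, ContinuousLinearMap.comp_apply, blk12]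
  congr 1
  · refine Finset.sum_congr rfl fun j _ => ?_
    rw [fderiv_apply_const _ _ _ _ (ha j)]
  · refine Finset.sum_congr rfl fun p _ => ?_
    rw [fderiv_apply_const _ _ _ _ (hb p)]

/-- the potential of the off diagonal part -/
noncomputable def nX (b : Bool) (p : P) (x : XSp P J) : ℂ :=
  Complex.I * (2 * Real.pi * (mu b : ℂ)) * wX b (blk p) x * ((x.1 p : ℝ) : ℂ)

theorem contDiffAt_nX (b : Bool) (p : P) (x : XSp P J)
    (h : chartDom b (x.2.2.1 (blk p)) (x.2.2.2 (blk p))) :
    ContDiffAt ℝ ∞ (nX blk b p) x := by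
  have hw := contDiffAt_wX b (blk p) x h
  have hy : ContDiffAt ℝ ∞ (fun x : XSp P J => ((x.1 p : ℝ) : ℂ)) x :=
    (dyC J p).contDiff.contDiffAt
  unfold nX
  exact (contDiffAt_const.mul hw).mul hy

theorem betaX_eq (b : Bool) (p : P) (x : XSp P J)
    (h : chartDom b (x.2.2.1 (blk p)) (x.2.2.2 (blk p))) :
    betaX blk b p x = -(nX blk b p x) • alphaX blk b (blk p) x - fderiv ℝ (nX blk b p) x := by
  have hw := ((contDiffAt_wX b (blk p) x h).differentiableAt (by simp)).hasFDerivAt
  have hy : HasFDerivAt (fun x : XSp P J => ((x.1 p : ℝ) : ℂ)) (dyC J p) x :=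
    (dyC J p).hasFDerivAt
  have h1 := (hw.const_mul (Complex.I * (2 * Real.pi * (mu b : ℂ)))).mul hy
  have h2 : fderiv ℝ (nX blk b p) x = _ := h1.fderiv
  rw [h2, betaX, nX]
  ext v
  all_goals simp
  all_goals ring

theorem eventually_chartDom (b : Bool) (j : J) (x : XSp P J)
    (h : chartDom b (x.2.2.1 j) (x.2.2.2 j)) :
    ∀ᶠ y : XSp P J in 𝓝 x, chartDom b (y.2.2.1 j) (y.2.2.2 j) :=
  (sphJ P j).continuous.continuousAt.preimage_mem_nhds ((isOpen_chartDom b).mem_nhds h)

theorem fderiv_betaX_antisymm (b : Bool) (p : P) (x u w : XSp P J)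
    (h : chartDom b (x.2.2.1 (blk p)) (x.2.2.2 (blk p))) :
    fderiv ℝ (betaX blk b p) x u w - fderiv ℝ (betaX blk b p) x w u =
      -(fderiv ℝ (nX blk b p) x u * alphaX blk b (blk p) x w -
        fderiv ℝ (nX blk b p) x w * alphaX blk b (blk p) x u) -
      nX blk b p x * (fderiv ℝ (alphaX blk b (blk p)) x u w -
        fderiv ℝ (alphaX blk b (blk p)) x w u) := by
  have hev : betaX blk b p =ᶠ[𝓝 x]
      fun y => -(nX blk b p y) • alphaX blk b (blk p) y - fderiv ℝ (nX blk b p) y := by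
    filter_upwards [eventually_chartDom b (blk p) x h] with y hy
    exact betaX_eq blk b p y hy
  have hn := contDiffAt_nX blk b p x h
  have hnd : HasFDerivAt (nX blk b p) (fderiv ℝ (nX blk b p) x) x :=
    (hn.differentiableAt (by simp)).hasFDerivAt
  have ha : HasFDerivAt (alphaX blk b (blk p)) (fderiv ℝ (alphaX blk b (blk p)) x) x :=
    ((contDiffAt_alphaX blk b (blk p) x h).differentiableAt (by simp)).hasFDerivAt
  have hdn' : ContDiffAt ℝ ∞ (fderiv ℝ (nX blk b p)) x := hn.fderiv_right (by simp)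
  have hdn : HasFDerivAt (fderiv ℝ (nX blk b p)) (fderiv ℝ (fderiv ℝ (nX blk b p)) x) x :=
    (hdn'.differentiableAt (by simp)).hasFDerivAt
  have h1 := (hnd.neg.smul ha).sub hdn
  have h2 : fderiv ℝ (betaX blk b p) x = _ := hev.fderiv_eq.trans h1.fderiv
  have hsym : IsSymmSndFDerivAt ℝ (nX blk b p) x := hn.isSymmSndFDerivAt (by
    simp only [minSmoothness_of_isRCLikeNormedField]
    have h2 : ((2 : ℕ∞) : WithTop ℕ∞) ≤ ((⊤ : ℕ∞) : WithTop ℕ∞) := WithTop.coe_le_coe.2 le_top
    exact h2)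
  have hs := hsym u w
  rw [h2]
  simp only [_root_.sub_apply, _root_.add_apply, _root_.smul_apply, _root_.neg_apply, Pi.neg_apply,
    ContinuousLinearMap.smulRight_apply, smul_eq_mul, hs]
  ring

/-- The curvature in the chart `ε`. -/
theorem curvature_formX (ε : J → Bool) (x u w : XSp P J) (hx : x ∈ domX ε) :
    curvature (formX blk K ε) x u w =
      blk12 blk K (fun j => fderiv ℝ (alphaX blk (ε j) j) x u w -
          fderiv ℝ (alphaX blk (ε j) j) x w u)
        (fun p => -(nX blk (ε (blk p)) p x *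
          (fderiv ℝ (alphaX blk (ε (blk p)) (blk p)) x u w -
            fderiv ℝ (alphaX blk (ε (blk p)) (blk p)) x w u))) := by
  rw [curvature, fderiv_formX blk ε x u w hx, fderiv_formX blk ε x w u hx, formX_apply,
    formX_apply, blk12_comp, blk12_comp, blk12_sub, blk12_sub, blk12_add]
  congr 1
  · funext j
    ring
  · funext p
    rw [fderiv_betaX_antisymm blk (ε (blk p)) p x u w (hx (blk p)),
      betaX_eq blk _ _ x (hx (blk p))]
    simp only [_root_.sub_apply, _root_.smul_apply, smul_eq_mul]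
    ring

end

end Pool.Agent.HaefligerClasses
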