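import Pool.Agent.HaefligerClasses.Model

/-!
# The integral over the cube
-/

namespace Pool.Agent.HaefligerClasses

open Filter Topology MeasureTheory
open scoped ContDiff

/-- the function `h` along the cube -/
noncomputable def hh (s : ℝ) : ℝ := 3 * Real.sin (Real.pi * s / 2) ^ 2

/-- its derivative -/
noncomputable def hh' (s : ℝ) : ℝ := 3 * Real.pi / 2 * Real.sin (Real.pi * s)

theorem hasDerivAt_hh (s : ℝ) : HasDerivAt hh (hh' s) s := by
  have h1 : HasDerivAt (fun s : ℝ => Real.pi * s / 2) (Real.pi / 2) s := by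
    have := ((hasDerivAt_id s).const_mul Real.pi).div_const 2
    simpa using this
  have h2 := ((h1.sin).pow 2).const_mul 3
  refine h2.congr_deriv ?_
  rw [hh']
  have h3 : Real.sin (Real.pi * s) = 2 * Real.sin (Real.pi * s / 2) * Real.cos (Real.pi * s / 2) := by
    rw [← Real.sin_two_mul]
    congr 1
    ring
  rw [h3]
  push_cast
  ring

theorem continuous_hh : Continuous hh := by
  unfold hh
  fun_prop

theorem continuous_hh' : Continuous hh' := by
  unfold hh'
  fun_prop

/-- the one dimensional integral -/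
theorem integral_hh_pos (m : ℕ) : 0 < ∫ s in (0 : ℝ)..1, (2 - hh s) ^ m * hh' s := by
  have hder : ∀ s ∈ Set.uIcc (0 : ℝ) 1,
      HasDerivAt (fun s => - (2 - hh s) ^ (m + 1) / (m + 1)) ((2 - hh s) ^ m * hh' s) s := by
    intro s _
    have h1 := (((hasDerivAt_hh s).const_sub 2).pow (m + 1)).neg.div_const ((m : ℝ) + 1)
    refine h1.congr_deriv ?_
    have : (m : ℝ) + 1 ≠ 0 := by positivity
    push_cast
    field_simp
  have hint : IntervalIntegrable (fun s => (2 - hh s) ^ m * hh' s) volume 0 1 := by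
    apply Continuous.intervalIntegrable
    exact ((continuous_const.sub continuous_hh).pow m).mul continuous_hh'
  rw [intervalIntegral.integral_eq_sub_of_hasDerivAt hder hint]
  have h0 : hh 0 = 0 := by simp [hh]
  have h1 : hh 1 = 3 := by simp [hh]
  rw [h0, h1]
  have h2 : - (2 - (3 : ℝ)) ^ (m + 1) / (m + 1) - - (2 - (0 : ℝ)) ^ (m + 1) / (m + 1)
      = ((2 : ℝ) ^ (m + 1) - (-1) ^ (m + 1)) / (m + 1) := by
    have h3 : (2 - (3 : ℝ)) = -1 := by norm_num
    rw [h3, sub_zero]
    ring
  rw [h2]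
  apply div_pos _ (by positivity)
  have h3 : (1 : ℝ) < 2 ^ (m + 1) := one_lt_pow₀ (by norm_num) (by omega)
  have h4 : (-1 : ℝ) ^ (m + 1) ≤ 1 := by
    rcases neg_one_pow_eq_or ℝ (m + 1) with h | h <;> rw [h] <;> norm_num
  linarith

section

variable {P J : Type} [Fintype P] [Fintype J] [DecidableEq P] [DecidableEq J] (blk : P → J)

/-- the factor of the integrand which depends on the coordinate `a` -/
noncomputable def factorX (a : (P ⊕ J) × Fin 2) (s : ℝ) : ℝ :=
  match a with
  | (Sum.inr j, 0) => (2 - hh s) ^ (Finset.univ.filter fun p => blk p = j).card * hh' s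
  | _ => 1

theorem integral_factorX_pos (a : (P ⊕ J) × Fin 2) :
    0 < ∫ s in Set.Icc (0 : ℝ) 1, factorX blk a s := by
  rw [integral_Icc_eq_integral_Ioc, ← intervalIntegral.integral_of_le zero_le_one]
  rcases a with ⟨p | j, i⟩
  · simp [factorX]
  · fin_cases i
    · exact integral_hh_pos _
    · simp [factorX]

theorem prod_factorX (ξ : (P ⊕ J) × Fin 2 → ℝ) :
    ∏ a, factorX blk a (ξ a) =
      (∏ p, (2 - hh (ξ (Sum.inr (blk p), 0)))) * ∏ j, hh' (ξ (Sum.inr j, 0)) := by
  rw [Fintype.prod_prod_type]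
  simp only [Fin.prod_univ_two, Fintype.prod_sum_type, factorX, mul_one, Finset.prod_const_one,
    one_mul]
  rw [Finset.prod_mul_distrib]
  congr 1
  rw [← Finset.prod_fiberwise_of_maps_to (s := (Finset.univ : Finset P)) (t := Finset.univ)
    (g := blk) (fun _ _ => Finset.mem_univ _)]
  refine Finset.prod_congr rfl fun j _ => ?_
  rw [Finset.prod_congr rfl (g := fun _ => 2 - hh (ξ (Sum.inr j, 0)))]
  · rw [Finset.prod_const]
  · intro p hp
    rw [(Finset.mem_filter.mp hp).2]

theorem integral_pos_cube {n : ℕ} (eqv : Fin n ≃ (P ⊕ J) × Fin 2) :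
    0 < ∫ ξ in Set.Icc (0 : Fin n → ℝ) 1,
      (∏ p, (2 - hh (ξ (eqv.symm (Sum.inr (blk p), 0))))) *
        ∏ j, hh' (ξ (eqv.symm (Sum.inr j, 0))) := by
  have h1 : ∀ ξ : Fin n → ℝ, (∏ p, (2 - hh (ξ (eqv.symm (Sum.inr (blk p), 0))))) *
      ∏ j, hh' (ξ (eqv.symm (Sum.inr j, 0))) = ∏ i : Fin n, factorX blk (eqv i) (ξ i) := by
    intro ξ
    have h2 := prod_factorX blk (fun a => ξ (eqv.symm a))
    rw [← h2, ← Equiv.prod_comp eqv]
    simp
  simp only [h1]
  rw [← Set.pi_univ_Icc, volume_pi, Measure.restrict_pi_pi,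
    integral_fintype_prod_eq_prod (fun i s => factorX blk (eqv i) s)]
  exact Finset.prod_pos fun i _ => integral_factorX_pos blk (eqv i)

end

end Pool.Agent.HaefligerClasses
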