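import Pool.Agent.HaefligerClasses.Curv
import Pool.Agent.HaefligerClasses.Integral

/-!
# The curvature along the cube
-/

namespace Pool.Agent.HaefligerClasses

open Filter Topology
open scoped ContDiff

set_option linter.unusedSectionVars false

/-- the radial coordinate of the chart along the cube -/
noncomputable def TT (s : ℝ) : ℝ := Real.sin (Real.pi * s) / (1 + Real.cos (Real.pi * s))

theorem one_add_cos_pos {s : ℝ} (h0 : 0 < s) (h1 : s < 1) : 0 < 1 + Real.cos (Real.pi * s) := by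
  have h2 : Real.cos Real.pi < Real.cos (Real.pi * s) := by
    apply Real.cos_lt_cos_of_nonneg_of_le_pi (by positivity) le_rfl
    have := Real.pi_pos
    nlinarith
  rw [Real.cos_pi] at h2
  linarith

theorem hasDerivAt_TT {s : ℝ} (h0 : 0 < s) (h1 : s < 1) :
    HasDerivAt TT (Real.pi / (1 + Real.cos (Real.pi * s))) s := by
  have hp := one_add_cos_pos h0 h1
  have h0 : HasDerivAt (fun s : ℝ => Real.pi * s) Real.pi s := by
    simpa using (hasDerivAt_id s).const_mul Real.pi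
  have h2 := h0.sin.div ((hasDerivAt_const s (1 : ℝ)).add h0.cos) hp.ne'
  have h3 : Real.pi / (1 + Real.cos (Real.pi * s)) =
      (Real.cos (Real.pi * s) * Real.pi * (1 + Real.cos (Real.pi * s)) -
        Real.sin (Real.pi * s) * (0 + -Real.sin (Real.pi * s) * Real.pi)) /
        (1 + Real.cos (Real.pi * s)) ^ 2 := by
    have := Real.sin_sq_add_cos_sq (Real.pi * s)
    field_simp
    linear_combination (-Real.pi) * this
  rw [h3]
  exact h2

theorem one_add_TT_sq {s : ℝ} (h0 : 0 < s) (h1 : s < 1) :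
    1 + TT s ^ 2 = 2 / (1 + Real.cos (Real.pi * s)) := by
  have hp := one_add_cos_pos h0 h1
  have := Real.sin_sq_add_cos_sq (Real.pi * s)
  rw [TT]
  field_simp
  nlinarith

theorem hh_eq {s : ℝ} (h0 : 0 < s) (h1 : s < 1) : 3 * TT s ^ 2 / (1 + TT s ^ 2) = hh s := by
  have hp := one_add_cos_pos h0 h1
  have h2 := Real.sin_sq_add_cos_sq (Real.pi * s)
  have h3 : Real.cos (Real.pi * s) = 1 - 2 * Real.sin (Real.pi * s / 2) ^ 2 := by
    have := Real.cos_sq' (Real.pi * s / 2)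
    have h4 := Real.cos_two_mul (Real.pi * s / 2)
    have h5 : 2 * (Real.pi * s / 2) = Real.pi * s := by ring
    rw [h5] at h4
    linarith
  rw [one_add_TT_sq h0 h1, TT, hh]
  have h6 : Real.sin (Real.pi * s / 2) ^ 2 = (1 - Real.cos (Real.pi * s)) / 2 := by linarith
  rw [h6]
  field_simp
  nlinarith

/-- antisymmetrised derivative of a one form in pulled back terms -/
theorem pull_antisymm {W X F : Type} [NormedAddCommGroup W] [NormedSpace ℝ W]
    [NormedAddCommGroup X] [NormedSpace ℝ X] [NormedAddCommGroup F] [NormedSpace ℝ F]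
    (c : W → X) (α : X → X →L[ℝ] F) (ξ a b : W) (hc : ContDiff ℝ ∞ c)
    (hα : DifferentiableAt ℝ α (c ξ)) :
    fderiv ℝ α (c ξ) (fderiv ℝ c ξ a) (fderiv ℝ c ξ b) -
        fderiv ℝ α (c ξ) (fderiv ℝ c ξ b) (fderiv ℝ c ξ a) =
      fderiv ℝ (fun η => α (c η) (fderiv ℝ c η b)) ξ a -
        fderiv ℝ (fun η => α (c η) (fderiv ℝ c η a)) ξ b := by
  have hcd : HasFDerivAt c (fderiv ℝ c ξ) ξ :=
    (hc.contDiffAt.differentiableAt (by simp)).hasFDerivAt
  have hcd2 : ContDiffAt ℝ ∞ (fderiv ℝ c) ξ := hc.contDiffAt.fderiv_right (by simp)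
  have hcdd : HasFDerivAt (fderiv ℝ c) (fderiv ℝ (fderiv ℝ c) ξ) ξ :=
    (hcd2.differentiableAt (by simp)).hasFDerivAt
  have h1 : HasFDerivAt (fun η => α (c η)) (fderiv ℝ α (c ξ) ∘L fderiv ℝ c ξ) ξ :=
    hα.hasFDerivAt.comp ξ hcd
  have key : ∀ b a : W, fderiv ℝ (fun η => α (c η) (fderiv ℝ c η b)) ξ a =
      fderiv ℝ α (c ξ) (fderiv ℝ c ξ a) (fderiv ℝ c ξ b) +
        α (c ξ) (fderiv ℝ (fderiv ℝ c) ξ a b) := by
    intro b a
    have h2 := h1.clm_apply (hcdd.clm_apply (hasFDerivAt_const b ξ))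
    rw [h2.fderiv]
    simp [add_comm]
  have hsym : IsSymmSndFDerivAt ℝ c ξ := hc.contDiffAt.isSymmSndFDerivAt (by
    simp only [minSmoothness_of_isRCLikeNormedField]
    have h2 : ((2 : ℕ∞) : WithTop ℕ∞) ≤ ((⊤ : ℕ∞) : WithTop ℕ∞) := WithTop.coe_le_coe.2 le_top
    exact h2)
  rw [key, key, hsym a b]
  abel

section

variable {P J K : Type} [Fintype P] [Fintype J] [Fintype K] [DecidableEq P] [DecidableEq J]
  (blk : P → J)

theorem contDiff_cubeX : ContDiff ℝ ∞ (cubeX (P := P) (J := J)) := by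
  have hc : ∀ a : (P ⊕ J) × Fin 2, ContDiff ℝ ∞ (fun ξ : (P ⊕ J) × Fin 2 → ℝ => ξ a) := fun a =>
    contDiff_apply ℝ ℝ a
  have hcc : ∀ a : (P ⊕ J) × Fin 2, ContDiff ℝ ∞ (fun ξ : (P ⊕ J) × Fin 2 → ℝ => ((ξ a : ℝ) : ℂ)) :=
    fun a => Complex.ofRealCLM.contDiff.comp (hc a)
  unfold cubeX
  refine ContDiff.prodMk (contDiff_pi.2 fun p => hc _) (ContDiff.prodMk (contDiff_pi.2 fun p => hc _)
    (ContDiff.prodMk (contDiff_pi.2 fun j => ?_) (contDiff_pi.2 fun j => ?_)))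
  · refine ContDiff.mul ?_ ?_
    · have := Complex.ofRealCLM.contDiff.comp (Real.contDiff_sin.comp
        ((contDiff_const (c := Real.pi)).mul (hc (Sum.inr j, 0))))
      simpa [Function.comp_def] using this
    · exact ContDiff.cexp (((contDiff_const.mul (hcc _))).mul contDiff_const)
  · exact (Real.contDiff_cos.comp (contDiff_const.mul (hc _))).neg

theorem gX_cube (j : J) (ξ : (P ⊕ J) × Fin 2 → ℝ) :
    gX true j (cubeX ξ : XSp P J) = (TT (ξ (Sum.inr j, 0)) : ℂ) *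
      Complex.exp (2 * Real.pi * ξ (Sum.inr j, 1) * Complex.I) := by
  have h1 : Complex.normSq (Complex.exp (2 * Real.pi * ξ (Sum.inr j, 1) * Complex.I)) = 1 := by
    have : (2 * Real.pi * ξ (Sum.inr j, 1) * Complex.I : ℂ) =
      ((2 * Real.pi * ξ (Sum.inr j, 1) : ℝ) : ℂ) * Complex.I := by push_cast; ring
    rw [this, Complex.normSq_eq_norm_sq, Complex.norm_exp_ofReal_mul_I]
    norm_num
  have h2 : rad ((Real.sin (Real.pi * ξ (Sum.inr j, 0)) : ℂ) *
      Complex.exp (2 * Real.pi * ξ (Sum.inr j, 1) * Complex.I))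
      (-Real.cos (Real.pi * ξ (Sum.inr j, 0))) = 1 := by
    rw [rad, Complex.normSq_mul, h1, Complex.normSq_ofReal]
    have := Real.sin_sq_add_cos_sq (Real.pi * ξ (Sum.inr j, 0))
    have h3 : Real.sin (Real.pi * ξ (Sum.inr j, 0)) * Real.sin (Real.pi * ξ (Sum.inr j, 0)) * 1 +
      (-Real.cos (Real.pi * ξ (Sum.inr j, 0))) ^ 2 = 1 := by nlinarith
    rw [h3, Real.sqrt_one]
  simp only [gX, gC, cubeX, if_true, gA, h2, TT]
  push_cast
  rw [sub_neg_eq_add]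
  ring

theorem chartDom_cube (j : J) (ξ : (P ⊕ J) × Fin 2 → ℝ)
    (h : 0 < ξ (Sum.inr j, 0) ∧ ξ (Sum.inr j, 0) < 1) :
    chartDom true ((cubeX ξ : XSp P J).2.2.1 j) ((cubeX ξ : XSp P J).2.2.2 j) := by
  rw [chartDom_true_iff]
  left
  have hp : 0 < Real.sin (Real.pi * ξ (Sum.inr j, 0)) := by
    apply Real.sin_pos_of_pos_of_lt_pi
    · have := Real.pi_pos
      have := h.1
      positivity
    · have := Real.pi_pos
      nlinarith [h.2]
  simp only [cubeX]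
  refine mul_ne_zero ?_ (Complex.exp_ne_zero _)
  exact_mod_cast hp.ne'

theorem cubeX_mem_domX (ξ : (P ⊕ J) × Fin 2 → ℝ)
    (h : ∀ j, 0 < ξ (Sum.inr j, 0) ∧ ξ (Sum.inr j, 0) < 1) :
    (cubeX ξ : XSp P J) ∈ domX (fun _ => true) := fun j => chartDom_cube j ξ (h j)

/-- the pulled back connection form of the line bundle, evaluated on the basis vector `b` -/
noncomputable def AA (j : J) (b : (P ⊕ J) × Fin 2) (ξ : (P ⊕ J) × Fin 2 → ℝ) : ℂ :=
  -(2 * Real.pi * Complex.I) * (((2 - hh (ξ (Sum.inr j, 0)) : ℝ) : ℂ) *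
      (∑ p, (if blk p = j ∧ b = (Sum.inl p, 1) then (1 : ℂ) else 0) *
        ((ξ (Sum.inl p, 0) : ℝ) : ℂ)))
  - (if b = (Sum.inr j, 0) then (1 : ℂ) else 0) * (3 * Real.pi / 2 *
      ((TT (ξ (Sum.inr j, 0)) : ℝ) : ℂ))
  - (if b = (Sum.inr j, 1) then (1 : ℂ) else 0) * (2 * Real.pi * Complex.I *
      ((hh (ξ (Sum.inr j, 0)) : ℝ) : ℂ))

theorem dzC_cube (p : P) (ξ : (P ⊕ J) × Fin 2 → ℝ) (b : (P ⊕ J) × Fin 2) :
    dzC J p (fderiv ℝ cubeX ξ (Pi.single b 1)) = if b = (Sum.inl p, 1) then 1 else 0 := by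
  have h1 : HasFDerivAt (fun η => dzC J p (cubeX η)) (dzC J p ∘L fderiv ℝ cubeX ξ) ξ :=
    (dzC J p).hasFDerivAt.comp ξ
      ((contDiff_cubeX.contDiffAt.differentiableAt (by simp)).hasFDerivAt)
  have h2 : HasFDerivAt (fun η : (P ⊕ J) × Fin 2 → ℝ => dzC J p (cubeX η))
      (Complex.ofRealCLM ∘L (ContinuousLinearMap.proj (R := ℝ) (φ := fun _ : (P ⊕ J) × Fin 2 => ℝ)
        (Sum.inl p, 1))) ξ :=
    (Complex.ofRealCLM ∘L (ContinuousLinearMap.proj (R := ℝ) (φ := fun _ : (P ⊕ J) × Fin 2 => ℝ)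
        (Sum.inl p, 1))).hasFDerivAt
  have h3 := congrArg (fun L => L (Pi.single b 1)) (h1.unique h2)
  simp only [ContinuousLinearMap.comp_apply] at h3
  rw [h3]
  simp only [ContinuousLinearMap.proj_apply, Pi.single_apply, Complex.ofRealCLM_apply]
  by_cases hb : b = (Sum.inl p, 1)
  · simp [hb]
  · rw [if_neg (fun h => hb h.symm), if_neg hb, Complex.ofReal_zero]

theorem fderiv_gX_cube (j : J) (ξ : (P ⊕ J) × Fin 2 → ℝ) (b : (P ⊕ J) × Fin 2)
    (h : 0 < ξ (Sum.inr j, 0) ∧ ξ (Sum.inr j, 0) < 1) :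
    fderiv ℝ (gX (P := P) true j) (cubeX ξ) (fderiv ℝ cubeX ξ (Pi.single b 1)) =
      ((if b = (Sum.inr j, 0) then
          ((Real.pi / (1 + Real.cos (Real.pi * ξ (Sum.inr j, 0))) : ℝ) : ℂ) else 0) +
        (if b = (Sum.inr j, 1) then
          2 * Real.pi * Complex.I * (TT (ξ (Sum.inr j, 0)) : ℂ) else 0)) *
      Complex.exp (2 * Real.pi * ξ (Sum.inr j, 1) * Complex.I) := by
  have hg : HasFDerivAt (gX (P := P) true j) (fderiv ℝ (gX true j) (cubeX ξ)) (cubeX ξ) :=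
    ((contDiffAt_gX true j _ (chartDom_cube j ξ h)).differentiableAt (by simp)).hasFDerivAt
  have h1 : HasFDerivAt (fun η => gX (P := P) true j (cubeX η))
      (fderiv ℝ (gX true j) (cubeX ξ) ∘L fderiv ℝ cubeX ξ) ξ :=
    hg.comp ξ ((contDiff_cubeX.contDiffAt.differentiableAt (by simp)).hasFDerivAt)
  have hp0 : HasFDerivAt (fun η : (P ⊕ J) × Fin 2 → ℝ => η (Sum.inr j, 0))
      (ContinuousLinearMap.proj (R := ℝ) (φ := fun _ : (P ⊕ J) × Fin 2 => ℝ) (Sum.inr j, 0)) ξ :=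
    (ContinuousLinearMap.proj (R := ℝ) (φ := fun _ : (P ⊕ J) × Fin 2 => ℝ)
      (Sum.inr j, 0)).hasFDerivAt
  have hp1 : HasFDerivAt (fun η : (P ⊕ J) × Fin 2 → ℝ => ((η (Sum.inr j, 1) : ℝ) : ℂ))
      (Complex.ofRealCLM ∘L (ContinuousLinearMap.proj (R := ℝ)
        (φ := fun _ : (P ⊕ J) × Fin 2 => ℝ) (Sum.inr j, 1))) ξ :=
    (Complex.ofRealCLM ∘L (ContinuousLinearMap.proj (R := ℝ)
        (φ := fun _ : (P ⊕ J) × Fin 2 => ℝ) (Sum.inr j, 1))).hasFDerivAt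
  have hT0 : HasFDerivAt (fun η : (P ⊕ J) × Fin 2 → ℝ => TT (η (Sum.inr j, 0)))
      ((Real.pi / (1 + Real.cos (Real.pi * ξ (Sum.inr j, 0)))) •
        (ContinuousLinearMap.proj (R := ℝ) (φ := fun _ : (P ⊕ J) × Fin 2 => ℝ)
          (Sum.inr j, 0))) ξ := by
    have hTd := hasDerivAt_TT h.1 h.2
    have := HasDerivAt.comp_hasFDerivAt (h₂ := TT) ξ hTd hp0
    exact this
  have hT : HasFDerivAt (fun η : (P ⊕ J) × Fin 2 → ℝ => ((TT (η (Sum.inr j, 0)) : ℝ) : ℂ))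
      (Complex.ofRealCLM ∘L ((Real.pi / (1 + Real.cos (Real.pi * ξ (Sum.inr j, 0)))) •
        (ContinuousLinearMap.proj (R := ℝ) (φ := fun _ : (P ⊕ J) × Fin 2 => ℝ)
          (Sum.inr j, 0)))) ξ :=
    (Complex.ofRealCLM.hasFDerivAt).comp ξ hT0
  have hE : HasFDerivAt (fun η : (P ⊕ J) × Fin 2 → ℝ =>
      Complex.exp (2 * Real.pi * η (Sum.inr j, 1) * Complex.I)) _ ξ :=
    ((hp1.const_mul (2 * Real.pi : ℂ)).mul_const Complex.I).cexp
  have h2 := hT.mul hE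
  have h4 : (fun η => gX (P := P) true j (cubeX η)) = fun η : (P ⊕ J) × Fin 2 → ℝ =>
      ((TT (η (Sum.inr j, 0)) : ℝ) : ℂ) *
        Complex.exp (2 * Real.pi * η (Sum.inr j, 1) * Complex.I) := by
    funext η
    exact gX_cube j η
  rw [h4] at h1
  have h3 := congrArg (fun L => L (Pi.single b 1)) (h1.unique h2)
  simp only [ContinuousLinearMap.comp_apply, _root_.add_apply, _root_.smul_apply,
    ContinuousLinearMap.proj_apply, Complex.ofRealCLM_apply, smul_eq_mul, Pi.single_apply] at h3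
  rw [h3]
  have e0 : ((Sum.inr j, 0) = b) = (b = ((Sum.inr j, 0) : (P ⊕ J) × Fin 2)) :=
    propext ⟨fun h => h.symm, fun h => h.symm⟩
  have e1 : ((Sum.inr j, 1) = b) = (b = ((Sum.inr j, 1) : (P ⊕ J) × Fin 2)) :=
    propext ⟨fun h => h.symm, fun h => h.symm⟩
  simp only [e0, e1]
  split_ifs <;> push_cast <;> ring

theorem hX_cube (j : J) (ξ : (P ⊕ J) × Fin 2 → ℝ)
    (h : 0 < ξ (Sum.inr j, 0) ∧ ξ (Sum.inr j, 0) < 1) :
    hX true j (cubeX ξ : XSp P J) = hh (ξ (Sum.inr j, 0)) ∧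
      Complex.normSq (gX true j (cubeX ξ : XSp P J)) = TT (ξ (Sum.inr j, 0)) ^ 2 := by
  have h1 : Complex.normSq (Complex.exp (2 * Real.pi * ξ (Sum.inr j, 1) * Complex.I)) = 1 := by
    have : (2 * Real.pi * ξ (Sum.inr j, 1) * Complex.I : ℂ) =
      ((2 * Real.pi * ξ (Sum.inr j, 1) : ℝ) : ℂ) * Complex.I := by push_cast; ring
    rw [this, Complex.normSq_eq_norm_sq, Complex.norm_exp_ofReal_mul_I]
    norm_num
  have h2 : Complex.normSq (gX true j (cubeX ξ : XSp P J)) = TT (ξ (Sum.inr j, 0)) ^ 2 := by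
    rw [gX_cube, Complex.normSq_mul, h1, Complex.normSq_ofReal]
    ring
  refine ⟨?_, h2⟩
  have h3 : hX true j (cubeX ξ : XSp P J) = 3 * Complex.normSq (gX true j (cubeX ξ : XSp P J)) /
      (1 + Complex.normSq (gX true j (cubeX ξ : XSp P J))) := by
    simp [hX, hC, gX, gC]
  rw [h3, h2, hh_eq h.1 h.2]

theorem alphaX_cube (j : J) (b : (P ⊕ J) × Fin 2) (ξ : (P ⊕ J) × Fin 2 → ℝ)
    (h : 0 < ξ (Sum.inr j, 0) ∧ ξ (Sum.inr j, 0) < 1) :
    alphaX blk true j (cubeX ξ) (fderiv ℝ cubeX ξ (Pi.single b 1)) = AA blk j b ξ := by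
  obtain ⟨h1, h2⟩ := hX_cube (P := P) j ξ h
  have hp := one_add_cos_pos h.1 h.2
  have hconj : (starRingEnd ℂ) (gX true j (cubeX ξ : XSp P J)) * Complex.exp (2 * Real.pi *
      ξ (Sum.inr j, 1) * Complex.I) = (TT (ξ (Sum.inr j, 0)) : ℂ) := by
    have h1 : Complex.normSq (Complex.exp (2 * Real.pi * ξ (Sum.inr j, 1) * Complex.I)) = 1 := by
      have : (2 * Real.pi * ξ (Sum.inr j, 1) * Complex.I : ℂ) =
        ((2 * Real.pi * ξ (Sum.inr j, 1) : ℝ) : ℂ) * Complex.I := by push_cast; ring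
      rw [this, Complex.normSq_eq_norm_sq, Complex.norm_exp_ofReal_mul_I]
      norm_num
    have h3 := Complex.normSq_eq_conj_mul_self (z :=
      Complex.exp (2 * Real.pi * ξ (Sum.inr j, 1) * Complex.I))
    rw [h1] at h3
    rw [gX_cube, map_mul, Complex.conj_ofReal, mul_assoc, ← h3]
    simp
  have hT1 : (1 + ((TT (ξ (Sum.inr j, 0)) : ℝ) : ℂ) ^ 2) =
      2 / (1 + Complex.cos (Real.pi * ξ (Sum.inr j, 0))) := by
    have := one_add_TT_sq h.1 h.2
    have h4 := congrArg (fun r : ℝ => (r : ℂ)) this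
    push_cast at h4
    exact h4
  have hpC : (1 + Complex.cos (Real.pi * ξ (Sum.inr j, 0))) ≠ 0 := by
    have : ((1 + Real.cos (Real.pi * ξ (Sum.inr j, 0)) : ℝ) : ℂ) ≠ 0 := by exact_mod_cast hp.ne'
    push_cast at this
    exact this
  have hhC : 3 * ((TT (ξ (Sum.inr j, 0)) : ℝ) : ℂ) ^ 2 /
      (1 + ((TT (ξ (Sum.inr j, 0)) : ℝ) : ℂ) ^ 2) = ((hh (ξ (Sum.inr j, 0)) : ℝ) : ℂ) := by
    rw [← hh_eq h.1 h.2]
    push_cast
    ring
  rw [alphaX, _root_.sub_apply, _root_.sum_apply, _root_.smul_apply, fderiv_gX_cube j ξ b h, h1, h2,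
    AA, smul_eq_mul]
  have hsum : ∑ p, (if blk p = j then (-(2 * Real.pi * Complex.I) *
      ((2 - hh (ξ (Sum.inr j, 0)) : ℝ) : ℂ) * ((((cubeX ξ : XSp P J).1 p) : ℝ) : ℂ)) • dzC J p
      else 0 : XSp P J →L[ℝ] ℂ) (fderiv ℝ cubeX ξ (Pi.single b 1)) =
      -(2 * Real.pi * Complex.I) * (((2 - hh (ξ (Sum.inr j, 0)) : ℝ) : ℂ) *
      (∑ p, (if blk p = j ∧ b = (Sum.inl p, 1) then (1 : ℂ) else 0) *
        ((ξ (Sum.inl p, 0) : ℝ) : ℂ))) := by
    rw [Finset.mul_sum, Finset.mul_sum]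
    refine Finset.sum_congr rfl fun p _ => ?_
    by_cases hpj : blk p = j
    · rw [if_pos hpj, _root_.smul_apply, dzC_cube, smul_eq_mul]
      simp only [hpj, true_and, cubeX]
      ring
    · rw [if_neg hpj, if_neg (fun h => hpj h.1)]
      simp
  rw [hsum, sub_sub]
  congr 1
  have e1 : (3 * (starRingEnd ℂ) (gX true j (cubeX ξ : XSp P J)) /
      ((1 + TT (ξ (Sum.inr j, 0)) ^ 2 : ℝ) : ℂ)) *
      (((if b = (Sum.inr j, 0) then
          ((Real.pi / (1 + Real.cos (Real.pi * ξ (Sum.inr j, 0))) : ℝ) : ℂ) else 0) +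
        (if b = (Sum.inr j, 1) then
          2 * Real.pi * Complex.I * (TT (ξ (Sum.inr j, 0)) : ℂ) else 0)) *
      Complex.exp (2 * Real.pi * ξ (Sum.inr j, 1) * Complex.I)) =
      3 * (TT (ξ (Sum.inr j, 0)) : ℂ) / (1 + ((TT (ξ (Sum.inr j, 0)) : ℝ) : ℂ) ^ 2) *
      (((if b = (Sum.inr j, 0) then
          ((Real.pi / (1 + Real.cos (Real.pi * ξ (Sum.inr j, 0))) : ℝ) : ℂ) else 0) +
        (if b = (Sum.inr j, 1) then
          2 * Real.pi * Complex.I * (TT (ξ (Sum.inr j, 0)) : ℂ) else 0))) := by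
    have aux : ∀ G E D B T : ℂ, G * E = T → 3 * G / D * (B * E) = 3 * T / D * B := by
      intro G E D B T hT
      rw [← hT]
      ring
    rw [aux _ _ _ _ _ hconj]
    push_cast
    rfl
  rw [e1, mul_add]
  congr 1
  · by_cases hb : b = (Sum.inr j, 0)
    · rw [if_pos hb, if_pos hb, hT1]
      push_cast
      field_simp
    · rw [if_neg hb, if_neg hb]
      simp
  · by_cases hb : b = (Sum.inr j, 1)
    · rw [if_pos hb, if_pos hb, ← hhC]
      ring
    · rw [if_neg hb, if_neg hb]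
      simp

/-- the derivative of `AA` -/
theorem fderiv_AA (j : J) (a b : (P ⊕ J) × Fin 2) (ξ : (P ⊕ J) × Fin 2 → ℝ)
    (h : 0 < ξ (Sum.inr j, 0) ∧ ξ (Sum.inr j, 0) < 1) :
    fderiv ℝ (AA blk j b) ξ (Pi.single a 1) =
      -(2 * Real.pi * Complex.I) * (((2 - hh (ξ (Sum.inr j, 0)) : ℝ) : ℂ) *
          (∑ p, (if blk p = j ∧ b = (Sum.inl p, 1) then (1 : ℂ) else 0) *
            (if a = (Sum.inl p, 0) then (1 : ℂ) else 0)) +
        -((hh' (ξ (Sum.inr j, 0)) : ℝ) : ℂ) * (if a = (Sum.inr j, 0) then (1 : ℂ) else 0) *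
          (∑ p, (if blk p = j ∧ b = (Sum.inl p, 1) then (1 : ℂ) else 0) *
            ((ξ (Sum.inl p, 0) : ℝ) : ℂ)))
      - (if b = (Sum.inr j, 0) then (1 : ℂ) else 0) * (3 * Real.pi / 2 *
          (((Real.pi / (1 + Real.cos (Real.pi * ξ (Sum.inr j, 0))) : ℝ) : ℂ) *
            (if a = (Sum.inr j, 0) then (1 : ℂ) else 0)))
      - (if b = (Sum.inr j, 1) then (1 : ℂ) else 0) * (2 * Real.pi * Complex.I *
          (((hh' (ξ (Sum.inr j, 0)) : ℝ) : ℂ) * (if a = (Sum.inr j, 0) then (1 : ℂ) else 0))) := by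
  have hpr : ∀ a : (P ⊕ J) × Fin 2, HasFDerivAt (fun η : (P ⊕ J) × Fin 2 → ℝ => η a)
      (ContinuousLinearMap.proj (R := ℝ) (φ := fun _ : (P ⊕ J) × Fin 2 => ℝ) a) ξ := fun a =>
    (ContinuousLinearMap.proj (R := ℝ) (φ := fun _ : (P ⊕ J) × Fin 2 => ℝ) a).hasFDerivAt
  have hprC : ∀ a : (P ⊕ J) × Fin 2, HasFDerivAt (fun η : (P ⊕ J) × Fin 2 → ℝ => ((η a : ℝ) : ℂ))
      (Complex.ofRealCLM ∘L
        (ContinuousLinearMap.proj (R := ℝ) (φ := fun _ : (P ⊕ J) × Fin 2 => ℝ) a)) ξ := fun a =>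
    (Complex.ofRealCLM ∘L
      (ContinuousLinearMap.proj (R := ℝ) (φ := fun _ : (P ⊕ J) × Fin 2 => ℝ) a)).hasFDerivAt
  have hT0 : HasFDerivAt (fun η : (P ⊕ J) × Fin 2 → ℝ => TT (η (Sum.inr j, 0)))
      ((Real.pi / (1 + Real.cos (Real.pi * ξ (Sum.inr j, 0)))) •
        (ContinuousLinearMap.proj (R := ℝ) (φ := fun _ : (P ⊕ J) × Fin 2 => ℝ)
          (Sum.inr j, 0))) ξ := by
    have hTd := hasDerivAt_TT h.1 h.2
    have := HasDerivAt.comp_hasFDerivAt (h₂ := TT) ξ hTd (hpr (Sum.inr j, 0))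
    exact this
  have hT : HasFDerivAt (fun η : (P ⊕ J) × Fin 2 → ℝ => ((TT (η (Sum.inr j, 0)) : ℝ) : ℂ))
      (Complex.ofRealCLM ∘L ((Real.pi / (1 + Real.cos (Real.pi * ξ (Sum.inr j, 0)))) •
        (ContinuousLinearMap.proj (R := ℝ) (φ := fun _ : (P ⊕ J) × Fin 2 => ℝ)
          (Sum.inr j, 0)))) ξ :=
    (Complex.ofRealCLM.hasFDerivAt).comp ξ hT0
  have hH0 : HasFDerivAt (fun η : (P ⊕ J) × Fin 2 → ℝ => hh (η (Sum.inr j, 0)))
      ((hh' (ξ (Sum.inr j, 0))) •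
        (ContinuousLinearMap.proj (R := ℝ) (φ := fun _ : (P ⊕ J) × Fin 2 => ℝ)
          (Sum.inr j, 0))) ξ := by
    have hTd := hasDerivAt_hh (ξ (Sum.inr j, 0))
    have := HasDerivAt.comp_hasFDerivAt (h₂ := hh) ξ hTd (hpr (Sum.inr j, 0))
    exact this
  have hH : HasFDerivAt (fun η : (P ⊕ J) × Fin 2 → ℝ => ((hh (η (Sum.inr j, 0)) : ℝ) : ℂ))
      (Complex.ofRealCLM ∘L ((hh' (ξ (Sum.inr j, 0))) •
        (ContinuousLinearMap.proj (R := ℝ) (φ := fun _ : (P ⊕ J) × Fin 2 => ℝ)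
          (Sum.inr j, 0)))) ξ :=
    (Complex.ofRealCLM.hasFDerivAt).comp ξ hH0
  have hH2 : HasFDerivAt (fun η : (P ⊕ J) × Fin 2 → ℝ => ((2 - hh (η (Sum.inr j, 0)) : ℝ) : ℂ))
      (Complex.ofRealCLM ∘L (-((hh' (ξ (Sum.inr j, 0))) •
        (ContinuousLinearMap.proj (R := ℝ) (φ := fun _ : (P ⊕ J) × Fin 2 => ℝ)
          (Sum.inr j, 0))))) ξ :=
    (Complex.ofRealCLM.hasFDerivAt).comp ξ (hH0.const_sub 2)
  have hS : HasFDerivAt (fun η : (P ⊕ J) × Fin 2 → ℝ =>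
      ∑ p, (if blk p = j ∧ b = (Sum.inl p, 1) then (1 : ℂ) else 0) * ((η (Sum.inl p, 0) : ℝ) : ℂ))
      (∑ p, (if blk p = j ∧ b = (Sum.inl p, 1) then (1 : ℂ) else 0) • (Complex.ofRealCLM ∘L
        (ContinuousLinearMap.proj (R := ℝ) (φ := fun _ : (P ⊕ J) × Fin 2 => ℝ)
          (Sum.inl p, 0)))) ξ :=
    HasFDerivAt.fun_sum fun p _ => (hprC (Sum.inl p, 0)).const_mul _
  have h1 := (((hH2.mul hS).const_mul (-(2 * Real.pi * Complex.I) : ℂ)).sub
    ((hT.const_mul (3 * Real.pi / 2 : ℂ)).const_mul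
      (if b = (Sum.inr j, 0) then (1 : ℂ) else 0))).sub
    ((hH.const_mul (2 * Real.pi * Complex.I : ℂ)).const_mul
      (if b = (Sum.inr j, 1) then (1 : ℂ) else 0))
  have h2 : fderiv ℝ (AA blk j b) ξ = _ := h1.fderiv
  rw [h2]
  have hsing : ∀ c : (P ⊕ J) × Fin 2, ((Pi.single a (1 : ℝ) : (P ⊕ J) × Fin 2 → ℝ) c : ℝ) =
      if a = c then 1 else 0 := by
    intro c
    rw [Pi.single_apply]
    by_cases hc : c = a
    · rw [if_pos hc, if_pos hc.symm]
    · rw [if_neg hc, if_neg (fun h => hc h.symm)]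
  have hsingC : ∀ c : (P ⊕ J) × Fin 2, (((if a = c then 1 else 0 : ℝ)) : ℂ) =
      if a = c then 1 else 0 := by
    intro c
    split_ifs <;> simp
  simp only [_root_.sub_apply, _root_.add_apply, _root_.smul_apply, _root_.neg_apply,
    _root_.sum_apply, ContinuousLinearMap.comp_apply, ContinuousLinearMap.proj_apply,
    Complex.ofRealCLM_apply, smul_eq_mul, hsing, hsingC, Complex.ofReal_mul, Complex.ofReal_neg]
  ring

/-- value on the basis vector `a` of the one form `d τ_j - ∑ y_p d z_p` -/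
noncomputable def tht (ξ : (P ⊕ J) × Fin 2 → ℝ) (j : J) (a : (P ⊕ J) × Fin 2) : ℝ :=
  (if a = (Sum.inr j, 1) then 1 else 0) -
    ∑ p, if blk p = j ∧ a = (Sum.inl p, 1) then ξ (Sum.inl p, 0) else 0

/-- the curvature coefficients along the cube -/
noncomputable def kap (ξ : (P ⊕ J) × Fin 2 → ℝ) (j : J) (a b : (P ⊕ J) × Fin 2) : ℝ :=
  -(2 * Real.pi) *
    ((2 - hh (ξ (Sum.inr j, 0))) *
        (∑ p, if blk p = j then
          ((if a = (Sum.inl p, 0) ∧ b = (Sum.inl p, 1) then 1 else 0) -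
            (if b = (Sum.inl p, 0) ∧ a = (Sum.inl p, 1) then 1 else 0) : ℝ) else 0) +
      hh' (ξ (Sum.inr j, 0)) *
        ((if a = (Sum.inr j, 0) then 1 else 0) * tht blk ξ j b -
          (if b = (Sum.inr j, 0) then 1 else 0) * tht blk ξ j a))

theorem AA_antisymm (j : J) (a b : (P ⊕ J) × Fin 2) (ξ : (P ⊕ J) × Fin 2 → ℝ)
    (h : 0 < ξ (Sum.inr j, 0) ∧ ξ (Sum.inr j, 0) < 1) :
    fderiv ℝ (AA blk j b) ξ (Pi.single a 1) - fderiv ℝ (AA blk j a) ξ (Pi.single b 1) =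
      ((kap blk ξ j a b : ℝ) : ℂ) * Complex.I := by
  rw [fderiv_AA blk j a b ξ h, fderiv_AA blk j b a ξ h]
  have hsum : ∀ c : (P ⊕ J) × Fin 2, (((∑ p, if blk p = j ∧ c = (Sum.inl p, 1) then
      ξ (Sum.inl p, 0) else 0 : ℝ)) : ℂ) =
      ∑ p, (if blk p = j ∧ c = (Sum.inl p, 1) then (1 : ℂ) else 0) *
        ((ξ (Sum.inl p, 0) : ℝ) : ℂ) := by
    intro c
    push_cast
    refine Finset.sum_congr rfl fun p _ => ?_
    split_ifs <;> simp
  have hd : (((∑ p, if blk p = j then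
          ((if a = (Sum.inl p, 0) ∧ b = (Sum.inl p, 1) then 1 else 0) -
            (if b = (Sum.inl p, 0) ∧ a = (Sum.inl p, 1) then 1 else 0) : ℝ) else 0 : ℝ)) : ℂ) =
      (∑ p, (if blk p = j ∧ b = (Sum.inl p, 1) then (1 : ℂ) else 0) *
            (if a = (Sum.inl p, 0) then (1 : ℂ) else 0)) -
      (∑ p, (if blk p = j ∧ a = (Sum.inl p, 1) then (1 : ℂ) else 0) *
            (if b = (Sum.inl p, 0) then (1 : ℂ) else 0)) := by
    push_cast
    rw [← Finset.sum_sub_distrib]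
    refine Finset.sum_congr rfl fun p _ => ?_
    by_cases h1 : blk p = j
    · by_cases h2 : a = (Sum.inl p, 0) <;> by_cases h3 : b = (Sum.inl p, 1) <;>
        by_cases h4 : b = (Sum.inl p, 0) <;> by_cases h5 : a = (Sum.inl p, 1) <;>
        simp [h1, h2, h3, h4, h5]
    · simp [h1]
  rw [kap, tht, tht]
  rw [Complex.ofReal_mul, Complex.ofReal_add, Complex.ofReal_mul, Complex.ofReal_mul,
    Complex.ofReal_sub (_ * _), Complex.ofReal_mul, Complex.ofReal_mul, Complex.ofReal_sub (ite _ _ _),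
    Complex.ofReal_sub (ite _ _ _), hsum, hsum, hd]
  have hi : ∀ (c d : (P ⊕ J) × Fin 2), (((if c = d then 1 else 0 : ℝ)) : ℂ) =
      if c = d then 1 else 0 := by
    intro c d
    split_ifs <;> simp
  simp only [hi]
  push_cast
  ring

theorem dalpha_cube (j : J) (a b : (P ⊕ J) × Fin 2) (ξ : (P ⊕ J) × Fin 2 → ℝ)
    (h : 0 < ξ (Sum.inr j, 0) ∧ ξ (Sum.inr j, 0) < 1) :
    fderiv ℝ (alphaX blk true j) (cubeX ξ) (fderiv ℝ cubeX ξ (Pi.single a 1))
        (fderiv ℝ cubeX ξ (Pi.single b 1)) -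
      fderiv ℝ (alphaX blk true j) (cubeX ξ) (fderiv ℝ cubeX ξ (Pi.single b 1))
        (fderiv ℝ cubeX ξ (Pi.single a 1)) = ((kap blk ξ j a b : ℝ) : ℂ) * Complex.I := by
  have hα : DifferentiableAt ℝ (alphaX blk true j) (cubeX ξ) :=
    (contDiffAt_alphaX blk true j _ (chartDom_cube j ξ h)).differentiableAt (by simp)
  rw [pull_antisymm cubeX (alphaX blk true j) ξ _ _ contDiff_cubeX hα]
  have hopen : ∀ᶠ η : (P ⊕ J) × Fin 2 → ℝ in 𝓝 ξ,
      0 < η (Sum.inr j, 0) ∧ η (Sum.inr j, 0) < 1 := by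
    have h1 : Continuous fun η : (P ⊕ J) × Fin 2 → ℝ => η (Sum.inr j, 0) := continuous_apply _
    exact (h1.continuousAt.eventually (lt_mem_nhds h.1)).and
      (h1.continuousAt.eventually (gt_mem_nhds h.2))
  have hev : ∀ b : (P ⊕ J) × Fin 2, (fun η : (P ⊕ J) × Fin 2 → ℝ =>
      alphaX blk true j (cubeX η) (fderiv ℝ cubeX η (Pi.single b 1))) =ᶠ[𝓝 ξ] AA blk j b := by
    intro b
    filter_upwards [hopen] with η hη
    exact alphaX_cube blk j b η hη
  rw [(hev a).fderiv_eq, (hev b).fderiv_eq]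
  exact AA_antisymm blk j a b ξ h

/-- the unipotent gauge transformation -/
noncomputable def gauge (K : Type) [Fintype K] (n : P → ℂ) : QSp P J K ≃L[ℝ] QSp P J K :=
  ContinuousLinearEquiv.equivOfInverse
    (ContinuousLinearMap.id ℝ (QSp P J K) + blk12 blk K (fun _ => 0) n)
    (ContinuousLinearMap.id ℝ (QSp P J K) - blk12 blk K (fun _ => 0) n)
    (by
      intro q
      have h := blk12_comp (K := K) blk (fun _ => 0) (fun _ => 0) n n
      have h0 : blk12 blk K (fun j => (0 : ℂ) * 0) (fun p => (0 : ℂ) * n p) = 0 := by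
        simp [blk12]
      rw [h0] at h
      have hq := congrArg (fun L => L q) h
      simp only [ContinuousLinearMap.comp_apply, _root_.zero_apply] at hq
      simp only [_root_.add_apply, _root_.sub_apply, ContinuousLinearMap.id_apply, map_add, hq]
      abel)
    (by
      intro q
      have h := blk12_comp (K := K) blk (fun _ => 0) (fun _ => 0) n n
      have h0 : blk12 blk K (fun j => (0 : ℂ) * 0) (fun p => (0 : ℂ) * n p) = 0 := by
        simp [blk12]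
      rw [h0] at h
      have hq := congrArg (fun L => L q) h
      simp only [ContinuousLinearMap.comp_apply, _root_.zero_apply] at hq
      simp only [_root_.add_apply, _root_.sub_apply, ContinuousLinearMap.id_apply, map_sub, hq]
      abel)

theorem gauge_conj (n : P → ℂ) (κ : J → ℂ) :
    (gauge blk K n : QSp P J K →L[ℝ] QSp P J K) ∘L blk12 blk K κ (fun _ => 0) ∘L
      ((gauge blk K n).symm : QSp P J K →L[ℝ] QSp P J K) =
      blk12 blk K κ (fun p => -(n p * κ (blk p))) := by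
  have h1 : (gauge blk K n : QSp P J K →L[ℝ] QSp P J K) =
    ContinuousLinearMap.id ℝ (QSp P J K) + blk12 blk K (fun _ => 0) n := rfl
  have h2 : ((gauge blk K n).symm : QSp P J K →L[ℝ] QSp P J K) =
    ContinuousLinearMap.id ℝ (QSp P J K) - blk12 blk K (fun _ => 0) n := rfl
  rw [h1, h2, ContinuousLinearMap.comp_sub, ContinuousLinearMap.comp_id, blk12_comp, blk12_sub,
    ContinuousLinearMap.add_comp, ContinuousLinearMap.id_comp, blk12_comp, blk12_add]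
  congr 1
  · funext j
    ring
  · funext p
    ring

theorem curvature_cubeX (K : Type) [Fintype K] (ξ : (P ⊕ J) × Fin 2 → ℝ)
    (hξ : ∀ j, 0 < ξ (Sum.inr j, 0) ∧ ξ (Sum.inr j, 0) < 1) :
    ∃ g : QSp P J K ≃L[ℝ] QSp P J K, ∀ a b,
      curvature (formX blk K (fun _ => true)) (cubeX ξ)
        (fderiv ℝ cubeX ξ (Pi.single a 1)) (fderiv ℝ cubeX ξ (Pi.single b 1)) =
      (g : QSp P J K →L[ℝ] QSp P J K) ∘L (∑ j, kap blk ξ j a b • rotJ P K j) ∘L
        (g.symm : QSp P J K →L[ℝ] QSp P J K) := by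
  refine ⟨gauge blk K (fun p => nX blk true p (cubeX ξ)), fun a b => ?_⟩
  rw [curvature_formX blk _ _ _ _ (cubeX_mem_domX ξ hξ)]
  have h1 : (∑ j, kap blk ξ j a b • rotJ P K j) =
      blk12 blk K (fun j => ((kap blk ξ j a b : ℝ) : ℂ) * Complex.I) (fun _ => 0) := by
    rw [blk12]
    simp only [map_zero, Finset.sum_const_zero, add_zero]
    refine Finset.sum_congr rfl fun j _ => ?_
    rw [rotJ, ← Complex.real_smul, map_smul]
  rw [h1, gauge_conj]
  congr 1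
  · funext j
    exact dalpha_cube blk j a b ξ (hξ j)
  · funext p
    rw [dalpha_cube blk (blk p) a b ξ (hξ (blk p))]

end

end Pool.Agent.HaefligerClasses
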