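import Pool.Agent.HaefligerClasses.Model

/-!
# The manifold of the example
-/

set_option linter.unusedSectionVars false

namespace Pool.Agent.HaefligerClasses

open Filter Topology
open scoped ContDiff

section

variable {P J : Type} [Fintype P] [Fintype J] [DecidableEq J] (blk : P → J)

theorem ang_zero (z : P → ℝ) (j : J) : ang blk 0 z j = 0 := by
  unfold ang
  simp

theorem ang_add (a b : P → ℤ) (c : P → ℤ) (z : P → ℝ) (j : J) :
    ang blk (a + b) z j = ang blk a (fun p => z p + c p) j + ang blk b z j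
      - 2 * Real.pi * ((∑ p, if blk p = j then a p * c p else 0 : ℤ) : ℝ) := by
  unfold ang
  push_cast
  rw [← mul_add, ← mul_sub, ← Finset.sum_add_distrib, ← Finset.sum_sub_distrib]
  congr 1
  apply Finset.sum_congr rfl
  intro p _
  by_cases h : blk p = j
  · simp only [h, if_true, Pi.add_apply]
    push_cast
    ring
  · simp [h]

theorem isOpen_UX : IsOpen (UX P J) := by
  have : UX P J = ⋂ j : J, ({x : XSp P J | x.2.2.1 j ≠ 0} ∪ {x : XSp P J | x.2.2.2 j ≠ 0}) := by
    ext x
    simp [UX]
  rw [this]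
  apply isOpen_iInter_of_finite
  intro j
  apply IsOpen.union
  · exact isOpen_ne_fun (by fun_prop) continuous_const
  · exact isOpen_ne_fun (by fun_prop) continuous_const

theorem contDiff_actX (a : LSp P) : ContDiff ℝ ∞ (actX (J := J) blk a) := by
  have hang : ∀ j : J, ContDiff ℝ ∞ (fun x : XSp P J => ang blk a.1 x.2.1 j) := by
    intro j
    unfold ang
    refine contDiff_const.mul (ContDiff.sum fun p _ => ?_)
    by_cases h : blk p = j
    · simp only [h, if_true]
      fun_prop
    · simp only [h, if_false]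
      exact contDiff_const
  unfold actX
  refine ContDiff.prodMk ?_ (ContDiff.prodMk ?_ (ContDiff.prodMk ?_ ?_))
  · rw [contDiff_pi]
    intro p
    fun_prop
  · rw [contDiff_pi]
    intro p
    fun_prop
  · rw [contDiff_pi]
    intro j
    refine ContDiff.mul (ContDiff.cexp (ContDiff.mul ?_ contDiff_const)) (by fun_prop)
    exact Complex.ofRealCLM.contDiff.comp (hang j)
  · fun_prop

theorem actX_mem (a : LSp P) (x : XSp P J) (hx : x ∈ UX P J) : actX blk a x ∈ UX P J := by
  intro j
  rcases hx j with h | h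
  · left
    exact mul_ne_zero (Complex.exp_ne_zero _) h
  · right
    exact h

theorem actX_zero (x : XSp P J) : actX blk 0 x = x := by
  unfold actX
  refine Prod.ext ?_ (Prod.ext ?_ (Prod.ext ?_ rfl))
  · funext p; simp
  · funext p; simp
  · funext j
    have : (0 : LSp P).1 = 0 := rfl
    simp only [this, ang_zero]
    simp

theorem actX_add (a b : LSp P) (x : XSp P J) :
    actX blk (a + b) x = actX blk a (actX blk b x) := by
  unfold actX
  refine Prod.ext ?_ (Prod.ext ?_ (Prod.ext ?_ rfl))
  · funext p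
    simp only [Prod.fst_add, Pi.add_apply]
    push_cast
    ring
  · funext p
    simp only [Prod.snd_add, Pi.add_apply]
    push_cast
    ring
  · funext j
    simp only [Prod.fst_add]
    rw [ang_add blk a.1 b.1 b.2 x.2.1 j, ← mul_assoc, ← Complex.exp_add]
    congr 1
    generalize (∑ p, if blk p = j then a.1 p * b.2 p else 0 : ℤ) = N
    rw [Complex.exp_eq_exp_iff_exists_int]
    refine ⟨-N, ?_⟩
    push_cast
    ring

theorem actX_free (a : LSp P) (x : XSp P J) (h : actX blk a x = x) : a = 0 := by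
  unfold actX at h
  have h1 := congrArg Prod.fst h
  have h2 := congrArg (fun y : XSp P J => y.2.1) h
  refine Prod.ext ?_ ?_
  · funext p
    have := congrFun h1 p
    simp only [add_eq_left] at this
    exact_mod_cast this
  · funext p
    have := congrFun h2 p
    simp only [add_eq_left] at this
    exact_mod_cast this

theorem actX_proper (x y : XSp P J) :
    ∃ V ∈ 𝓝 x, ∃ W ∈ 𝓝 y, {a : LSp P | ∃ z ∈ V ∩ UX P J, actX blk a z ∈ W}.Finite := by
  refine ⟨Metric.ball x 1, Metric.ball_mem_nhds x one_pos, Metric.ball y 1,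
    Metric.ball_mem_nhds y one_pos, ?_⟩
  have hfin : ((Set.pi Set.univ (fun p : P => Set.Icc ⌊y.1 p - x.1 p - 2⌋ ⌈y.1 p - x.1 p + 2⌉)) ×ˢ
      (Set.pi Set.univ (fun p : P => Set.Icc ⌊y.2.1 p - x.2.1 p - 2⌋ ⌈y.2.1 p - x.2.1 p + 2⌉)) :
      Set (LSp P)).Finite := by
    exact Set.Finite.prod (Set.Finite.pi fun p => Set.finite_Icc _ _)
      (Set.Finite.pi fun p => Set.finite_Icc _ _)
  refine hfin.subset ?_
  rintro a ⟨z, ⟨hz, -⟩, hw⟩
  rw [Metric.mem_ball, Prod.dist_eq, max_lt_iff] at hz hw
  obtain ⟨hz1, hz2⟩ := hz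
  obtain ⟨hw1, hw2⟩ := hw
  rw [Prod.dist_eq, max_lt_iff] at hz2 hw2
  have key : ∀ {α β γ : ℝ} {n : ℤ}, dist γ α < 1 → dist (γ + n) β < 1 →
      n ∈ Set.Icc ⌊β - α - 2⌋ ⌈β - α + 2⌉ := by
    intro α β γ n h1 h2
    rw [Real.dist_eq, abs_lt] at h1 h2
    constructor
    · have : (⌊β - α - 2⌋ : ℝ) ≤ n := (Int.floor_le _).trans (by linarith)
      exact_mod_cast this
    · have : (n : ℝ) ≤ ⌈β - α + 2⌉ := le_trans (by linarith) (Int.le_ceil _)
      exact_mod_cast this
  refine ⟨?_, ?_⟩
  · intro p _
    exact key (lt_of_le_of_lt (dist_le_pi_dist z.1 x.1 p) hz1)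
      (lt_of_le_of_lt (dist_le_pi_dist (actX blk a z).1 y.1 p) hw1)
  · intro p _
    exact key (lt_of_le_of_lt (dist_le_pi_dist z.2.1 x.2.1 p) hz2.1)
      (lt_of_le_of_lt (dist_le_pi_dist (actX blk a z).2.1 y.2.1 p) hw2.1)

/-- the manifold of the example -/
noncomputable def MX : QuotientManifold (XSp P J) (LSp P) where
  U := UX P J
  isOpen_U := isOpen_UX
  act := actX blk
  smooth_act := fun a => (contDiff_actX blk a).contDiffOn
  mapsTo := fun a x hx => actX_mem blk a x hx
  act_zero := fun x _ => actX_zero blk x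
  act_add := fun a b x _ => actX_add blk a b x
  free := fun a x _ h => actX_free blk a x h
  proper := fun x _ y _ => actX_proper blk x y

end

end Pool.Agent.HaefligerClasses
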