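import Pool.Agent.HaefligerClasses.Model

/-! # Periodic shears preserve integrals over the unit cube -/

namespace Pool.Agent.HaefligerClasses

open Filter Topology MeasureTheory
open scoped ContDiff

private theorem integral_cube_split {m : ℕ} (k : Fin (m + 1)) (G : (Fin (m + 1) → ℝ) → ℝ)
    (hG : Continuous G) :
    ∫ η in Set.Icc (0 : Fin (m + 1) → ℝ) 1, G η =
      ∫ η' in Set.Icc (0 : Fin m → ℝ) 1, ∫ t in (0 : ℝ)..1, G (k.insertNth t η') := by
  have hmp := volume_preserving_piFinSuccAbove (fun _ : Fin (m + 1) => ℝ) k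
  have hins : Continuous (fun p : ℝ × (Fin m → ℝ) => G (k.insertNth p.1 p.2)) := by
    refine hG.comp ?_
    rw [continuous_pi_iff]
    intro i
    rcases eq_or_ne i k with rfl | hne
    · simpa using continuous_fst
    · obtain ⟨j, rfl⟩ := Fin.exists_succAbove_eq hne
      simpa [Function.comp_def] using (continuous_apply j).comp continuous_snd
  have h1 := hmp.setIntegral_preimage_emb (MeasurableEquiv.measurableEmbedding _)
    (fun p : ℝ × (Fin m → ℝ) => G (k.insertNth p.1 p.2))
    (Set.Icc (0 : ℝ) 1 ×ˢ Set.Icc (0 : Fin m → ℝ) 1)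
  have hpre : (MeasurableEquiv.piFinSuccAbove (fun _ : Fin (m + 1) => ℝ) k) ⁻¹'
      (Set.Icc (0 : ℝ) 1 ×ˢ Set.Icc (0 : Fin m → ℝ) 1) = Set.Icc (0 : Fin (m + 1) → ℝ) 1 := by
    ext η
    simp only [Set.mem_preimage, Set.mem_prod, Set.mem_Icc, Pi.le_def,
      MeasurableEquiv.piFinSuccAbove_apply, Fin.insertNthEquiv_symm_apply]
    constructor
    · rintro ⟨⟨h1, h2⟩, h3, h4⟩
      constructor
      · intro i
        rcases eq_or_ne i k with rfl | hne
        · exact h1
        · obtain ⟨j, rfl⟩ := Fin.exists_succAbove_eq hne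
          exact h3 j
      · intro i
        rcases eq_or_ne i k with rfl | hne
        · exact h2
        · obtain ⟨j, rfl⟩ := Fin.exists_succAbove_eq hne
          exact h4 j
    · rintro ⟨h1, h2⟩
      exact ⟨⟨h1 k, h2 k⟩, fun j => h1 (k.succAbove j), fun j => h2 (k.succAbove j)⟩
  have hfun : ∀ η : Fin (m + 1) → ℝ,
      G (k.insertNth ((MeasurableEquiv.piFinSuccAbove (fun _ : Fin (m + 1) => ℝ) k) η).1
        ((MeasurableEquiv.piFinSuccAbove (fun _ : Fin (m + 1) => ℝ) k) η).2) = G η := by
    intro η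
    congr 1
    simp [MeasurableEquiv.piFinSuccAbove_apply]
  simp only [hfun] at h1
  rw [hpre] at h1
  rw [h1]
  have h2 : (volume : Measure (ℝ × (Fin m → ℝ))) = (volume : Measure ℝ).prod volume := rfl
  rw [h2, ← Measure.prod_restrict]
  rw [integral_prod_symm]
  · refine integral_congr_ae (Eventually.of_forall fun η' => ?_)
    simp only
    rw [intervalIntegral.integral_of_le zero_le_one, integral_Icc_eq_integral_Ioc]
  · rw [Measure.prod_restrict]
    exact hins.continuousOn.integrableOn_compact (isCompact_Icc.prod isCompact_Icc)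

theorem integral_shear {n : ℕ} (f : (Fin n → ℝ) → ℝ) (hf : Continuous f) (k l : Fin n)
    (hkl : k ≠ l) (hper : ∀ η, f (η + Pi.single k 1) = f η) :
    ∫ η in Set.Icc (0 : Fin n → ℝ) 1, f (η - Pi.single k (η l)) =
      ∫ η in Set.Icc (0 : Fin n → ℝ) 1, f η := by
  obtain ⟨m, rfl⟩ : ∃ m, n = m + 1 := ⟨n - 1, by have := k.2; omega⟩
  obtain ⟨l', rfl⟩ := Fin.exists_succAbove_eq hkl.symm
  have hc : Continuous (fun η : Fin (m + 1) → ℝ => f (η - Pi.single k (η (k.succAbove l')))) := by
    refine hf.comp (continuous_id.sub ?_)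
    exact (continuous_single (A := fun _ : Fin (m + 1) => ℝ) k).comp (continuous_apply _)
  rw [integral_cube_split k _ hc, integral_cube_split k _ hf]
  refine integral_congr_ae (Eventually.of_forall fun η' => ?_)
  simp only
  have hins : ∀ t : ℝ, (k.insertNth t η' : Fin (m + 1) → ℝ) -
      Pi.single k ((k.insertNth t η' : Fin (m + 1) → ℝ) (k.succAbove l')) =
      k.insertNth (t - η' l') η' := by
    intro t
    ext i
    rcases eq_or_ne i k with rfl | hne
    · simp
    · obtain ⟨j, rfl⟩ := Fin.exists_succAbove_eq hne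
      simp
  simp only [hins]
  set φ : ℝ → ℝ := fun t => f (k.insertNth t η') with hφ
  have hφper : Function.Periodic φ 1 := by
    intro t
    simp only [hφ]
    rw [← hper (k.insertNth t η')]
    congr 1
    ext i
    rcases eq_or_ne i k with rfl | hne
    · simp
    · obtain ⟨j, rfl⟩ := Fin.exists_succAbove_eq hne
      simp
  have := hφper.intervalIntegral_add_eq (-(η' l')) 0
  have h3 : ∫ t in (0 : ℝ)..1, φ (t - η' l') = ∫ t in (0 - η' l')..(1 - η' l'), φ t :=
    intervalIntegral.integral_comp_sub_right φ (η' l')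
  rw [show (∫ t in (0 : ℝ)..1, f (k.insertNth (t - η' l') η')) = ∫ t in (0 : ℝ)..1, φ (t - η' l')
    from rfl, h3]
  rw [show (0 : ℝ) - η' l' = -(η' l') by ring, show (1 : ℝ) - η' l' = -(η' l') + 1 by ring, this]
  simp [hφ]

end Pool.Agent.HaefligerClasses
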