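import Pool.Agent.HaefligerClasses.CubeStokes
import Pool.Agent.HaefligerClasses.Shear
import Pool.Agent.HaefligerClasses.Man

/-! # The integral of an exact form over the fundamental cycle vanishes -/

namespace Pool.Agent.HaefligerClasses

open Filter Topology MeasureTheory
open scoped ContDiff

/-! ### general part: pull back to the cube -/

section

variable {E : Type} [NormedAddCommGroup E] [NormedSpace ℝ E] {n : ℕ}

/-- the pull back of the form `β` along `c` -/
private noncomputable def pb (c : (Fin (n + 1) → ℝ) → E) (β : E → E [⋀^Fin n]→L[ℝ] ℝ)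
    (ξ : Fin (n + 1) → ℝ) : (Fin (n + 1) → ℝ) [⋀^Fin n]→L[ℝ] ℝ :=
  (β (c ξ)).compContinuousLinearMap (fderiv ℝ c ξ)

private theorem pb_differentiableAt (c : (Fin (n + 1) → ℝ) → E) (hc : ContDiff ℝ ∞ c)
    (β : E → E [⋀^Fin n]→L[ℝ] ℝ) (hβ : ∀ ξ, ContDiffAt ℝ ∞ β (c ξ)) (ξ : Fin (n + 1) → ℝ) :
    DifferentiableAt ℝ (pb c β) ξ := by
  have h1 : DifferentiableAt ℝ (fun ξ => β (c ξ)) ξ :=
    ((hβ ξ).differentiableAt (by simp)).comp ξ ((hc.differentiable (by simp)) ξ)
  have h2 : DifferentiableAt ℝ (fderiv ℝ c) ξ :=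
    ((hc.fderiv_right (m := 1) (by norm_cast)).differentiable (by norm_num)) ξ
  exact h1.continuousAlternatingMapCompContinuousLinearMap h2

private theorem pb_contDiff (c : (Fin (n + 1) → ℝ) → E) (hc : ContDiff ℝ ∞ c)
    (β : E → E [⋀^Fin n]→L[ℝ] ℝ) (hβ : ∀ ξ, ContDiffAt ℝ ∞ β (c ξ))
    (v : Fin n → (Fin (n + 1) → ℝ)) : ContDiff ℝ 1 (fun ξ => pb c β ξ v) := by
  have h1 : ContDiff ℝ 1 (fun ξ => β (c ξ)) := by
    rw [contDiff_iff_contDiffAt]
    intro ξ
    exact ((hβ ξ).of_le (by norm_cast)).comp ξ ((hc.of_le (by norm_cast)).contDiffAt)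
  have h2 : ContDiff ℝ 1 (fderiv ℝ c) := hc.fderiv_right (m := 1) (by norm_cast)
  have h3 : ContDiff ℝ 1 (fun ξ =>
      ContinuousMultilinearMap.compContinuousLinearMapContinuousMultilinear ℝ
        (fun _ : Fin n => (Fin (n + 1) → ℝ)) (fun _ : Fin n => E) ℝ (fun _ => fderiv ℝ c ξ)) :=
    (ContinuousMultilinearMap.contDiff _).comp (contDiff_pi.2 fun _ => h2)
  have h4 : ContDiff ℝ 1 (fun ξ => (β (c ξ)).toContinuousMultilinearMap) :=
    (ContinuousAlternatingMap.toContinuousMultilinearMapCLM ℝ : (E [⋀^Fin n]→L[ℝ] ℝ) →L[ℝ]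
      ContinuousMultilinearMap ℝ (fun _ : Fin n => E) ℝ).contDiff.comp h1
  have h5 := h3.clm_apply h4
  have h6 := (ContinuousMultilinearMap.apply ℝ (fun _ : Fin n => (Fin (n + 1) → ℝ)) ℝ
    v).contDiff.comp h5
  exact h6

private theorem pb_transf (c : (Fin (n + 1) → ℝ) → E) (hc : ContDiff ℝ ∞ c)
    (β : E → E [⋀^Fin n]→L[ℝ] ℝ) (g : E → E)
    (hg : ∀ ξ, DifferentiableAt ℝ g (c ξ))
    (hgβ : ∀ ξ, (β (g (c ξ))).compContinuousLinearMap (fderiv ℝ g (c ξ)) = β (c ξ))
    (w : Fin (n + 1) → ℝ) (S : (Fin (n + 1) → ℝ) →L[ℝ] (Fin (n + 1) → ℝ))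
    (h : ∀ ξ, c (ξ + w) = g (c (S ξ))) (ξ : Fin (n + 1) → ℝ) (v : Fin n → (Fin (n + 1) → ℝ)) :
    pb c β (ξ + w) v = pb c β (S ξ) (fun k => S (v k)) := by
  have hcd : ∀ ξ, HasFDerivAt c (fderiv ℝ c ξ) ξ := fun ξ =>
    ((hc.differentiable (by simp)) ξ).hasFDerivAt
  have h1 : HasFDerivAt (fun ξ => c (ξ + w)) (fderiv ℝ c (ξ + w)) ξ := by
    have := (hcd (ξ + w)).comp ξ ((hasFDerivAt_id ξ).add_const w)
    rw [ContinuousLinearMap.comp_id] at this
    exact this
  have h2 : HasFDerivAt (fun ξ => g (c (S ξ)))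
      ((fderiv ℝ g (c (S ξ))) ∘L ((fderiv ℝ c (S ξ)) ∘L S)) ξ :=
    (hg (S ξ)).hasFDerivAt.comp ξ ((hcd (S ξ)).comp ξ S.hasFDerivAt)
  have h3 : (fun ξ => c (ξ + w)) = fun ξ => g (c (S ξ)) := funext h
  rw [h3] at h1
  have h4 := h1.unique h2
  unfold pb
  rw [ContinuousAlternatingMap.compContinuousLinearMap_apply,
    ContinuousAlternatingMap.compContinuousLinearMap_apply, h4, ← hgβ (S ξ),
    ContinuousAlternatingMap.compContinuousLinearMap_apply, h ξ]
  rfl

private theorem pb_zero (c : (Fin (n + 1) → ℝ) → E)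
    (β : E → E [⋀^Fin n]→L[ℝ] ℝ) (ξ : Fin (n + 1) → ℝ) (v : Fin n → (Fin (n + 1) → ℝ)) (k : Fin n)
    (hk : fderiv ℝ c ξ (v k) = 0) : pb c β ξ v = 0 := by
  unfold pb
  rw [ContinuousAlternatingMap.compContinuousLinearMap_apply]
  exact ContinuousAlternatingMap.map_coord_zero _ k hk

end

/-! ### the cube -/

section

variable {P J : Type} [Fintype P] [Fintype J] [DecidableEq P] [DecidableEq J] (blk : P → J)
  {n : ℕ} (eqv : Fin (n + 1) ≃ (P ⊕ J) × Fin 2)

/-- the parametrisation in the coordinates of `Fin (n + 1)` -/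
private noncomputable def cu (ξ : Fin (n + 1) → ℝ) : XSp P J := cubeX (fun a => ξ (eqv.symm a))

omit [DecidableEq P] [DecidableEq J] in
private theorem contDiff_cubeX : ContDiff ℝ ∞ (cubeX (P := P) (J := J)) := by
  unfold cubeX
  refine ContDiff.prodMk ?_ (ContDiff.prodMk ?_ (ContDiff.prodMk ?_ ?_))
  · exact contDiff_pi.2 fun p => contDiff_apply ℝ ℝ _
  · exact contDiff_pi.2 fun p => contDiff_apply ℝ ℝ _
  · refine contDiff_pi.2 fun j => ?_
    refine ContDiff.mul ?_ ?_
    · exact Complex.ofRealCLM.contDiff.comp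
        (Real.contDiff_sin.comp (contDiff_const.mul (contDiff_apply ℝ ℝ _)))
    · refine ContDiff.cexp ?_
      refine ContDiff.mul ?_ contDiff_const
      refine ContDiff.mul contDiff_const ?_
      exact Complex.ofRealCLM.contDiff.comp (contDiff_apply ℝ ℝ _)
  · refine contDiff_pi.2 fun j => ?_
    exact (Real.contDiff_cos.comp (contDiff_const.mul (contDiff_apply ℝ ℝ _))).neg

omit [DecidableEq P] [DecidableEq J] in
private theorem contDiff_cu : ContDiff ℝ ∞ (cu (P := P) (J := J) eqv) :=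
  contDiff_cubeX.comp (contDiff_pi.2 fun _ => contDiff_apply ℝ ℝ _)

omit [Fintype P] [Fintype J] [DecidableEq P] [DecidableEq J] in
private theorem cu_mem (ξ : Fin (n + 1) → ℝ) : cu eqv ξ ∈ UX P J := by
  intro j
  by_contra h
  push Not at h
  obtain ⟨h1, h2⟩ := h
  simp only [cu, cubeX, mul_eq_zero, Complex.exp_ne_zero, or_false, Complex.ofReal_eq_zero,
    neg_eq_zero] at h1 h2
  have := Real.sin_sq_add_cos_sq (Real.pi * ξ (eqv.symm (Sum.inr j, 0)))
  rw [h1, h2] at this
  norm_num at this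

omit [Fintype J] in
private theorem ang_single (p : P) (z : P → ℝ) (j : J) :
    ang blk (Pi.single p 1 : P → ℤ) z j = if blk p = j then 2 * Real.pi * z p else 0 := by
  unfold ang
  rw [Finset.sum_eq_single p]
  · by_cases h : blk p = j <;> simp [h]
  · intro b _ hb
    simp [hb]
  · simp

omit [Fintype J] in
private theorem cu_z (p : P) (ξ : Fin (n + 1) → ℝ) :
    cu eqv (ξ + Pi.single (eqv.symm (Sum.inl p, 1)) 1) =
      actX blk ((0, Pi.single p 1) : LSp P) (cu eqv ξ) := by
  refine Prod.ext ?_ (Prod.ext ?_ (Prod.ext ?_ ?_))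
  · funext p'
    simp [cu, cubeX, actX]
  · funext p'
    by_cases h : p' = p
    · subst h
      simp [cu, cubeX, actX]
    · have h2 : eqv.symm (Sum.inl p', 1) ≠ eqv.symm (Sum.inl p, 1) := by
        simpa using h
      simp [cu, cubeX, actX, h]
  · funext j
    simp [cu, cubeX, actX, ang]
  · funext j
    simp [cu, cubeX, actX]

omit [Fintype P] [Fintype J] [DecidableEq P] in
private theorem cu_tau (j : J) (ξ : Fin (n + 1) → ℝ) :
    cu (P := P) eqv (ξ + Pi.single (eqv.symm (Sum.inr j, 1)) 1) = cu eqv ξ := by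
  refine Prod.ext ?_ (Prod.ext ?_ (Prod.ext ?_ ?_))
  · funext p'
    simp [cu, cubeX]
  · funext p'
    simp [cu, cubeX]
  · funext j'
    by_cases h : j' = j
    · subst h
      simp only [cu, cubeX, Pi.add_apply, Pi.single_eq_same]
      have h0 : (Pi.single (eqv.symm (Sum.inr j', 1)) (1 : ℝ) : Fin (n + 1) → ℝ)
          (eqv.symm (Sum.inr j', 0)) = 0 := by
        rw [Pi.single_apply, if_neg]
        simp
      rw [h0, add_zero]
      congr 1
      rw [Complex.exp_eq_exp_iff_exists_int]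
      exact ⟨1, by push_cast; ring⟩
    · simp [cu, cubeX, h]
  · funext j'
    simp [cu, cubeX]

/-- the shear -/
private noncomputable def shr (p : P) : (Fin (n + 1) → ℝ) →L[ℝ] (Fin (n + 1) → ℝ) :=
  ContinuousLinearMap.id ℝ _ -
    (ContinuousLinearMap.proj (R := ℝ) (φ := fun _ : Fin (n + 1) => ℝ)
      (eqv.symm (Sum.inl p, 1))).smulRight
      (Pi.single (eqv.symm (Sum.inr (blk p), 1)) (1 : ℝ) : Fin (n + 1) → ℝ)

omit [Fintype P] [Fintype J] [DecidableEq P] [DecidableEq J] in
private theorem shr_apply (p : P) (ξ : Fin (n + 1) → ℝ) :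
    shr blk eqv p ξ = ξ - Pi.single (eqv.symm (Sum.inr (blk p), 1)) (ξ (eqv.symm (Sum.inl p, 1))) := by
  ext a
  simp only [shr, _root_.sub_apply, ContinuousLinearMap.id_apply, Pi.sub_apply,
    ContinuousLinearMap.smulRight_apply, ContinuousLinearMap.proj_apply, Pi.smul_apply,
    smul_eq_mul, Pi.single_apply]
  split_ifs <;> simp

omit [Fintype J] in
private theorem cu_y (p : P) (ξ : Fin (n + 1) → ℝ) :
    cu eqv (ξ + Pi.single (eqv.symm (Sum.inl p, 0)) 1) =
      actX blk ((Pi.single p 1, 0) : LSp P) (cu eqv (shr blk eqv p ξ)) := by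
  rw [shr_apply]
  refine Prod.ext ?_ (Prod.ext ?_ (Prod.ext ?_ ?_))
  · funext p'
    by_cases h : p' = p
    · subst h
      simp [cu, cubeX, actX]
    · simp [cu, cubeX, actX, h]
  · funext p'
    simp [cu, cubeX, actX]
  · funext j
    by_cases h : blk p = j
    · subst h
      simp only [cu, cubeX, actX, ang_single, if_true, Pi.add_apply, Pi.sub_apply]
      have h0 : (Pi.single (eqv.symm (Sum.inl p, 0)) (1 : ℝ) : Fin (n + 1) → ℝ)
          (eqv.symm (Sum.inr (blk p), 0)) = 0 := by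
        rw [Pi.single_apply, if_neg]
        simp
      have h1 : (Pi.single (eqv.symm (Sum.inl p, 0)) (1 : ℝ) : Fin (n + 1) → ℝ)
          (eqv.symm (Sum.inr (blk p), 1)) = 0 := by
        rw [Pi.single_apply, if_neg]
        simp
      have h2 : (Pi.single (eqv.symm (Sum.inr (blk p), 1)) (ξ (eqv.symm (Sum.inl p, 1))) :
          Fin (n + 1) → ℝ) (eqv.symm (Sum.inr (blk p), 0)) = 0 := by
        rw [Pi.single_apply, if_neg]
        simp
      have h3 : (Pi.single (eqv.symm (Sum.inr (blk p), 1)) (ξ (eqv.symm (Sum.inl p, 1))) :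
          Fin (n + 1) → ℝ) (eqv.symm (Sum.inl p, 1)) = 0 := by
        rw [Pi.single_apply, if_neg]
        simp
      rw [h0, h1, h2, h3, Pi.single_eq_same, mul_left_comm, ← Complex.exp_add]
      simp only [add_zero, sub_zero]
      congr 2
      push_cast
      ring
    · have hne : (Sum.inr j : P ⊕ J) ≠ Sum.inr (blk p) := fun h' => h (Sum.inr_injective h').symm
      have hne' : ¬ j = blk p := fun h' => h h'.symm
      simp [cu, cubeX, actX, ang_single, h, hne']
  · funext j
    simp [cu, cubeX, actX]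

omit [DecidableEq P] in
private theorem fderiv_cu_tau (j : J) (ξ : Fin (n + 1) → ℝ)
    (h : Real.sin (Real.pi * ξ (eqv.symm (Sum.inr j, 0))) = 0) :
    fderiv ℝ (cu (P := P) (J := J) eqv) ξ (Pi.single (eqv.symm (Sum.inr j, 1)) 1) = 0 := by
  have h1 : HasFDerivAt (cu (P := P) (J := J) eqv) (fderiv ℝ (cu (P := P) (J := J) eqv) ξ) ξ :=
    (((contDiff_cu eqv).differentiable (by simp)) ξ).hasFDerivAt
  have h2 := h1.hasLineDerivAt (Pi.single (eqv.symm (Sum.inr j, 1)) 1)
  have h3 : (fun t : ℝ => cu (P := P) (J := J) eqv (ξ + t • Pi.single (eqv.symm (Sum.inr j, 1)) 1)) =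
      fun _ => cu eqv ξ := by
    funext t
    refine Prod.ext ?_ (Prod.ext ?_ (Prod.ext ?_ ?_))
    · funext p'
      simp [cu, cubeX]
    · funext p'
      simp [cu, cubeX]
    · funext j'
      by_cases hj : j' = j
      · subst hj
        have hC : Complex.sin (Real.pi * ξ (eqv.symm (Sum.inr j', 0))) = 0 := by
          rw [← Complex.ofReal_mul, ← Complex.ofReal_sin, h]
          simp
        simp [cu, cubeX, hC]
      · simp [cu, cubeX, hj]
    · funext j'
      simp [cu, cubeX]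
  unfold HasLineDerivAt at h2
  rw [h3] at h2
  exact h2.unique (hasDerivAt_const _ _)

private theorem cycle_zero (β : XSp P J → XSp P J [⋀^Fin n]→L[ℝ] ℝ)
    (hβ1 : ∀ x ∈ UX P J, ContDiffAt ℝ ∞ β x)
    (hβ2 : ∀ a, ∀ x ∈ UX P J,
      (β (actX blk a x)).compContinuousLinearMap (fderiv ℝ (actX blk a) x) = β x)
    (hact : ∀ a, ∀ x ∈ UX P J, DifferentiableAt ℝ (actX blk a) x) :
    ∫ ξ in Set.Icc (0 : Fin (n + 1) → ℝ) 1,
      extDeriv β (cubeX (fun a => ξ (eqv.symm a)))
        (fun i => fderiv ℝ (cubeX (P := P) (J := J)) (fun a => ξ (eqv.symm a))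
          (Pi.single (eqv i) 1)) = 0 := by
  have hcu := contDiff_cu (P := P) (J := J) eqv
  have hβc : ∀ ξ, ContDiffAt ℝ ∞ β (cu eqv ξ) := fun ξ => hβ1 _ (cu_mem eqv ξ)
  -- step 1: pull back
  have h1 : ∀ ξ : Fin (n + 1) → ℝ, extDeriv β (cubeX (fun a => ξ (eqv.symm a)))
        (fun i => fderiv ℝ (cubeX (P := P) (J := J)) (fun a => ξ (eqv.symm a))
          (Pi.single (eqv i) 1)) =
      extDeriv (pb (cu eqv) β) ξ (fun i => Pi.single i 1) := by
    intro ξ
    have h2 : extDeriv (pb (cu eqv) β) ξ =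
        (extDeriv β (cu eqv ξ)).compContinuousLinearMap (fderiv ℝ (cu eqv) ξ) :=
      extDeriv_pullback (r := ∞) ((hβc ξ).differentiableAt (by simp)) hcu.contDiffAt
        (by
          rw [minSmoothness_of_isRCLikeNormedField]
          exact WithTop.coe_le_coe.2 (le_top : (2 : ℕ∞) ≤ ⊤))
    rw [h2, ContinuousAlternatingMap.compContinuousLinearMap_apply]
    congr 1
    funext i
    let R : (Fin (n + 1) → ℝ) →L[ℝ] ((P ⊕ J) × Fin 2 → ℝ) :=
      ContinuousLinearMap.pi fun a => ContinuousLinearMap.proj (eqv.symm a)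
    have h3 : HasFDerivAt (cu (P := P) (J := J) eqv) ((fderiv ℝ (cubeX (P := P) (J := J)) (R ξ)) ∘L R) ξ :=
      HasFDerivAt.comp ξ (g := cubeX (P := P) (J := J)) (f := R)
        ((contDiff_cubeX.differentiable (by simp)) (R ξ)).hasFDerivAt R.hasFDerivAt
    have h4 : R (Pi.single i 1) = Pi.single (eqv i) 1 := by
      funext a
      change (Pi.single i (1 : ℝ) : Fin (n + 1) → ℝ) (eqv.symm a) = _
      rw [Pi.single_apply, Pi.single_apply]
      simp only [Equiv.symm_apply_eq]
    rw [Function.comp_apply, h3.fderiv, ContinuousLinearMap.comp_apply, h4]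
    rfl
  simp only [h1]
  rw [integral_extDeriv_cube_of (pb (cu eqv) β) (pb_differentiableAt _ hcu β hβc)
    (pb_contDiff _ hcu β hβc)]
  -- periodicity
  have hτ : ∀ (j : J) (ξ : Fin (n + 1) → ℝ) v,
      pb (cu eqv) β (ξ + Pi.single (eqv.symm (Sum.inr j, 1)) 1) v = pb (cu eqv) β ξ v := by
    intro j ξ v
    have := pb_transf (cu eqv) hcu β id (fun _ => differentiableAt_id)
      (fun ξ => by rw [fderiv_id]; ext; simp) (Pi.single (eqv.symm (Sum.inr j, 1)) 1)
      (ContinuousLinearMap.id ℝ _) (fun ξ => cu_tau eqv j ξ) ξ v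
    simpa using this
  have hz : ∀ (p : P) (ξ : Fin (n + 1) → ℝ) v,
      pb (cu eqv) β (ξ + Pi.single (eqv.symm (Sum.inl p, 1)) 1) v = pb (cu eqv) β ξ v := by
    intro p ξ v
    have := pb_transf (cu eqv) hcu β (actX blk ((0, Pi.single p 1) : LSp P))
      (fun ξ => hact _ _ (cu_mem eqv ξ)) (fun ξ => hβ2 _ _ (cu_mem eqv ξ))
      (Pi.single (eqv.symm (Sum.inl p, 1)) 1)
      (ContinuousLinearMap.id ℝ _) (fun ξ => cu_z blk eqv p ξ) ξ v
    simpa using this
  have hy : ∀ (p : P) (ξ : Fin (n + 1) → ℝ) v,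
      pb (cu eqv) β (ξ + Pi.single (eqv.symm (Sum.inl p, 0)) 1) v =
        pb (cu eqv) β (shr blk eqv p ξ) (fun k => shr blk eqv p (v k)) := by
    intro p ξ v
    exact pb_transf (cu eqv) hcu β (actX blk ((Pi.single p 1, 0) : LSp P))
      (fun ξ => hact _ _ (cu_mem eqv ξ)) (fun ξ => hβ2 _ _ (cu_mem eqv ξ))
      (Pi.single (eqv.symm (Sum.inl p, 0)) 1) (shr blk eqv p) (fun ξ => cu_y blk eqv p ξ) ξ v
  have hins : ∀ (i : Fin (n + 1)) (η : Fin n → ℝ),
      (i.insertNth (1 : ℝ) η : Fin (n + 1) → ℝ) =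
        (i.insertNth (0 : ℝ) η : Fin (n + 1) → ℝ) + Pi.single i 1 := by
    intro i η
    ext l
    rcases eq_or_ne l i with rfl | hne
    · simp
    · obtain ⟨k, rfl⟩ := Fin.exists_succAbove_eq hne
      simp
  refine Finset.sum_eq_zero fun i _ => mul_eq_zero_of_right _ ?_
  rw [sub_eq_zero]
  obtain ⟨a, rfl⟩ := eqv.symm.surjective i
  obtain ⟨s, b⟩ := a
  rcases s with p | j
  · fin_cases b
    · -- the faces of `y_p`
      have hne0 : eqv.symm (Sum.inl p, 1) ≠ eqv.symm (Sum.inl p, 0) := by simp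
      have hne1 : eqv.symm (Sum.inr (blk p), 1) ≠ eqv.symm (Sum.inl p, 0) := by simp
      obtain ⟨k0, hk0⟩ := Fin.exists_succAbove_eq hne0
      obtain ⟨k1, hk1⟩ := Fin.exists_succAbove_eq hne1
      have hkne : k1 ≠ k0 := by
        intro h
        rw [h, hk0] at hk1
        simp at hk1
      simp only [Fin.zero_eta]
      set i := eqv.symm (Sum.inl p, 0) with hi
      set v : Fin n → (Fin (n + 1) → ℝ) := fun k => Pi.single (i.succAbove k) 1 with hv
      have e1 : ∀ η : Fin n → ℝ, shr blk eqv p (i.insertNth (0 : ℝ) η) =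
          i.insertNth (0 : ℝ) (η - Pi.single k1 (η k0)) := by
        intro η
        rw [shr_apply, ← hk0, ← hk1]
        ext l
        rcases eq_or_ne l i with rfl | hne
        · simp
        · obtain ⟨k, rfl⟩ := Fin.exists_succAbove_eq hne
          simp [Pi.single_apply]
      have e2 : (fun k => shr blk eqv p (v k)) = Function.update v k0 (v k0 - v k1) := by
        funext k
        rw [shr_apply, ← hk0, ← hk1]
        by_cases hk : k = k0
        · subst hk
          simp [hv]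
        · rw [Function.update_of_ne hk]
          simp [hv, Ne.symm hk]
      have e3 : ∀ ζ, pb (cu eqv) β ζ (Function.update v k0 (v k0 - v k1)) =
          pb (cu eqv) β ζ v := by
        intro ζ
        have e30 : pb (cu eqv) β ζ (Function.update v k0 (v k1)) = 0 := by
          refine (pb (cu eqv) β ζ).map_eq_zero_of_eq _ (i := k1) (j := k0) ?_ hkne
          rw [Function.update_of_ne hkne, Function.update_self]
        rw [ContinuousAlternatingMap.map_update_sub, Function.update_eq_self, e30, sub_zero]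
      have hy' : ∀ (ξ : Fin (n + 1) → ℝ) v, pb (cu eqv) β (ξ + Pi.single i 1) v =
          pb (cu eqv) β (shr blk eqv p ξ) (fun k => shr blk eqv p (v k)) := hy p
      simp only [hins, hy', e1, e2, e3]
      have hcont : Continuous (fun η : Fin n → ℝ => pb (cu eqv) β (i.insertNth (0 : ℝ) η) v) := by
        refine (pb_contDiff _ hcu β hβc v).continuous.comp ?_
        rw [continuous_pi_iff]
        intro l
        rcases eq_or_ne l i with rfl | hne
        · simpa using continuous_const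
        · obtain ⟨k, rfl⟩ := Fin.exists_succAbove_eq hne
          simpa using continuous_apply k
      have hper : ∀ η : Fin n → ℝ,
          pb (cu eqv) β (i.insertNth (0 : ℝ) (η + Pi.single k1 1)) v =
            pb (cu eqv) β (i.insertNth (0 : ℝ) η) v := by
        intro η
        have e4 : (i.insertNth (0 : ℝ) (η + Pi.single k1 1) : Fin (n + 1) → ℝ) =
            (i.insertNth (0 : ℝ) η : Fin (n + 1) → ℝ) +
              Pi.single (eqv.symm (Sum.inr (blk p), 1)) 1 := by
          rw [← hk1]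
          ext l
          rcases eq_or_ne l i with rfl | hne
          · simp
          · obtain ⟨k, rfl⟩ := Fin.exists_succAbove_eq hne
            simp [Pi.single_apply]
        rw [e4, hτ]
      exact integral_shear (fun η : Fin n → ℝ => pb (cu eqv) β (i.insertNth (0 : ℝ) η) v)
        hcont k1 k0 hkne hper
    · -- the faces of `z_p`
      simp only [Fin.mk_one, hins, hz]
  · fin_cases b
    · -- the faces of `s_j`
      have hne1 : eqv.symm (Sum.inr j, 1) ≠ eqv.symm (Sum.inr j, 0) := by simp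
      obtain ⟨k1, hk1⟩ := Fin.exists_succAbove_eq hne1
      simp only [Fin.zero_eta]
      have e1 : ∀ η : Fin n → ℝ, pb (cu eqv) β
          ((eqv.symm (Sum.inr j, 0)).insertNth (1 : ℝ) η)
          (fun k => Pi.single ((eqv.symm (Sum.inr j, 0)).succAbove k) 1) = 0 := by
        intro η
        refine pb_zero _ β _ _ k1 ?_
        rw [hk1]
        apply fderiv_cu_tau
        simp
      have e0 : ∀ η : Fin n → ℝ, pb (cu eqv) β
          ((eqv.symm (Sum.inr j, 0)).insertNth (0 : ℝ) η)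
          (fun k => Pi.single ((eqv.symm (Sum.inr j, 0)).succAbove k) 1) = 0 := by
        intro η
        refine pb_zero _ β _ _ k1 ?_
        rw [hk1]
        apply fderiv_cu_tau
        simp
      simp only [e0, e1]
    · -- the faces of `tau_j`
      simp only [Fin.mk_one, hins, hτ]

theorem integral_extDeriv_cubeX {n : ℕ} (eqv : Fin (n + 1) ≃ (P ⊕ J) × Fin 2)
    (β : XSp P J → XSp P J [⋀^Fin n]→L[ℝ] ℝ) (hβ : IsForm (MX (J := J) blk) β) :
    ∫ ξ in Set.Icc (0 : Fin (n + 1) → ℝ) 1,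
      extDeriv β (cubeX (fun a => ξ (eqv.symm a)))
        (fun i => fderiv ℝ (cubeX (P := P) (J := J)) (fun a => ξ (eqv.symm a))
          (Pi.single (eqv i) 1)) = 0 := by
  refine cycle_zero blk eqv β (fun x hx => ?_) (fun a x hx => hβ.2 a x hx) (fun a x hx => ?_)
  · exact (hβ.1 x hx).contDiffAt ((MX (J := J) blk).isOpen_U.mem_nhds hx)
  · exact (((MX (J := J) blk).smooth_act a x hx).contDiffAt
      ((MX (J := J) blk).isOpen_U.mem_nhds hx)).differentiableAt (by simp)

end

end Pool.Agent.HaefligerClasses
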