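import Mathlib

/-!
# Haefliger structures, their normal bundles and Chern-Weil forms

Manifolds are presented as quotients of open subsets of a finite dimensional real vector space by
free, properly discontinuous smooth actions of discrete groups (every smooth manifold is homotopy
equivalent to an open subset of a vector space, so this loses nothing for characteristic classes).
-/

namespace Pool.Agent.HaefligerClasses

open Filter Topology
open scoped ContDiff

/-- The smooth manifold `U/Λ`: `U` is an open subset of a real vector space and the discrete group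
`Λ` acts smoothly, freely and properly discontinuously on `U`. -/
structure QuotientManifold (E : Type) [NormedAddCommGroup E] [NormedSpace ℝ E]
    (Λ : Type) [AddGroup Λ] where
  /-- the covering space -/
  U : Set E
  isOpen_U : IsOpen U
  /-- the action -/
  act : Λ → E → E
  smooth_act : ∀ a, ContDiffOn ℝ ∞ (act a) U
  mapsTo : ∀ a, ∀ x ∈ U, act a x ∈ U
  act_zero : ∀ x ∈ U, act 0 x = x
  act_add : ∀ a b, ∀ x ∈ U, act (a + b) x = act a (act b x)
  free : ∀ a, ∀ x ∈ U, act a x = x → a = 0
  proper : ∀ x ∈ U, ∀ y ∈ U, ∃ V ∈ 𝓝 x, ∃ W ∈ 𝓝 y, {a | ∃ z ∈ V ∩ U, act a z ∈ W}.Finite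

section

variable {E : Type} [NormedAddCommGroup E] [NormedSpace ℝ E] {Λ : Type} [AddGroup Λ]

/-- A smooth differential `n`-form on the quotient manifold `U/Λ`: a smooth `n`-form on `U`
invariant under `Λ`. -/
def IsForm (M : QuotientManifold E Λ) {n : ℕ} (β : E → E [⋀^Fin n]→L[ℝ] ℝ) : Prop :=
  ContDiffOn ℝ ∞ β M.U ∧ ∀ a, ∀ x ∈ M.U,
    (β (M.act a x)).compContinuousLinearMap (fderiv ℝ (M.act a) x) = β x

/-- A smooth Haefliger structure on `M = U/Λ` with transversal model `V` (codimension `dim V`) and
oriented normal bundle, given by a cocycle: local maps `f i : dom i → V` and, wherever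
`x ∈ dom j` and `a x ∈ dom i`, the germ at `f j x` of an orientation preserving local
diffeomorphism `γ i a j x` of `V` that carries `f j` to `f i ∘ a` near `x`; the germs are locally
constant in `x` and satisfy the cocycle identity. -/
structure HaefligerStructure (M : QuotientManifold E Λ) (V : Type) [NormedAddCommGroup V]
    [NormedSpace ℝ V] where
  /-- index set of the cover -/
  ι : Type
  /-- the open sets of the cover -/
  dom : ι → Set E
  isOpen_dom : ∀ i, IsOpen (dom i)
  dom_subset : ∀ i, dom i ⊆ M.U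
  cover : ∀ x ∈ M.U, ∃ i, x ∈ dom i
  /-- the local maps to the transversal -/
  f : ι → E → V
  smooth_f : ∀ i, ContDiffOn ℝ ∞ (f i) (dom i)
  /-- the transition germs -/
  γ : ι → Λ → ι → E → V → V
  smooth_γ : ∀ i a j x, x ∈ dom j → M.act a x ∈ dom i → ContDiffAt ℝ ∞ (γ i a j x) (f j x)
  orient_γ : ∀ i a j x, x ∈ dom j → M.act a x ∈ dom i → 0 < (fderiv ℝ (γ i a j x) (f j x)).det
  map_γ : ∀ i a j x, x ∈ dom j → M.act a x ∈ dom i →
    ∀ᶠ y in 𝓝 x, γ i a j x (f j y) = f i (M.act a y)
  locConst_γ : ∀ i a j x, x ∈ dom j → M.act a x ∈ dom i →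
    ∀ᶠ y in 𝓝 x, γ i a j y =ᶠ[𝓝 (f j y)] γ i a j x
  comp_γ : ∀ i a j b k x, x ∈ dom k → M.act b x ∈ dom j → M.act a (M.act b x) ∈ dom i →
    (fun v => γ i a j (M.act b x) (γ j b k x v)) =ᶠ[𝓝 (f k x)] γ i (a + b) k x

variable {M : QuotientManifold E Λ} {V : Type} [NormedAddCommGroup V] [NormedSpace ℝ V]

/-- The cocycle of the normal bundle: the derivatives of the transition germs. -/
noncomputable def HaefligerStructure.normal (H : HaefligerStructure M V) (i : H.ι) (a : Λ)
    (j : H.ι) (x : E) : V →L[ℝ] V :=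
  fderiv ℝ (H.γ i a j x) (H.f j x)

/-- A smooth connection on the normal bundle of a Haefliger structure: local connection forms
`form i` with values in `End V`, related by the gauge rule
`(form i)(a x) A = A (form j)(x) - dA`, where `A` is the cocycle of the normal bundle. -/
structure NormalConnection (H : HaefligerStructure M V) where
  /-- the local connection forms -/
  form : H.ι → E → E →L[ℝ] (V →L[ℝ] V)
  smooth_form : ∀ i, ContDiffOn ℝ ∞ (form i) (H.dom i)
  compat : ∀ i a j x, x ∈ H.dom j → M.act a x ∈ H.dom i → ∀ u : E,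
    (form i (M.act a x) (fderiv ℝ (M.act a) x u)) ∘L H.normal i a j x =
      H.normal i a j x ∘L form j x u - fderiv ℝ (fun y => H.normal i a j y) x u

/-- The curvature of a matrix valued connection form. -/
noncomputable def curvature (α : E → E →L[ℝ] (V →L[ℝ] V)) (x : E) (u w : E) : V →L[ℝ] V :=
  fderiv ℝ α x u w - fderiv ℝ α x w u + (α x u ∘L α x w - α x w ∘L α x u)

end

/-- An element of `I^d(GL(V))`: a symmetric `d`-linear form on `End V`, invariant under conjugation
by every invertible linear map. -/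
structure InvariantForm (V : Type) [NormedAddCommGroup V] [NormedSpace ℝ V] (d : ℕ) where
  /-- the multilinear form -/
  toFun : MultilinearMap ℝ (fun _ : Fin d => V →L[ℝ] V) ℝ
  symm : ∀ (σ : Equiv.Perm (Fin d)) (X : Fin d → V →L[ℝ] V),
    toFun (fun s => X (σ s)) = toFun X
  conj : ∀ (g : V ≃L[ℝ] V) (X : Fin d → V →L[ℝ] V),
    toFun (fun s => (g : V →L[ℝ] V) ∘L X s ∘L (g.symm : V →L[ℝ] V)) = toFun X

section

variable {E : Type} [NormedAddCommGroup E] [NormedSpace ℝ E] {Λ : Type} [AddGroup Λ]
variable {M : QuotientManifold E Λ} {V : Type} [NormedAddCommGroup V] [NormedSpace ℝ V]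

/-- The value of the Chern-Weil `2d`-form `F(R, ..., R)` of an `End V`-valued `2`-form `R` on the
vectors `u`. -/
noncomputable def chernWeil {d : ℕ} (F : InvariantForm V d) (R : E → E → V →L[ℝ] V)
    (u : Fin (2 * d) → E) : ℝ :=
  ∑ σ : Equiv.Perm (Fin (2 * d)), (Equiv.Perm.sign σ : ℤ) •
    F.toFun (fun s : Fin d => R (u (σ ⟨2 * s.1, by omega⟩)) (u (σ ⟨2 * s.1 + 1, by omega⟩)))

/-- The Chern-Weil form `F(Ω)` of the normal connection is exact on the manifold `M`. -/
def ChernWeilExact {H : HaefligerStructure M V} (c : NormalConnection H) {e : ℕ}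
    (F : InvariantForm V (e + 1)) : Prop :=
  ∃ β : E → E [⋀^Fin (2 * e + 1)]→L[ℝ] ℝ, IsForm M β ∧
    ∀ i, ∀ x ∈ H.dom i, ∀ u : Fin (2 * e + 1 + 1) → E,
      extDeriv β x u = chernWeil F (curvature (c.form i) x) u

end

/-- The characteristic class of `F` vanishes on (the normal bundles of) all smooth Haefliger
structures with transversal model `V` and oriented normal bundle. -/
def VanishesOnHaefliger {V : Type} [NormedAddCommGroup V] [NormedSpace ℝ V] {e : ℕ}
    (F : InvariantForm V (e + 1)) : Prop :=
  ∀ (E : Type) (_ : NormedAddCommGroup E) (_ : NormedSpace ℝ E) (_ : FiniteDimensional ℝ E)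
    (Λ : Type) (_ : AddGroup Λ) (M : QuotientManifold E Λ) (H : HaefligerStructure M V)
    (c : NormalConnection H), ChernWeilExact c F

/-- The element of the Lie algebra of the standard maximal torus of `SO(q)` which rotates the
plane with coordinates `2j, 2j+1` with speed `x j`. -/
noncomputable def torusMatrix (q : ℕ) (x : Fin (q / 2) → ℝ) : Matrix (Fin q) (Fin q) ℝ :=
  Matrix.of fun r c =>
    if h : r.1 % 2 = 1 ∧ r.1 = c.1 + 1 then x ⟨c.1 / 2, by omega⟩
    else if h : c.1 % 2 = 1 ∧ c.1 = r.1 + 1 then - x ⟨r.1 / 2, by omega⟩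
    else 0

/-- The same as a continuous linear map. -/
noncomputable def torusElement (q : ℕ) (x : Fin (q / 2) → ℝ) :
    (Fin q → ℝ) →L[ℝ] (Fin q → ℝ) :=
  LinearMap.toContinuousLinearMap (Matrix.toLin' (torusMatrix q x))

/-- The first statement to be proved. -/
def MainStatement : Prop :=
  ∀ (q e : ℕ) (F : InvariantForm (Fin q → ℝ) (e + 1)) (x : Fin (q / 2) → ℝ),
    F.toFun (fun _ => torusElement q x) ≠ 0 →
    (3 * (e + 1) ≤ 2 * q ∨ (Finset.univ.filter fun j => x j ≠ 0).card + (e + 1) ≤ q) →
    ¬ VanishesOnHaefliger F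

end Pool.Agent.HaefligerClasses
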