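import Pool.Agent.HaefligerClasses.Alpha
import Pool.Agent.HaefligerClasses.Algebra

/-!
# The connection on the normal bundle: smoothness and gauge rule
-/

namespace Pool.Agent.HaefligerClasses

open Filter Topology
open scoped ContDiff

section

variable {P J K : Type} [Fintype P] [Fintype J] [Fintype K] [DecidableEq P] [DecidableEq J]
  (blk : P → J)

/-! ### smoothness -/

theorem contDiffAt_alphaX (b : Bool) (j : J) (x : XSp P J)
    (hx : chartDom b (x.2.2.1 j) (x.2.2.2 j)) :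
    ContDiffAt ℝ ∞ (alphaX blk b j : XSp P J → (XSp P J →L[ℝ] ℂ)) x := by
  have hg := contDiffAt_gX b j x hx
  have hh := contDiffAt_hX b j x hx
  have hd : ContDiffAt ℝ ∞ (fderiv ℝ (gX b j : XSp P J → ℂ)) x := hg.fderiv_right (by simp)
  have hc : ContDiffAt ℝ ∞ (fun y : XSp P J => (starRingEnd ℂ) (gX b j y)) x :=
    Complex.conjCLE.contDiff.contDiffAt.comp x hg
  have hn : ContDiffAt ℝ ∞ (fun y : XSp P J => ((1 + Complex.normSq (gX b j y) : ℝ) : ℂ)) x := by
    have h1 : ContDiffAt ℝ ∞ (fun y : XSp P J => 1 + (starRingEnd ℂ) (gX b j y) * gX b j y) x :=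
      contDiffAt_const.add (hc.mul hg)
    have h2 : (fun y : XSp P J => ((1 + Complex.normSq (gX b j y) : ℝ) : ℂ)) =
        fun y : XSp P J => 1 + (starRingEnd ℂ) (gX b j y) * gX b j y := by
      funext y
      push_cast
      rw [Complex.normSq_eq_conj_mul_self]
    rw [h2]
    exact h1
  have hne : ((1 + Complex.normSq (gX b j x) : ℝ) : ℂ) ≠ 0 := by
    have : (1 + Complex.normSq (gX b j x) : ℝ) ≠ 0 := by
      have := Complex.normSq_nonneg (gX b j x)
      positivity
    exact_mod_cast this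
  unfold alphaX
  refine ContDiffAt.sub ?_ ?_
  · refine ContDiffAt.sum fun p _ => ?_
    by_cases hp : blk p = j
    · simp only [hp, if_true]
      refine ContDiffAt.smul (f := fun y : XSp P J => -(2 * Real.pi * Complex.I) *
        ((2 - hX b j y : ℝ) : ℂ) * ((y.1 p : ℝ) : ℂ)) ?_ contDiffAt_const
      refine (contDiffAt_const.mul ?_).mul ?_
      · exact Complex.ofRealCLM.contDiff.contDiffAt.comp x
          ((contDiffAt_const (c := (2 : ℝ))).sub hh)
      · refine Complex.ofRealCLM.contDiff.contDiffAt.comp x ?_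
        fun_prop
    · simp only [hp, if_false]
      exact contDiffAt_const
  · have h3 : ContDiffAt ℝ ∞ (fun y : XSp P J => 3 * (starRingEnd ℂ) (gX b j y) /
        ((1 + Complex.normSq (gX b j y) : ℝ) : ℂ)) x := by
      have h4 : ContDiffAt ℝ ∞ (fun y : XSp P J =>
          (((1 + Complex.normSq (gX b j y) : ℝ) : ℂ))⁻¹) x := hn.inv hne
      exact (contDiffAt_const.mul hc).mul h4
    exact h3.smul hd

theorem contDiffAt_betaX (b : Bool) (p : P) (x : XSp P J)
    (hx : chartDom b (x.2.2.1 (blk p)) (x.2.2.2 (blk p))) :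
    ContDiffAt ℝ ∞ (betaX blk b p : XSp P J → (XSp P J →L[ℝ] ℂ)) x := by
  have hw := contDiffAt_wX b (blk p) x hx
  have hd : ContDiffAt ℝ ∞ (fderiv ℝ (wX b (blk p) : XSp P J → ℂ)) x :=
    hw.fderiv_right (by simp)
  have ha := contDiffAt_alphaX blk b (blk p) x hx
  have hy : ContDiffAt ℝ ∞ (fun y : XSp P J => ((y.1 p : ℝ) : ℂ)) x := by
    refine Complex.ofRealCLM.contDiff.contDiffAt.comp x ?_
    fun_prop
  unfold betaX
  refine ContDiffAt.sub (ContDiffAt.sub ?_ ?_) ?_
  · exact (((contDiffAt_const.mul hw).mul hy).neg).smul ha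
  · exact (contDiffAt_const.mul hy).smul hd
  · exact (contDiffAt_const.mul hw).smul contDiffAt_const

theorem formX_smooth (ε : J → Bool) : ContDiffOn ℝ ∞ (formX blk K ε) (domX ε) := by
  intro x hx
  refine ContDiffAt.contDiffWithinAt ?_
  unfold formX
  refine ContDiffAt.add ?_ ?_
  · refine ContDiffAt.sum fun j _ => ?_
    exact contDiffAt_const.clm_comp (contDiffAt_alphaX blk (ε j) j x (hx j))
  · refine ContDiffAt.sum fun p _ => ?_
    exact contDiffAt_const.clm_comp (contDiffAt_betaX blk (ε (blk p)) p x (hx (blk p)))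

/-! ### the gauge rule -/

theorem formX_eq_blk12 (ε : J → Bool) (x u : XSp P J) :
    formX blk K ε x u = blk12 blk K (fun j => alphaX blk (ε j) j x u)
      (fun p => betaX blk (ε (blk p)) p x u) := by
  unfold formX blk12
  rw [_root_.add_apply, _root_.sum_apply, _root_.sum_apply]
  rfl

/-- the off diagonal entry of the normal cocycle -/
noncomputable def nuX (ε : J → Bool) (a : LSp P) (p : P) (x : XSp P J) : ℂ :=
  Complex.I * (2 * Real.pi * (mu (ε (blk p)) : ℂ)) * ((a.1 p : ℝ) : ℂ) *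
    wX (ε (blk p)) (blk p) (actX blk a x)

theorem normX_eq_blk12 (ε : J → Bool) (a : LSp P) (ε' : J → Bool) (x : XSp P J) :
    normX blk K ε a ε' x = ContinuousLinearMap.id ℝ (QSp P J K) +
      blk12 blk K (fun j => cC (ε j) (ε' j) (ang blk a.1 x.2.1 j)
        (gB (x.2.2.1 j) (x.2.2.2 j)) - 1) (fun p => nuX blk ε a p x) := by
  unfold normX blk12 nuX
  rw [add_assoc]

theorem hasFDerivAt_blk12 {E : Type} [NormedAddCommGroup E] [NormedSpace ℝ E]
    {α : J → E → ℂ} {β : P → E → ℂ} {α' : J → E →L[ℝ] ℂ} {β' : P → E →L[ℝ] ℂ} {x : E}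
    (hα : ∀ j, HasFDerivAt (α j) (α' j) x) (hβ : ∀ p, HasFDerivAt (β p) (β' p) x) :
    HasFDerivAt (fun y => blk12 blk K (fun j => α j y) (fun p => β p y))
      ((∑ j, B1 P K j ∘L α' j) + ∑ p, B2 blk K p ∘L β' p) x := by
  unfold blk12
  refine HasFDerivAt.add ?_ ?_
  · refine HasFDerivAt.fun_sum fun j _ => ?_
    exact (B1 P K j).hasFDerivAt.comp x (hα j)
  · refine HasFDerivAt.fun_sum fun p _ => ?_
    exact (B2 blk K p).hasFDerivAt.comp x (hβ p)

theorem fderiv_normX (ε : J → Bool) (a : LSp P) (ε' : J → Bool) (x : XSp P J)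
    (hx : x ∈ domX ε') (hx' : actX blk a x ∈ domX ε) (u : XSp P J) :
    fderiv ℝ (fun y => (normX blk K ε a ε' y : QSp P J K →L[ℝ] QSp P J K)) x u =
      blk12 blk K (fun j => fderiv ℝ (fun y : XSp P J =>
          cC (ε j) (ε' j) (ang blk a.1 y.2.1 j) (gB (y.2.2.1 j) (y.2.2.2 j))) x u)
        (fun p => fderiv ℝ (nuX blk ε a p) x u) := by
  have hx1 : ∀ j, chartDom (ε j) (x.2.2.1 j) (x.2.2.2 j) := by
    intro j
    have := hx' j
    unfold actX at this
    exact (chartDom_rot (ε j) _ _ _).1 this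
  have hC : ∀ j, HasFDerivAt (fun y : XSp P J =>
      cC (ε j) (ε' j) (ang blk a.1 y.2.1 j) (gB (y.2.2.1 j) (y.2.2.2 j)) - 1)
      (fderiv ℝ (fun y : XSp P J =>
        cC (ε j) (ε' j) (ang blk a.1 y.2.1 j) (gB (y.2.2.1 j) (y.2.2.2 j))) x) x := by
    intro j
    have h := (hasFDerivAt_cC blk (ε j) (ε' j) a j x (hx j) (hx1 j)).differentiableAt
    exact h.hasFDerivAt.sub_const 1
  have hn : ∀ p, HasFDerivAt (nuX blk ε a p) (fderiv ℝ (nuX blk ε a p) x) x := by
    intro p
    have hw : DifferentiableAt ℝ (wX (ε (blk p)) (blk p) : XSp P J → ℂ) (actX blk a x) :=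
      (contDiffAt_wX (ε (blk p)) (blk p) _ (hx' (blk p))).differentiableAt (by simp)
    have h2 : DifferentiableAt ℝ (fun y : XSp P J => wX (ε (blk p)) (blk p) (actX blk a y)) x :=
      hw.comp x (differentiableAt_actX blk a x)
    have h3 : DifferentiableAt ℝ (nuX blk ε a p) x := by
      unfold nuX
      exact h2.const_mul _
    exact h3.hasFDerivAt
  have e : (fun y => (normX blk K ε a ε' y : QSp P J K →L[ℝ] QSp P J K)) =
      fun y => ContinuousLinearMap.id ℝ (QSp P J K) + blk12 blk K (fun j =>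
        cC (ε j) (ε' j) (ang blk a.1 y.2.1 j) (gB (y.2.2.1 j) (y.2.2.2 j)) - 1)
        (fun p => nuX blk ε a p y) := by
    funext y
    exact normX_eq_blk12 blk ε a ε' y
  rw [e, ((hasFDerivAt_blk12 (K := K) blk hC hn).const_add _).fderiv]
  rw [_root_.add_apply, _root_.sum_apply, _root_.sum_apply]
  rfl

theorem fderiv_wX_act (b : Bool) (a : LSp P) (j : J) (x : XSp P J)
    (hx : chartDom b (x.2.2.1 j) (x.2.2.2 j)) (u : XSp P J) :
    fderiv ℝ (fun y : XSp P J => wX b j (actX blk a y)) x u =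
      fderiv ℝ (wX b j : XSp P J → ℂ) (actX blk a x) (fderiv ℝ (actX blk a) x u) := by
  have hw : DifferentiableAt ℝ (wX b j : XSp P J → ℂ) (actX blk a x) :=
    (contDiffAt_wX b j _ (actX_dom blk b a j x hx)).differentiableAt (by simp)
  have h := fderiv_comp x hw (differentiableAt_actX blk a x)
  have e : (wX b j : XSp P J → ℂ) ∘ actX blk a = fun y : XSp P J => wX b j (actX blk a y) := rfl
  rw [e] at h
  rw [h]
  rfl

/-- the derivative of `mu_wX` -/
theorem mu_wX_deriv (b b' : Bool) (a : LSp P) (j : J) (x : XSp P J)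
    (hx : chartDom b' (x.2.2.1 j) (x.2.2.2 j)) (hx' : chartDom b (x.2.2.1 j) (x.2.2.2 j))
    (u : XSp P J) :
    (mu b' : ℂ) * (wX b' j x * fderiv ℝ (fun y : XSp P J =>
          cC b b' (ang blk a.1 y.2.1 j) (gB (y.2.2.1 j) (y.2.2.2 j))) x u +
        cC b b' (ang blk a.1 x.2.1 j) (gB (x.2.2.1 j) (x.2.2.2 j)) *
          fderiv ℝ (wX b' j : XSp P J → ℂ) x u) =
      (mu b : ℂ) * fderiv ℝ (wX b j : XSp P J → ℂ) (actX blk a x)
        (fderiv ℝ (actX blk a) x u) := by
  have hopen : ∀ᶠ y : XSp P J in 𝓝 x, chartDom b' (y.2.2.1 j) (y.2.2.2 j) ∧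
      chartDom b (y.2.2.1 j) (y.2.2.2 j) := by
    have hc : ContinuousAt (fun y : XSp P J => ((y.2.2.1 j, y.2.2.2 j) : ℂ × ℝ)) x := by
      fun_prop
    exact (hc.eventually ((isOpen_chartDom b').mem_nhds hx)).and
      (hc.eventually ((isOpen_chartDom b).mem_nhds hx'))
  have hC : DifferentiableAt ℝ (fun y : XSp P J =>
      cC b b' (ang blk a.1 y.2.1 j) (gB (y.2.2.1 j) (y.2.2.2 j))) x :=
    (hasFDerivAt_cC blk b b' a j x hx hx').differentiableAt
  have hw : DifferentiableAt ℝ (wX b' j : XSp P J → ℂ) x :=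
    (contDiffAt_wX b' j _ hx).differentiableAt (by simp)
  have hw' : DifferentiableAt ℝ (fun y : XSp P J => wX b j (actX blk a y)) x := by
    have h : DifferentiableAt ℝ (wX b j : XSp P J → ℂ) (actX blk a x) :=
      (contDiffAt_wX b j _ (actX_dom blk b a j x hx')).differentiableAt (by simp)
    exact h.comp x (differentiableAt_actX blk a x)
  have h1 := (hw.hasFDerivAt.mul hC.hasFDerivAt).const_mul (mu b' : ℂ)
  have h2 := hw'.hasFDerivAt.const_mul (mu b : ℂ)
  have h3 : HasFDerivAt (fun y : XSp P J => (mu b' : ℂ) * (wX b' j y *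
      cC b b' (ang blk a.1 y.2.1 j) (gB (y.2.2.1 j) (y.2.2.2 j))))
      ((mu b : ℂ) • fderiv ℝ (fun y : XSp P J => wX b j (actX blk a y)) x) x := by
    refine h2.congr_of_eventuallyEq ?_
    filter_upwards [hopen] with y hy
    rw [← mul_assoc]
    exact mu_wX blk b b' a j y hy.1 hy.2
  have h4 := congrArg (fun L : XSp P J →L[ℝ] ℂ => L u) (h1.unique h3)
  simp only [_root_.add_apply, _root_.smul_apply, smul_eq_mul] at h4
  rw [← fderiv_wX_act blk b a j x hx' u]
  exact h4

theorem betaX_apply (b : Bool) (p : P) (x u : XSp P J) :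
    betaX blk b p x u =
      -(Complex.I * (2 * Real.pi * (mu b : ℂ)) * wX b (blk p) x * ((x.1 p : ℝ) : ℂ)) *
        alphaX blk b (blk p) x u
      - (Complex.I * (2 * Real.pi * (mu b : ℂ)) * ((x.1 p : ℝ) : ℂ)) *
        fderiv ℝ (wX b (blk p)) x u
      - (Complex.I * (2 * Real.pi * (mu b : ℂ)) * wX b (blk p) x) * ((u.1 p : ℝ) : ℂ) := by
  unfold betaX
  simp only [_root_.sub_apply, _root_.smul_apply, smul_eq_mul, dyC_apply]

theorem formX_compat (ε : J → Bool) (a : LSp P) (ε' : J → Bool) (x : XSp P J)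
    (hx : x ∈ domX ε') (hx' : actX blk a x ∈ domX ε) (u : XSp P J) :
    (formX blk K ε (actX blk a x) (fderiv ℝ (actX blk a) x u)) ∘L normX blk K ε a ε' x =
      normX blk K ε a ε' x ∘L formX blk K ε' x u -
        fderiv ℝ (fun y => normX blk K ε a ε' y) x u := by
  have hx1 : ∀ j, chartDom (ε j) (x.2.2.1 j) (x.2.2.2 j) := by
    intro j
    have := hx' j
    unfold actX at this
    exact (chartDom_rot (ε j) _ _ _).1 this
  rw [fderiv_normX blk ε a ε' x hx hx' u, normX_eq_blk12, formX_eq_blk12, formX_eq_blk12,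
    ContinuousLinearMap.comp_add, ContinuousLinearMap.add_comp, ContinuousLinearMap.comp_id,
    ContinuousLinearMap.id_comp, blk12_comp, blk12_comp, blk12_add, blk12_add, blk12_sub]
  congr 1
  · funext j
    have h := alphaX_transf blk (ε j) (ε' j) a j x (hx j) (hx1 j) u
    linear_combination h
  · funext p
    have h1 := alphaX_transf blk (ε (blk p)) (ε' (blk p)) a (blk p) x (hx _) (hx1 _) u
    have h2 := mu_wX blk (ε (blk p)) (ε' (blk p)) a (blk p) x (hx _) (hx1 _)
    have h3 := mu_wX_deriv blk (ε (blk p)) (ε' (blk p)) a (blk p) x (hx _) (hx1 _) u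
    have h4 : fderiv ℝ (nuX blk ε a p) x u =
        Complex.I * (2 * Real.pi * (mu (ε (blk p)) : ℂ)) * ((a.1 p : ℝ) : ℂ) *
          fderiv ℝ (wX (ε (blk p)) (blk p) : XSp P J → ℂ) (actX blk a x)
            (fderiv ℝ (actX blk a) x u) := by
      have hw' : DifferentiableAt ℝ (fun y : XSp P J =>
          wX (ε (blk p)) (blk p) (actX blk a y)) x := by
        have h : DifferentiableAt ℝ (wX (ε (blk p)) (blk p) : XSp P J → ℂ) (actX blk a x) :=
          (contDiffAt_wX (ε (blk p)) (blk p) _ (hx' _)).differentiableAt (by simp)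
        exact h.comp x (differentiableAt_actX blk a x)
      rw [← fderiv_wX_act blk (ε (blk p)) a (blk p) x (hx1 _) u]
      have e := (hw'.hasFDerivAt.const_mul (Complex.I * (2 * Real.pi *
        (mu (ε (blk p)) : ℂ)) * ((a.1 p : ℝ) : ℂ))).fderiv
      have e2 := congrArg (fun L : XSp P J →L[ℝ] ℂ => L u) e
      simp only [_root_.smul_apply, smul_eq_mul] at e2
      exact e2
    rw [h4, betaX_apply, betaX_apply, fderiv_actX_fst]
    have h5 : (((actX blk a x).1 p : ℝ) : ℂ) = ((x.1 p : ℝ) : ℂ) + ((a.1 p : ℝ) : ℂ) := by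
      unfold actX
      push_cast
      rfl
    rw [h5]
    unfold nuX
    set A := alphaX blk (ε (blk p)) (blk p) (actX blk a x) (fderiv ℝ (actX blk a) x u)
    set A' := alphaX blk (ε' (blk p)) (blk p) x u
    set C := cC (ε (blk p)) (ε' (blk p)) (ang blk a.1 x.2.1 (blk p))
      (gB (x.2.2.1 (blk p)) (x.2.2.2 (blk p)))
    set dC := fderiv ℝ (fun y : XSp P J => cC (ε (blk p)) (ε' (blk p))
      (ang blk a.1 y.2.1 (blk p)) (gB (y.2.2.1 (blk p)) (y.2.2.2 (blk p)))) x u
    set W := wX (ε (blk p)) (blk p) (actX blk a x)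
    set W' := wX (ε' (blk p)) (blk p) x
    set dW := fderiv ℝ (wX (ε (blk p)) (blk p) : XSp P J → ℂ) (actX blk a x)
            (fderiv ℝ (actX blk a) x u)
    set dW' := fderiv ℝ (wX (ε' (blk p)) (blk p) : XSp P J → ℂ) x u
    set m := (mu (ε (blk p)) : ℂ)
    set m' := (mu (ε' (blk p)) : ℂ)
    set y := ((x.1 p : ℝ) : ℂ)
    set dy := ((u.1 p : ℝ) : ℂ)
    set k := ((a.1 p : ℝ) : ℂ)
    -- h1 : A * C = C * A' - dC;  h2 : m' * W' * C = m * W
    -- h3 : m' * (W' * dC + C * dW') = m * dW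
    linear_combination (-(Complex.I * 2 * Real.pi * y * m' * W')) * h1 +
      (Complex.I * 2 * Real.pi * (y * A + dy)) * h2 + (Complex.I * 2 * Real.pi * y) * h3

end

end Pool.Agent.HaefligerClasses
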