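import Pool.Agent.HaefligerClasses.NonExact
import Pool.Agent.HaefligerClasses.Comb

/-!
# The main statement
-/

namespace Pool.Agent.HaefligerClasses

theorem main : MainStatement := by
  intro q e F x hx h hv
  obtain ⟨P, J, K, _, _, _, _, _, blk, slot, L, hne⟩ := exists_model q e F x hx h
  exact not_exact blk slot K (F.map L) hne
    (vanishes_map L F hv (XSp P J) _ _ inferInstance (LSp P) _ (MX blk) (HX blk K) (cX blk K))

end Pool.Agent.HaefligerClasses
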