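import Pool.Agent.HaefligerClasses.Defs

/-!
# The model: data of the example

`P` indexes the pairs of torus directions, `J` the sphere factors, `K` the trivial directions,
`blk p` is the sphere factor on which the torus pair `p` acts.
-/

namespace Pool.Agent.HaefligerClasses

open Filter Topology
open scoped ContDiff

/-! ### the sphere -/

/-- distance to the origin in `ℂ × ℝ` -/
noncomputable def rad (v : ℂ) (t : ℝ) : ℝ := Real.sqrt (Complex.normSq v + t ^ 2)

/-- stereographic coordinate away from the half line `v = 0, t ≥ 0` -/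
noncomputable def gA (v : ℂ) (t : ℝ) : ℂ := v / ((rad v t - t : ℝ) : ℂ)

/-- stereographic coordinate away from the half line `v = 0, t ≤ 0`; the inverse of `gA` -/
noncomputable def gB (v : ℂ) (t : ℝ) : ℂ := (starRingEnd ℂ) v / ((rad v t + t : ℝ) : ℂ)

/-- chart coordinate -/
noncomputable def gC (b : Bool) (v : ℂ) (t : ℝ) : ℂ := if b then gA v t else gB v t

/-- chart map to the transversal: `gA ^ 2` or `gB` -/
noncomputable def wC (b : Bool) (v : ℂ) (t : ℝ) : ℂ := if b then gA v t ^ 2 else gB v t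

/-- the domain of the chart `b` -/
def chartDom (b : Bool) (v : ℂ) (t : ℝ) : Prop := if b then t < rad v t else - t < rad v t

/-- the multiplicity -/
def mu (b : Bool) : ℤ := if b then 2 else -1

/-- transition function of the transversal coordinate: target chart `b`, source chart `b'`, angle
`θ`, `g₀` the value of `gB` at the base point -/
noncomputable def trC (b b' : Bool) (θ : ℝ) (g₀ w : ℂ) : ℂ :=
  match b, b' with
  | true, true => Complex.exp (2 * θ * Complex.I) * w
  | false, false => Complex.exp (-θ * Complex.I) * w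
  | true, false => Complex.exp (2 * θ * Complex.I) * (w ^ 2)⁻¹
  | false, true => Complex.exp (-θ * Complex.I) *
      (g₀ * Complex.exp (-(1 / 2) * Complex.log (w * g₀ ^ 2)))

/-- The function `h` on the sphere, in the chart `b`. -/
noncomputable def hC (b : Bool) (v : ℂ) (t : ℝ) : ℝ :=
  if b then 3 * Complex.normSq (gA v t) / (1 + Complex.normSq (gA v t))
  else 3 / (1 + Complex.normSq (gB v t))

section

variable {P J K : Type} [Fintype P] [Fintype J] [Fintype K] [DecidableEq P] [DecidableEq J]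
  [DecidableEq K] (blk : P → J)

/-- the covering vector space: coordinates `y, z, v, t` -/
abbrev XSp (P J : Type) := (P → ℝ) × (P → ℝ) × (J → ℂ) × (J → ℝ)

/-- the transversal: coordinates `z, w, s` -/
abbrev QSp (P J K : Type) := (P → ℝ) × (J → ℂ) × (K → ℝ)

/-- the group -/
abbrev LSp (P : Type) := (P → ℤ) × (P → ℤ)

/-- the rotation angle `2 π ∑ a p * z p` of the factor `j` -/
noncomputable def ang (a : P → ℤ) (z : P → ℝ) (j : J) : ℝ :=
  2 * Real.pi * ∑ p, if blk p = j then (a p : ℝ) * z p else 0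

/-- the action of the group -/
noncomputable def actX (a : LSp P) (x : XSp P J) : XSp P J :=
  (fun p => x.1 p + a.1 p, fun p => x.2.1 p + a.2 p,
    fun j => Complex.exp (ang blk a.1 x.2.1 j * Complex.I) * x.2.2.1 j, x.2.2.2)

/-- the open set -/
def UX (P J : Type) : Set (XSp P J) := {x | ∀ j, x.2.2.1 j ≠ 0 ∨ x.2.2.2 j ≠ 0}

/-- chart domains -/
def domX (ε : J → Bool) : Set (XSp P J) := {x | ∀ j, chartDom (ε j) (x.2.2.1 j) (x.2.2.2 j)}

/-- chart maps -/
noncomputable def fX (K : Type) (ε : J → Bool) (x : XSp P J) : QSp P J K :=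
  (x.2.1, fun j => wC (ε j) (x.2.2.1 j) (x.2.2.2 j), 0)

/-- transition germs -/
noncomputable def gamX (ε : J → Bool) (a : LSp P) (ε' : J → Bool) (x : XSp P J)
    (q : QSp P J K) : QSp P J K :=
  (fun p => q.1 p + a.2 p,
    fun j => trC (ε j) (ε' j) (ang blk a.1 q.1 j) (gB (x.2.2.1 j) (x.2.2.2 j)) (q.2.1 j), q.2.2)

/-! ### the connection -/

/-- coordinate `w_j` of the transversal -/
noncomputable def projJ (P K : Type) [Fintype P] [Fintype K] (j : J) : QSp P J K →L[ℝ] ℂ :=
  (ContinuousLinearMap.proj j) ∘L (ContinuousLinearMap.fst ℝ (J → ℂ) (K → ℝ)) ∘L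
    (ContinuousLinearMap.snd ℝ (P → ℝ) ((J → ℂ) × (K → ℝ)))

/-- inclusion of the `j`-th plane in the transversal -/
noncomputable def injJ (P K : Type) [Fintype P] [Fintype K] (j : J) : ℂ →L[ℝ] QSp P J K :=
  (ContinuousLinearMap.inr ℝ (P → ℝ) ((J → ℂ) × (K → ℝ))) ∘L
    (ContinuousLinearMap.inl ℝ (J → ℂ) (K → ℝ)) ∘L
    (ContinuousLinearMap.single ℝ (fun _ : J => ℂ) j)

/-- coordinate `z_p` of the transversal -/
noncomputable def projP (J K : Type) [Fintype J] [Fintype K] (p : P) : QSp P J K →L[ℝ] ℝ :=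
  (ContinuousLinearMap.proj p) ∘L (ContinuousLinearMap.fst ℝ (P → ℝ) ((J → ℂ) × (K → ℝ)))

/-- `c ↦ (q ↦ (0, c * q_j, 0))` -/
noncomputable def B1 (P K : Type) [Fintype P] [Fintype K] (j : J) :
    ℂ →L[ℝ] (QSp P J K →L[ℝ] QSp P J K) :=
  (ContinuousLinearMap.compL ℝ (QSp P J K) ℂ (QSp P J K) (injJ P K j)) ∘L
    ((ContinuousLinearMap.compL ℝ (QSp P J K) ℂ ℂ).flip (projJ P K j)) ∘L
    (ContinuousLinearMap.mul ℝ ℂ)

/-- `c ↦ (q ↦ (0, z_p c in the plane blk p, 0))` -/
noncomputable def B2 (K : Type) [Fintype K] (p : P) :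
    ℂ →L[ℝ] (QSp P J K →L[ℝ] QSp P J K) :=
  (ContinuousLinearMap.compL ℝ (QSp P J K) ℂ (QSp P J K) (injJ P K (blk p))) ∘L
    (ContinuousLinearMap.smulRightL ℝ (QSp P J K) ℂ (projP J K p))

/-- coordinate `y_p` on the covering space, complex valued -/
noncomputable def dyC (J : Type) [Fintype J] (p : P) : XSp P J →L[ℝ] ℂ :=
  Complex.ofRealCLM ∘L (ContinuousLinearMap.proj p) ∘L
    (ContinuousLinearMap.fst ℝ (P → ℝ) ((P → ℝ) × (J → ℂ) × (J → ℝ)))

/-- coordinate `z_p` on the covering space, complex valued -/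
noncomputable def dzC (J : Type) [Fintype J] (p : P) : XSp P J →L[ℝ] ℂ :=
  Complex.ofRealCLM ∘L (ContinuousLinearMap.proj p) ∘L
    (ContinuousLinearMap.fst ℝ (P → ℝ) ((J → ℂ) × (J → ℝ))) ∘L
    (ContinuousLinearMap.snd ℝ (P → ℝ) ((P → ℝ) × (J → ℂ) × (J → ℝ)))

/-- the chart coordinate as a function on the covering space -/
noncomputable def gX (b : Bool) (j : J) (x : XSp P J) : ℂ := gC b (x.2.2.1 j) (x.2.2.2 j)

/-- the transversal coordinate as a function on the covering space -/
noncomputable def wX (b : Bool) (j : J) (x : XSp P J) : ℂ := wC b (x.2.2.1 j) (x.2.2.2 j)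

/-- the function `h` on the covering space -/
noncomputable def hX (b : Bool) (j : J) (x : XSp P J) : ℝ := hC b (x.2.2.1 j) (x.2.2.2 j)

/-- the connection form of the `j`-th line bundle in the chart `b` -/
noncomputable def alphaX (b : Bool) (j : J) (x : XSp P J) : XSp P J →L[ℝ] ℂ :=
  (∑ p, if blk p = j then
      (-(2 * Real.pi * Complex.I) * ((2 - hX b j x : ℝ) : ℂ) * ((x.1 p : ℝ) : ℂ)) • dzC J p
    else 0)
  - (3 * (starRingEnd ℂ) (gX b j x) / ((1 + Complex.normSq (gX b j x) : ℝ) : ℂ)) •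
      fderiv ℝ (gX b j) x

/-- the off diagonal part of the connection form -/
noncomputable def betaX (b : Bool) (p : P) (x : XSp P J) : XSp P J →L[ℝ] ℂ :=
  -(Complex.I * (2 * Real.pi * (mu b : ℂ)) * wX b (blk p) x * ((x.1 p : ℝ) : ℂ)) •
      alphaX blk b (blk p) x
  - (Complex.I * (2 * Real.pi * (mu b : ℂ)) * ((x.1 p : ℝ) : ℂ)) • fderiv ℝ (wX b (blk p)) x
  - (Complex.I * (2 * Real.pi * (mu b : ℂ)) * wX b (blk p) x) • dyC J p

/-- the connection form in the chart `ε` -/
noncomputable def formX (K : Type) [Fintype K] (ε : J → Bool) (x : XSp P J) :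
    XSp P J →L[ℝ] (QSp P J K →L[ℝ] QSp P J K) :=
  (∑ j, B1 P K j ∘L alphaX blk (ε j) j x) + ∑ p, B2 blk K p ∘L betaX blk (ε (blk p)) p x

/-- derivative of the transition function `trC b b' θ g₀` at the value of the source chart map, as a
function of the angle and of the value `g` of `gB` (all complex derivatives are scalars) -/
noncomputable def cC (b b' : Bool) (θ : ℝ) (g : ℂ) : ℂ :=
  match b, b' with
  | true, true => Complex.exp (2 * θ * Complex.I)
  | false, false => Complex.exp (-θ * Complex.I)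
  | true, false => -2 * Complex.exp (2 * θ * Complex.I) * (g ^ 3)⁻¹
  | false, true => -(1 / 2) * Complex.exp (-θ * Complex.I) * g ^ 3

/-- explicit formula for the cocycle of the normal bundle (target chart `ε`, source chart `ε'`):
`(ζ, ω, s) ↦ (ζ, C_j ω_j + i 2π μ w^new_j ∑ a_p ζ_p, s)` -/
noncomputable def normX (K : Type) [Fintype K] (ε : J → Bool) (a : LSp P) (ε' : J → Bool)
    (x : XSp P J) : QSp P J K →L[ℝ] QSp P J K :=
  ContinuousLinearMap.id ℝ (QSp P J K) +
    (∑ j, B1 P K j (cC (ε j) (ε' j) (ang blk a.1 x.2.1 j) (gB (x.2.2.1 j) (x.2.2.2 j)) - 1)) +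
    ∑ p, B2 blk K p (Complex.I * (2 * Real.pi * (mu (ε (blk p)) : ℂ)) * ((a.1 p : ℝ) : ℂ) *
      wX (ε (blk p)) (blk p) (actX blk a x))

/-! ### the parametrisation of the fundamental cycle -/

/-- the parametrisation by a cube with coordinates `ξ (s, 0), ξ (s, 1)`, `s` in `P ⊕ J` -/
noncomputable def cubeX (ξ : (P ⊕ J) × Fin 2 → ℝ) : XSp P J :=
  (fun p => ξ (Sum.inl p, 0), fun p => ξ (Sum.inl p, 1),
    fun j => (Real.sin (Real.pi * ξ (Sum.inr j, 0)) : ℂ) *
      Complex.exp (2 * Real.pi * ξ (Sum.inr j, 1) * Complex.I),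
    fun j => - Real.cos (Real.pi * ξ (Sum.inr j, 0)))

/-- multiplication by `i` in the `j`-th plane of the transversal -/
noncomputable def rotJ (P K : Type) [Fintype P] [Fintype K] (j : J) : QSp P J K →L[ℝ] QSp P J K :=
  B1 P K j Complex.I

end

end Pool.Agent.HaefligerClasses
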