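import Pool.Agent.HaefligerClasses.Model
import Pool.Agent.HaefligerClasses.Algebra

/-!
# The derivative of the transition germs
-/

namespace Pool.Agent.HaefligerClasses

open Filter Topology
open scoped ContDiff

/-! ### one complex variable -/

theorem nrm_rad_pos {v : ℂ} {t : ℝ} (h : v ≠ 0) : |t| < rad v t := by
  unfold rad
  have h1 : 0 < Complex.normSq v := Complex.normSq_pos.mpr h
  rw [← Real.sqrt_sq_eq_abs]
  exact Real.sqrt_lt_sqrt (sq_nonneg t) (by linarith)

theorem nrm_rad_zero (t : ℝ) : rad 0 t = |t| := by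
  unfold rad
  rw [map_zero, zero_add, Real.sqrt_sq_eq_abs]

theorem nrm_ne_zero {v : ℂ} {t : ℝ} (h1 : t < rad v t) (h2 : -t < rad v t) : v ≠ 0 := by
  rintro rfl
  rw [nrm_rad_zero] at h1 h2
  rcases abs_cases t with ⟨h, _⟩ | ⟨h, _⟩ <;> rw [h] at h1 h2 <;> linarith

theorem nrm_gA_mul_gB {v : ℂ} {t : ℝ} (h1 : t < rad v t) (h2 : -t < rad v t) :
    gA v t * gB v t = 1 := by
  have hv := nrm_ne_zero h1 h2
  have e1 : ((rad v t - t : ℝ) : ℂ) ≠ 0 := by
    rw [Complex.ofReal_ne_zero]; linarith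
  have e2 : ((rad v t + t : ℝ) : ℂ) ≠ 0 := by
    rw [Complex.ofReal_ne_zero]; linarith
  have e3 : v * (starRingEnd ℂ) v = ((rad v t - t : ℝ) : ℂ) * ((rad v t + t : ℝ) : ℂ) := by
    rw [Complex.mul_conj, ← Complex.ofReal_mul]
    congr 1
    have : rad v t ^ 2 = Complex.normSq v + t ^ 2 := by
      unfold rad
      rw [Real.sq_sqrt]
      have := Complex.normSq_nonneg v
      positivity
    nlinarith
  unfold gA gB
  rw [div_mul_div_comm, e3, div_self (mul_ne_zero e1 e2)]

theorem nrm_rad_rot (v : ℂ) (t θ : ℝ) : rad (Complex.exp (θ * Complex.I) * v) t = rad v t := by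
  unfold rad
  rw [map_mul, Complex.normSq_eq_norm_sq (Complex.exp _), Complex.norm_exp_ofReal_mul_I]
  simp

theorem nrm_wC_rot (b : Bool) (v : ℂ) (t θ : ℝ) : wC b (Complex.exp (θ * Complex.I) * v) t =
    Complex.exp ((mu b : ℂ) * θ * Complex.I) * wC b v t := by
  cases b
  · simp only [wC, mu, Bool.false_eq_true, if_false, gB, nrm_rad_rot, map_mul]
    rw [← Complex.exp_conj, mul_div_assoc]
    congr 2
    simp
  · simp only [wC, mu, if_true, gA, nrm_rad_rot]
    rw [mul_div_assoc, mul_pow, ← Complex.exp_nat_mul]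
    congr 2
    push_cast
    ring

/-- the factor of `trC` without the rotation -/
noncomputable def nrmK (b b' : Bool) (g₀ w : ℂ) : ℂ :=
  match b, b' with
  | true, true => w
  | false, false => w
  | true, false => (w ^ 2)⁻¹
  | false, true => g₀ * Complex.exp (-(1 / 2) * Complex.log (w * g₀ ^ 2))

/-- its derivative at the base point -/
noncomputable def nrmK' (b b' : Bool) (g₀ : ℂ) : ℂ :=
  match b, b' with
  | true, true => 1
  | false, false => 1
  | true, false => -2 * (g₀ ^ 3)⁻¹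
  | false, true => -(1 / 2) * g₀ ^ 3

theorem nrm_trC (b b' : Bool) (θ : ℝ) (g₀ w : ℂ) :
    trC b b' θ g₀ w = Complex.exp ((mu b : ℂ) * θ * Complex.I) * nrmK b b' g₀ w := by
  cases b <;> cases b' <;> simp [trC, mu, nrmK]

theorem nrm_cC (b b' : Bool) (θ : ℝ) (g₀ : ℂ) :
    cC b b' θ g₀ = Complex.exp ((mu b : ℂ) * θ * Complex.I) * nrmK' b b' g₀ := by
  cases b <;> cases b' <;> simp [cC, mu, nrmK'] <;> ring

theorem nrmK_hasDerivAt (b b' : Bool) {v : ℂ} {t : ℝ} (h' : chartDom b' v t) (h : chartDom b v t) :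
    HasDerivAt (nrmK b b' (gB v t)) (nrmK' b b' (gB v t)) (wC b' v t) ∧
      nrmK b b' (gB v t) (wC b' v t) = wC b v t := by
  cases b <;> cases b'
  · simp only [wC, Bool.false_eq_true, if_false]
    exact ⟨hasDerivAt_id _, rfl⟩
  · simp only [chartDom, Bool.false_eq_true, if_false, if_true] at h h'
    have hAB := nrm_gA_mul_gB h' h
    have hB : gB v t ≠ 0 := right_ne_zero_of_mul_eq_one hAB
    have hA : gA v t ≠ 0 := left_ne_zero_of_mul_eq_one hAB
    have h1 : gA v t ^ 2 * gB v t ^ 2 = 1 := by rw [← mul_pow, hAB, one_pow]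
    simp only [wC, if_true, Bool.false_eq_true, if_false]
    constructor
    · have d1 : HasDerivAt (fun w : ℂ => w * gB v t ^ 2) (1 * gB v t ^ 2) (gA v t ^ 2) :=
        (hasDerivAt_id _).mul_const _
      have d2 := d1.clog (by rw [h1]; exact Complex.one_mem_slitPlane)
      have d3 := ((d2.const_mul (-(1 / 2 : ℂ))).cexp).const_mul (gB v t)
      refine (d3.congr_deriv ?_)
      rw [h1, Complex.log_one]
      simp [nrmK']
      ring
    · simp only [nrmK]
      rw [h1, Complex.log_one]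
      simp
  · simp only [chartDom, Bool.false_eq_true, if_false, if_true] at h h'
    have hAB := nrm_gA_mul_gB h h'
    have hB : gB v t ≠ 0 := right_ne_zero_of_mul_eq_one hAB
    simp only [wC, if_true, Bool.false_eq_true, if_false]
    constructor
    · have d1 : HasDerivAt (fun w : ℂ => w ^ 2) (2 * gB v t) (gB v t) := by
        simpa using hasDerivAt_pow 2 (gB v t)
      have d2 := d1.inv (pow_ne_zero 2 hB)
      refine d2.congr_deriv ?_
      simp only [nrmK']
      field_simp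
    · simp only [nrmK]
      rw [← inv_pow, inv_eq_of_mul_eq_one_left hAB]
  · simp only [wC, if_true]
    exact ⟨hasDerivAt_id _, rfl⟩

theorem nrmK'_ne_zero (b b' : Bool) {v : ℂ} {t : ℝ} (h' : chartDom b' v t) (h : chartDom b v t) :
    nrmK' b b' (gB v t) ≠ 0 := by
  cases b <;> cases b'
  · simp [nrmK']
  · simp only [chartDom, Bool.false_eq_true, if_false, if_true] at h h'
    have hB : gB v t ≠ 0 := right_ne_zero_of_mul_eq_one (nrm_gA_mul_gB h' h)
    simp [nrmK', hB]
  · simp only [chartDom, Bool.false_eq_true, if_false, if_true] at h h'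
    have hB : gB v t ≠ 0 := right_ne_zero_of_mul_eq_one (nrm_gA_mul_gB h h')
    simp [nrmK', hB]
  · simp [nrmK']

theorem nrm_chartDom_rot (b : Bool) (v : ℂ) (t θ : ℝ) :
    chartDom b (Complex.exp (θ * Complex.I) * v) t ↔ chartDom b v t := by
  cases b <;> simp [chartDom, nrm_rad_rot]

section

set_option linter.unusedSectionVars false

variable {P J K : Type} [Fintype P] [Fintype J] [Fintype K] [DecidableEq P] [DecidableEq J]
  [DecidableEq K] (blk : P → J)

theorem nrm_apply (c : J → ℂ) (e : P → ℂ) (q : QSp P J K) :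
    (ContinuousLinearMap.id ℝ (QSp P J K) + blk12 blk K (fun j => c j - 1) e) q =
      (q.1, fun j => c j * q.2.1 j + ∑ p, if blk p = j then (q.1 p : ℂ) * e p else 0, q.2.2) := by
  rw [ContinuousLinearMap.add_apply, blk12_apply, ContinuousLinearMap.id_apply]
  ext i
  · simp
  · simp only [Prod.snd_add, Prod.fst_add, Pi.add_apply]
    ring
  · simp

theorem normX_eq (ε : J → Bool) (a : LSp P) (ε' : J → Bool) (x : XSp P J) :
    normX blk K ε a ε' x = ContinuousLinearMap.id ℝ (QSp P J K) + blk12 blk K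
      (fun j => cC (ε j) (ε' j) (ang blk a.1 x.2.1 j) (gB (x.2.2.1 j) (x.2.2.2 j)) - 1)
      (fun p => Complex.I * (2 * Real.pi * (mu (ε (blk p)) : ℂ)) * ((a.1 p : ℝ) : ℂ) *
        wX (ε (blk p)) (blk p) (actX blk a x)) := by
  rw [normX, blk12, add_assoc]

/-- the angle as a linear map -/
noncomputable def angL (J K : Type) [Fintype J] [Fintype K] [DecidableEq J] (blk : P → J)
    (a : P → ℤ) (j : J) : QSp P J K →L[ℝ] ℝ :=
  (2 * Real.pi) • ∑ p, if blk p = j then (a p : ℝ) • projP J K p else 0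

theorem angL_apply (a : P → ℤ) (j : J) (q : QSp P J K) :
    angL J K blk a j q = ang blk a q.1 j := by
  unfold angL ang
  rw [ContinuousLinearMap.smul_apply, ContinuousLinearMap.sum_apply, smul_eq_mul]
  congr 1
  refine Finset.sum_congr rfl fun p _ => ?_
  split_ifs
  · simp [projP]
  · simp

theorem nrm_hasFDerivAt (ε : J → Bool) (a : LSp P) (ε' : J → Bool) (x : XSp P J)
    (hx : x ∈ domX ε') (hx' : actX blk a x ∈ domX ε) :
    HasFDerivAt (gamX blk ε a ε' x : QSp P J K → QSp P J K) (normX blk K ε a ε' x)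
      (fX K ε' x) := by
  set q₀ : QSp P J K := fX K ε' x with hq₀
  have hz : q₀.1 = x.2.1 := rfl
  have hchart : ∀ j, chartDom (ε j) (x.2.2.1 j) (x.2.2.2 j) := by
    intro j
    have := hx' j
    simp only [actX] at this
    rwa [nrm_chartDom_rot] at this
  -- the middle components
  have hmid : ∀ j, ∃ D : QSp P J K →L[ℝ] ℂ,
      HasFDerivAt (fun q : QSp P J K => trC (ε j) (ε' j) (ang blk a.1 q.1 j)
        (gB (x.2.2.1 j) (x.2.2.2 j)) (q.2.1 j)) D q₀ ∧ ∀ q, D q =
        cC (ε j) (ε' j) (ang blk a.1 x.2.1 j) (gB (x.2.2.1 j) (x.2.2.2 j)) * q.2.1 j +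
        wX (ε j) j (actX blk a x) * (Complex.I * (mu (ε j) * (ang blk a.1 q.1 j : ℂ))) := by
    intro j
    obtain ⟨k1, k2⟩ := nrmK_hasDerivAt (ε j) (ε' j) (hx j) (hchart j)
    have d0 : HasFDerivAt (fun q : QSp P J K => ang blk a.1 q.1 j) (angL J K blk a.1 j) q₀ := by
      have := (angL J K blk a.1 j).hasFDerivAt (x := q₀)
      exact this.congr_of_eventuallyEq (Filter.Eventually.of_forall fun q =>
        (angL_apply blk a.1 j q).symm)
    have d1 : HasFDerivAt (fun q : QSp P J K => ((ang blk a.1 q.1 j : ℝ) : ℂ))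
        (Complex.ofRealCLM ∘L angL J K blk a.1 j) q₀ :=
      (Complex.ofRealCLM.hasFDerivAt (x := ang blk a.1 q₀.1 j)).comp q₀ d0
    have d3 := ((d1.const_mul (mu (ε j) : ℂ)).mul_const Complex.I).cexp
    have hp : HasFDerivAt (fun q : QSp P J K => q.2.1 j) (projJ P K j) q₀ :=
      (projJ P K j).hasFDerivAt
    have k1' := k1.hasFDerivAt.restrictScalars ℝ
    have d4 : HasFDerivAt (fun q : QSp P J K =>
        nrmK (ε j) (ε' j) (gB (x.2.2.1 j) (x.2.2.2 j)) (q.2.1 j)) _ q₀ :=
      HasFDerivAt.comp (g := nrmK (ε j) (ε' j) (gB (x.2.2.1 j) (x.2.2.2 j)))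
        (f := fun q : QSp P J K => q.2.1 j) q₀ k1' hp
    have d5 := d3.mul d4
    refine ⟨_, d5.congr_of_eventuallyEq (Filter.Eventually.of_forall fun q => ?_), fun q => ?_⟩
    · exact nrm_trC _ _ _ _ _
    · have e1 : (q₀.2.1 j) = wC (ε' j) (x.2.2.1 j) (x.2.2.2 j) := rfl
      have e2 : wX (ε j) j (actX blk a x) =
          Complex.exp ((mu (ε j) : ℂ) * (ang blk a.1 x.2.1 j : ℂ) * Complex.I) *
            wC (ε j) (x.2.2.1 j) (x.2.2.2 j) := nrm_wC_rot _ _ _ _
      simp only [ContinuousLinearMap.add_apply, ContinuousLinearMap.smul_apply,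
        ContinuousLinearMap.comp_apply, angL_apply, Complex.ofRealCLM_apply, smul_eq_mul,
        ContinuousLinearMap.coe_restrictScalars', hz, e1, k2, e2, nrm_cC, projJ]
      simp
      ring
  choose D hD1 hD2 using hmid
  have h1 : HasFDerivAt (fun q : QSp P J K => fun p => q.1 p + (a.2 p : ℝ))
      (ContinuousLinearMap.fst ℝ (P → ℝ) ((J → ℂ) × (K → ℝ))) q₀ :=
    ((ContinuousLinearMap.fst ℝ (P → ℝ) ((J → ℂ) × (K → ℝ))).hasFDerivAt (x := q₀)).add_const
      (fun p => (a.2 p : ℝ))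
  have h2 := hasFDerivAt_pi.mpr hD1
  have h3 : HasFDerivAt (fun q : QSp P J K => q.2.2)
      ((ContinuousLinearMap.snd ℝ (J → ℂ) (K → ℝ)) ∘L
        (ContinuousLinearMap.snd ℝ (P → ℝ) ((J → ℂ) × (K → ℝ)))) q₀ :=
    ((ContinuousLinearMap.snd ℝ (J → ℂ) (K → ℝ)) ∘L
        (ContinuousLinearMap.snd ℝ (P → ℝ) ((J → ℂ) × (K → ℝ)))).hasFDerivAt
  have h := h1.prodMk (h2.prodMk h3)
  refine h.congr_fderiv ?_
  rw [normX_eq]
  refine ContinuousLinearMap.ext fun q => ?_
  rw [nrm_apply]
  refine Prod.ext rfl (Prod.ext (funext fun j => ?_) rfl)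
  have e3 : ((((ContinuousLinearMap.fst ℝ (P → ℝ) ((J → ℂ) × (K → ℝ))).prod
      ((ContinuousLinearMap.pi D).prod ((ContinuousLinearMap.snd ℝ (J → ℂ) (K → ℝ)) ∘L
        (ContinuousLinearMap.snd ℝ (P → ℝ) ((J → ℂ) × (K → ℝ)))))) q).2.1 j) = D j q := rfl
  refine e3.trans ?_
  rw [hD2]
  congr 1
  unfold ang
  push_cast
  rw [Finset.mul_sum, Finset.mul_sum, Finset.mul_sum, Finset.mul_sum]
  refine Finset.sum_congr rfl fun p _ => ?_
  split_ifs with hp
  · subst hp
    push_cast
    ring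
  · simp

/-! ### NRM: the derivative of the germs -/

theorem fderiv_gamX (ε : J → Bool) (a : LSp P) (ε' : J → Bool) (x : XSp P J)
    (hx : x ∈ domX ε') (hx' : actX blk a x ∈ domX ε) :
    fderiv ℝ (gamX blk ε a ε' x : QSp P J K → QSp P J K) (fX K ε' x) =
      normX blk K ε a ε' x :=
  (nrm_hasFDerivAt blk ε a ε' x hx hx').fderiv

theorem nrm_det_pos (c : J → ℂ) (e : P → ℂ) (hc : ∀ j, c j ≠ 0) :
    0 < (ContinuousLinearMap.id ℝ (QSp P J K) + blk12 blk K (fun j => c j - 1) e).det := by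
  have hroot : ∀ j, ∃ r : ℂ, r ^ 2 = c j ∧ 1 + r ≠ 0 := by
    intro j
    obtain ⟨r, hr⟩ := IsAlgClosed.exists_pow_nat_eq (c j) (n := 2) (by norm_num)
    by_cases h : 1 + r = 0
    · refine ⟨1, ?_, by norm_num⟩
      have : r = -1 := by linear_combination h
      rw [← hr, this]; norm_num
    · exact ⟨r, hr, h⟩
  choose r hr1 hr2 using hroot
  set G : QSp P J K →L[ℝ] QSp P J K := ContinuousLinearMap.id ℝ (QSp P J K) +
    blk12 blk K (fun j => r j - 1) (fun p => e p / (1 + r (blk p))) with hG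
  set A : QSp P J K →L[ℝ] QSp P J K := ContinuousLinearMap.id ℝ (QSp P J K) +
    blk12 blk K (fun j => c j - 1) e with hA
  have hGG : A = G ∘L G := by
    refine ContinuousLinearMap.ext fun q => ?_
    rw [ContinuousLinearMap.comp_apply, hG, hA, nrm_apply, nrm_apply, nrm_apply]
    refine Prod.ext rfl (Prod.ext (funext fun j => ?_) rfl)
    simp only
    have e1 : ∀ f : P → ℂ, (∑ p, if blk p = j then (q.1 p : ℂ) * e p else 0) =
        (1 + r j) * ∑ p, if blk p = j then (q.1 p : ℂ) * (e p / (1 + r (blk p))) else 0 := by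
      intro _
      rw [Finset.mul_sum]
      refine Finset.sum_congr rfl fun p _ => ?_
      split_ifs with hp
      · subst hp
        have := hr2 (blk p)
        field_simp
      · simp
    rw [e1 e, ← hr1 j]
    ring
  have hinj : Function.Injective A := by
    rw [injective_iff_map_eq_zero]
    intro q hq
    rw [hA, nrm_apply] at hq
    have h1 : q.1 = 0 := congrArg Prod.fst hq
    have h3 : q.2.2 = 0 := congrArg (fun z => z.2.2) hq
    have h2 : q.2.1 = 0 := by
      funext j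
      have h4 : c j * q.2.1 j + ∑ p, (if blk p = j then (q.1 p : ℂ) * e p else 0) = 0 :=
        congrFun (congrArg (fun z => z.2.1) hq) j
      rw [h1] at h4
      simp only [Pi.zero_apply, Complex.ofReal_zero, zero_mul, ite_self, Finset.sum_const_zero,
        add_zero] at h4
      exact (mul_eq_zero.mp h4).resolve_left (hc j)
    exact Prod.ext h1 (Prod.ext h2 h3)
  have hne : A.det ≠ 0 := by
    have h1 : Function.Injective (A : QSp P J K →ₗ[ℝ] QSp P J K) := hinj
    have h2 := (LinearEquiv.ofInjectiveEndo (A : QSp P J K →ₗ[ℝ] QSp P J K) h1).isUnit_det'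
    have h3 : ((LinearEquiv.ofInjectiveEndo (A : QSp P J K →ₗ[ℝ] QSp P J K) h1 :
        QSp P J K ≃ₗ[ℝ] QSp P J K) : QSp P J K →ₗ[ℝ] QSp P J K) = A := by
      ext q <;> rfl
    rw [h3] at h2
    exact h2.ne_zero
  have hsq : A.det = G.det * G.det := by
    rw [hGG]
    exact LinearMap.det_comp (G : QSp P J K →ₗ[ℝ] QSp P J K) G
  have h0 : 0 ≤ A.det := by rw [hsq]; exact mul_self_nonneg _
  exact lt_of_le_of_ne h0 (Ne.symm hne)

theorem normX_det_pos (ε : J → Bool) (a : LSp P) (ε' : J → Bool) (x : XSp P J)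
    (hx : x ∈ domX ε') (hx' : actX blk a x ∈ domX ε) :
    0 < (normX blk K ε a ε' x).det := by
  rw [normX_eq]
  apply nrm_det_pos
  intro j
  have hchart : chartDom (ε j) (x.2.2.1 j) (x.2.2.2 j) := by
    have := hx' j
    simp only [actX] at this
    rwa [nrm_chartDom_rot] at this
  rw [nrm_cC]
  exact mul_ne_zero (Complex.exp_ne_zero _) (nrmK'_ne_zero _ _ (hx j) hchart)

end

end Pool.Agent.HaefligerClasses
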