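import Pool.Agent.HaefligerClasses.Defs

/-!
# Permutations preserving the pairs
-/

namespace Pool.Agent.HaefligerClasses

open Filter Topology MeasureTheory
open scoped ContDiff

/-- number of permutations that preserve the pairs `{2s, 2s+1}` -/
def pairCount (d : ℕ) : ℕ :=
  (Finset.univ.filter fun σ : Equiv.Perm (Fin (2 * d)) =>
    ∀ s : Fin d, (σ ⟨2 * s.1, by omega⟩).1 / 2 = (σ ⟨2 * s.1 + 1, by omega⟩).1 / 2).card

theorem pairCount_pos (d : ℕ) : 0 < pairCount d := by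
  rw [pairCount, Finset.card_pos]
  refine ⟨1, ?_⟩
  rw [Finset.mem_filter]
  refine ⟨Finset.mem_univ _, fun s => ?_⟩
  show (2 * s.1) / 2 = (2 * s.1 + 1) / 2
  omega

/-- the pairs -/
def pairEquiv (d : ℕ) : Fin d × Fin 2 ≃ Fin (2 * d) where
  toFun x := ⟨2 * x.1.1 + x.2.1, by have := x.1.2; have := x.2.2; omega⟩
  invFun i := (⟨i.1 / 2, by have := i.2; omega⟩, ⟨i.1 % 2, by omega⟩)
  left_inv := by
    rintro ⟨⟨a, ha⟩, ⟨b, hb⟩⟩
    simp only [Prod.mk.injEq, Fin.mk.injEq]
    omega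
  right_inv := by
    rintro ⟨a, ha⟩
    simp only [Fin.mk.injEq]
    omega

/-- a permutation of the pairs -/
theorem sign_pairs {d : ℕ} (τ : Equiv.Perm (Fin d × Fin 2))
    (hτ : ∀ s, (τ (s, 0)).1 = (τ (s, 1)).1) :
    ∃ (π : Equiv.Perm (Fin d)) (ε : Fin d → Equiv.Perm (Fin 2)),
      (∀ s j, τ (s, j) = (π s, ε s j)) ∧
      Equiv.Perm.sign τ = ∏ s, Equiv.Perm.sign (ε s) := by
  have h1 : ∀ s j, (τ (s, j)).1 = (τ (s, 0)).1 := by
    intro s j
    fin_cases j
    · rfl
    · exact (hτ s).symm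
  have hsurj : Function.Surjective (fun s => (τ (s, 0)).1) := by
    intro s'
    refine ⟨(τ.symm (s', 0)).1, ?_⟩
    have h2 := h1 (τ.symm (s', 0)).1 (τ.symm (s', 0)).2
    simp only [Prod.mk.eta, Equiv.apply_symm_apply] at h2
    exact h2.symm
  have hbij : Function.Bijective (fun s => (τ (s, 0)).1) :=
    (Finite.injective_iff_bijective).mp (Finite.injective_iff_surjective.mpr hsurj)
  have hinj : ∀ s, Function.Injective (fun j => (τ (s, j)).2) := by
    intro s j j' h
    have h2 : τ (s, j) = τ (s, j') := Prod.ext ((h1 s j).trans (h1 s j').symm) h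
    exact (Prod.ext_iff.mp (τ.injective h2)).2
  have hbij2 : ∀ s, Function.Bijective (fun j => (τ (s, j)).2) := fun s =>
    Finite.injective_iff_bijective.mp (hinj s)
  let π := Equiv.ofBijective _ hbij
  let ε : Fin d → Equiv.Perm (Fin 2) := fun s => Equiv.ofBijective _ (hbij2 s)
  have hform : ∀ s j, τ (s, j) = (π s, ε s j) := fun s j => Prod.ext (h1 s j) rfl
  refine ⟨π, ε, hform, ?_⟩
  have h3 : τ = Equiv.prodCongrLeft (fun _ : Fin 2 => π) * Equiv.prodCongrRight ε := by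
    ext1 ⟨s, j⟩
    rw [hform]
    rfl
  rw [h3, Equiv.Perm.sign_mul, Equiv.Perm.sign_prodCongrLeft, Equiv.Perm.sign_prodCongrRight]
  simp

theorem chernWeil_pairs {E : Type} {V : Type} [NormedAddCommGroup V] [NormedSpace ℝ V] {d : ℕ}
    (F : InvariantForm V d) (R : E → E → V →L[ℝ] V) (hR : ∀ u w, R u w = - R w u)
    (u : Fin (2 * d) → E) (sp : Fin d → Bool)
    (h0 : ∀ s : Fin d, ∀ a : Fin (2 * d),
      a.1 ≠ 2 * s.1 + (if sp s then 0 else 1) →
      R (u ⟨2 * s.1 + (if sp s then 1 else 0), by split_ifs <;> omega⟩) (u a) = 0) :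
    (∑ σ : Equiv.Perm (Fin (2 * d)), (Equiv.Perm.sign σ : ℤ) •
      F.toFun (fun s : Fin d => R (u (σ ⟨2 * s.1, by omega⟩)) (u (σ ⟨2 * s.1 + 1, by omega⟩)))) =
    pairCount d *
      F.toFun (fun s : Fin d => R (u ⟨2 * s.1, by omega⟩) (u ⟨2 * s.1 + 1, by omega⟩)) := by
  classical
  set P : Equiv.Perm (Fin (2 * d)) → Prop := fun σ =>
    ∀ s : Fin d, (σ ⟨2 * s.1, by omega⟩).1 / 2 = (σ ⟨2 * s.1 + 1, by omega⟩).1 / 2 with hP
  -- the other terms vanish
  have hzero : ∀ σ : Equiv.Perm (Fin (2 * d)), ¬ P σ →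
      F.toFun (fun s : Fin d => R (u (σ ⟨2 * s.1, by omega⟩)) (u (σ ⟨2 * s.1 + 1, by omega⟩)))
        = 0 := by
    intro σ hσ
    by_contra hne
    apply hσ
    -- all the factors are nonzero
    have hfac : ∀ s : Fin d,
        R (u (σ ⟨2 * s.1, by omega⟩)) (u (σ ⟨2 * s.1 + 1, by omega⟩)) ≠ 0 := by
      intro s hs
      exact hne (F.toFun.map_coord_zero s hs)
    -- the special element of a pair is mapped together with its partner
    have hkey : ∀ (s s' : Fin d) (b : Bool),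
        (σ ⟨2 * s.1 + (if b then 1 else 0), by split_ifs <;> omega⟩).1
          = 2 * s'.1 + (if sp s' then 1 else 0) →
        (σ ⟨2 * s.1 + (if b then 0 else 1), by split_ifs <;> omega⟩).1
          = 2 * s'.1 + (if sp s' then 0 else 1) := by
      intro s s' b hb
      by_contra hcon
      have h1 := h0 s' (σ ⟨2 * s.1 + (if b then 0 else 1), by split_ifs <;> omega⟩) hcon
      have h2 : (⟨2 * s'.1 + (if sp s' then 1 else 0), by split_ifs <;> omega⟩ : Fin (2 * d)) =
          σ ⟨2 * s.1 + (if b then 1 else 0), by split_ifs <;> omega⟩ := Fin.ext hb.symm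
      rw [h2] at h1
      cases b
      · exact hfac s h1
      · apply hfac s
        rw [hR, neg_eq_zero]
        exact h1
    intro s
    obtain ⟨s', hs'⟩ : ∃ s' : Fin d, s'.1 = (σ ⟨2 * s.1, by omega⟩).1 / 2 :=
      ⟨⟨(σ ⟨2 * s.1, by omega⟩).1 / 2, by
        have := (σ ⟨2 * s.1, by omega⟩).2
        omega⟩, rfl⟩
    by_cases hc : (σ ⟨2 * s.1, by omega⟩).1 = 2 * s'.1 + (if sp s' then 1 else 0)
    · have h1 := hkey s s' false (by simpa using hc)
      simp only [Bool.false_eq_true, if_false] at h1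
      rw [← hs', h1]
      split_ifs <;> omega
    · -- `σ (2 s)` is the partner
      have hpar : (σ ⟨2 * s.1, by omega⟩).1 = 2 * s'.1 + (if sp s' then 0 else 1) := by
        split_ifs at hc ⊢ <;> omega
      -- where does the special element come from?
      set i₀ : Fin (2 * d) := ⟨2 * s'.1 + (if sp s' then 1 else 0), by split_ifs <;> omega⟩
        with hi₀
      set k := σ.symm i₀ with hk
      have hσk : σ k = i₀ := by rw [hk, Equiv.apply_symm_apply]
      obtain ⟨s₂, b, hsb⟩ : ∃ (s₂ : Fin d) (b : Bool), k.1 = 2 * s₂.1 + (if b then 1 else 0) := by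
        refine ⟨⟨k.1 / 2, by have := k.2; omega⟩, decide (k.1 % 2 = 1), ?_⟩
        by_cases h : k.1 % 2 = 1
        · simp [h]
          omega
        · simp [h]
          omega
      have hk' : k = ⟨2 * s₂.1 + (if b then 1 else 0), by split_ifs <;> omega⟩ := Fin.ext hsb
      have h1 := hkey s₂ s' b (by rw [← hk', hσk])
      have h2 : (⟨2 * s₂.1 + (if b then 0 else 1), by split_ifs <;> omega⟩ : Fin (2 * d)) =
          ⟨2 * s.1, by omega⟩ := σ.injective (Fin.ext (h1.trans hpar.symm))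
      have h3 := congrArg Fin.val h2
      simp only at h3
      cases b
      · simp only [Bool.false_eq_true, if_false] at h3
        omega
      · simp only [if_true, add_zero] at h3
        have h4 : s₂ = s := Fin.ext (by omega)
        rw [h4] at hk'
        simp only [if_true] at hk'
        have h5 : σ ⟨2 * s.1 + 1, by omega⟩ = i₀ := by rw [← hk', hσk]
        rw [h5, hi₀, ← hs']
        simp only
        split_ifs <;> omega
  -- the terms of the pair preserving permutations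
  have hone : ∀ σ : Equiv.Perm (Fin (2 * d)), P σ →
      (Equiv.Perm.sign σ : ℤ) •
      F.toFun (fun s : Fin d => R (u (σ ⟨2 * s.1, by omega⟩)) (u (σ ⟨2 * s.1 + 1, by omega⟩)))
        = F.toFun (fun s : Fin d => R (u ⟨2 * s.1, by omega⟩) (u ⟨2 * s.1 + 1, by omega⟩)) := by
    intro σ hσ
    set τ : Equiv.Perm (Fin d × Fin 2) := (pairEquiv d).symm.permCongr σ with hτ
    have hτe : ∀ x, τ x = (pairEquiv d).symm (σ (pairEquiv d x)) := by
      intro x
      rw [hτ, Equiv.permCongr_apply, Equiv.symm_symm]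
    have he0 : ∀ s : Fin d, pairEquiv d (s, 0) = ⟨2 * s.1, by omega⟩ := fun s => Fin.ext rfl
    have he1 : ∀ s : Fin d, pairEquiv d (s, 1) = ⟨2 * s.1 + 1, by omega⟩ := fun s => Fin.ext rfl
    obtain ⟨π, ε, hform, hsign⟩ := sign_pairs τ (by
      intro s
      rw [hτe, hτe, he0, he1]
      exact Fin.ext (hσ s))
    have hsg : Equiv.Perm.sign σ = ∏ s, Equiv.Perm.sign (ε s) := by
      rw [← hsign, hτ, Equiv.Perm.sign_permCongr]
    have hσ0 : ∀ s : Fin d, σ ⟨2 * s.1, by omega⟩ = pairEquiv d (π s, ε s 0) := by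
      intro s
      rw [← hform, hτe, Equiv.apply_symm_apply, he0]
    have hσ1 : ∀ s : Fin d, σ ⟨2 * s.1 + 1, by omega⟩ = pairEquiv d (π s, ε s 1) := by
      intro s
      rw [← hform, hτe, Equiv.apply_symm_apply, he1]
    have hterm : ∀ s : Fin d,
        R (u (σ ⟨2 * s.1, by omega⟩)) (u (σ ⟨2 * s.1 + 1, by omega⟩)) =
        (((Equiv.Perm.sign (ε s) : ℤˣ) : ℤ) : ℝ) •
          R (u ⟨2 * (π s).1, by omega⟩) (u ⟨2 * (π s).1 + 1, by omega⟩) := by
      intro s
      rw [hσ0, hσ1]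
      have hcase : (ε s 0 = 0 ∧ ε s 1 = 1 ∧ Equiv.Perm.sign (ε s) = 1) ∨
          (ε s 0 = 1 ∧ ε s 1 = 0 ∧ Equiv.Perm.sign (ε s) = -1) := by
        generalize ε s = δ
        revert δ
        decide
      rcases hcase with ⟨h1, h2, h3⟩ | ⟨h1, h2, h3⟩
      · rw [h1, h2, h3, he0, he1]
        simp
      · rw [h1, h2, h3, he0, he1, hR]
        simp
    have h1 : F.toFun (fun s : Fin d =>
        R (u (σ ⟨2 * s.1, by omega⟩)) (u (σ ⟨2 * s.1 + 1, by omega⟩))) =
        (∏ s : Fin d, (((Equiv.Perm.sign (ε s) : ℤˣ) : ℤ) : ℝ)) *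
        F.toFun (fun s : Fin d => R (u ⟨2 * s.1, by omega⟩) (u ⟨2 * s.1 + 1, by omega⟩)) := by
      rw [show (fun s : Fin d =>
        R (u (σ ⟨2 * s.1, by omega⟩)) (u (σ ⟨2 * s.1 + 1, by omega⟩))) =
        fun s : Fin d => (((Equiv.Perm.sign (ε s) : ℤˣ) : ℤ) : ℝ) •
          R (u ⟨2 * (π s).1, by omega⟩) (u ⟨2 * (π s).1 + 1, by omega⟩) from funext hterm]
      rw [MultilinearMap.map_smul_univ, smul_eq_mul]
      congr 1
      exact F.symm π
        (fun s : Fin d => R (u ⟨2 * s.1, by omega⟩) (u ⟨2 * s.1 + 1, by omega⟩))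
    rw [h1, hsg]
    have h2 : (∏ s : Fin d, (((Equiv.Perm.sign (ε s) : ℤˣ) : ℤ) : ℝ)) =
        (((∏ s, Equiv.Perm.sign (ε s) : ℤˣ) : ℤ) : ℝ) := by
      push_cast
      rfl
    rw [h2, zsmul_eq_mul, ← mul_assoc, ← Int.cast_mul, ← Units.val_mul, Int.units_mul_self]
    simp
  rw [← Finset.sum_filter_add_sum_filter_not Finset.univ P]
  rw [Finset.sum_congr rfl (g := fun _ =>
    F.toFun (fun s : Fin d => R (u ⟨2 * s.1, by omega⟩) (u ⟨2 * s.1 + 1, by omega⟩)))
    (fun σ hσ => hone σ (Finset.mem_filter.mp hσ).2)]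
  rw [Finset.sum_const]
  rw [Finset.sum_eq_zero (s := Finset.univ.filter fun σ => ¬ P σ)
    (fun σ hσ => by rw [hzero σ (Finset.mem_filter.mp hσ).2, smul_zero])]
  rw [add_zero, nsmul_eq_mul]
  rfl

end Pool.Agent.HaefligerClasses
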