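import Pool.Agent.HaefligerClasses.CurvCube
import Pool.Agent.HaefligerClasses.Cycle
import Pool.Agent.HaefligerClasses.Germs
import Pool.Agent.HaefligerClasses.Normal
import Pool.Agent.HaefligerClasses.Pairs

/-!
# The Haefliger structure of the example, and its characteristic forms are not exact
-/

namespace Pool.Agent.HaefligerClasses

open Filter Topology MeasureTheory
open scoped ContDiff

set_option linter.unusedSectionVars false

section

variable {P J K : Type} [Fintype P] [Fintype J] [Fintype K] [DecidableEq P] [DecidableEq J]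
  [DecidableEq K] (blk : P → J)

/-- the Haefliger structure of the example -/
noncomputable def HX (K : Type) [Fintype K] : HaefligerStructure (MX (J := J) blk) (QSp P J K) where
  ι := J → Bool
  dom := domX
  isOpen_dom := isOpen_domX
  dom_subset := by
    intro ε x hx j
    have h := hx j
    cases hε : ε j with
    | true =>
      rw [hε, chartDom_true_iff] at h
      exact h.imp id (fun h => h.ne)
    | false =>
      rw [hε, chartDom_false_iff] at h
      exact h.imp id (fun h => h.ne')
  cover := by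
    classical
    intro x hx
    refine ⟨fun j => decide (x.2.2.1 j ≠ 0 ∨ x.2.2.2 j < 0), fun j => ?_⟩
    by_cases h : x.2.2.1 j ≠ 0 ∨ x.2.2.2 j < 0
    · have hd : decide (x.2.2.1 j ≠ 0 ∨ x.2.2.2 j < 0) = true := decide_eq_true h
      show chartDom (decide (x.2.2.1 j ≠ 0 ∨ x.2.2.2 j < 0)) _ _
      rw [hd, chartDom_true_iff]
      exact h
    · have hd : decide (x.2.2.1 j ≠ 0 ∨ x.2.2.2 j < 0) = false := decide_eq_false h
      show chartDom (decide (x.2.2.1 j ≠ 0 ∨ x.2.2.2 j < 0)) _ _
      rw [hd, chartDom_false_iff]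
      push Not at h
      right
      rcases hx j with h1 | h1
      · exact absurd h.1 h1
      · exact lt_of_le_of_ne h.2 h1.symm
  f := fX K
  smooth_f := by
    intro ε x hx
    refine ContDiffAt.contDiffWithinAt ?_
    unfold fX
    refine ContDiffAt.prodMk (contDiff_fst.comp contDiff_snd).contDiffAt
      (ContDiffAt.prodMk (contDiffAt_pi.2 fun j => ?_) contDiffAt_const)
    exact contDiffAt_wX (ε j) j x (hx j)
  γ := gamX blk
  smooth_γ := by
    classical
    exact fun ε a ε' x hx hx' => gamX_smooth blk ε a ε' x hx hx'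
  orient_γ := by
    classical
    intro ε a ε' x hx hx'
    rw [fderiv_gamX blk ε a ε' x hx hx']
    exact normX_det_pos blk ε a ε' x hx hx'
  map_γ := by
    classical
    exact fun ε a ε' x hx hx' => gamX_map blk ε a ε' x hx hx'
  locConst_γ := by
    classical
    exact fun ε a ε' x hx hx' => gamX_locConst blk ε a ε' x hx hx'
  comp_γ := by
    classical
    exact fun ε a ε' b ε'' x hx h1 h2 => gamX_comp blk ε a ε' b ε'' x hx h1 h2

/-- the connection of the example -/
noncomputable def cX (K : Type) [Fintype K] : NormalConnection (HX (J := J) blk K) where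
  form := formX blk K
  smooth_form := formX_smooth blk
  compat := by
    classical
    intro ε a ε' x hx hx' u
    have hn : ∀ y : XSp P J, y ∈ domX ε' → actX blk a y ∈ domX ε →
        (HX (J := J) blk K).normal ε a ε' y = normX blk K ε a ε' y := fun y hy hy' =>
      fderiv_gamX blk ε a ε' y hy hy'
    have hev : (fun y => (HX (J := J) blk K).normal ε a ε' y) =ᶠ[𝓝 x]
        fun y => normX blk K ε a ε' y := by
      have h1 : ∀ᶠ y in 𝓝 x, y ∈ domX ε' := (isOpen_domX ε').mem_nhds hx
      have h2 : ∀ᶠ y in 𝓝 x, actX blk a y ∈ domX ε :=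
        ((contDiff_actX blk a).continuous.continuousAt).preimage_mem_nhds
          ((isOpen_domX ε).mem_nhds hx')
      filter_upwards [h1, h2] with y hy hy'
      exact hn y hy hy'
    rw [hev.fderiv_eq, hn x hx hx']
    exact formX_compat blk ε a ε' x hx hx' u

theorem curvature_antisymm {E V : Type} [NormedAddCommGroup E] [NormedSpace ℝ E]
    [NormedAddCommGroup V] [NormedSpace ℝ V] (α : E → E →L[ℝ] (V →L[ℝ] V)) (x u w : E) :
    curvature α x u w = - curvature α x w u := by
  unfold curvature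
  abel

/-- the indexing of the cube coordinates -/
def eqvX {e : ℕ} (slot : Fin (e + 1) ≃ P ⊕ J) : Fin (2 * e + 1 + 1) ≃ (P ⊕ J) × Fin 2 :=
  (pairEquiv (e + 1)).symm.trans (slot.prodCongr (Equiv.refl (Fin 2)))

theorem eqvX_apply {e : ℕ} (slot : Fin (e + 1) ≃ P ⊕ J) (s : Fin (e + 1)) (b : Fin 2)
    (h : 2 * s.1 + b.1 < 2 * (e + 1)) :
    eqvX slot (⟨2 * s.1 + b.1, h⟩ : Fin (2 * (e + 1))) = (slot s, b) := by
  have h1 : (⟨2 * s.1 + b.1, h⟩ : Fin (2 * (e + 1))) = pairEquiv (e + 1) (s, b) := rfl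
  rw [h1]
  unfold eqvX
  have h2 := (pairEquiv (e + 1)).symm_apply_apply (s, b)
  show (slot.prodCongr (Equiv.refl (Fin 2))) ((pairEquiv (e + 1)).symm (pairEquiv (e + 1) (s, b)))
    = _
  rw [h2]
  rfl

theorem tht_inl (ξ : (P ⊕ J) × Fin 2 → ℝ) (j : J) (p : P) :
    tht blk ξ j (Sum.inl p, 0) = 0 := by
  simp [tht]

theorem kap_inl (ξ : (P ⊕ J) × Fin 2 → ℝ) (j : J) (p : P) (b : (P ⊕ J) × Fin 2) :
    kap blk ξ j (Sum.inl p, 0) b =
      if b = (Sum.inl p, 1) ∧ blk p = j then -(2 * Real.pi) * (2 - hh (ξ (Sum.inr j, 0))) else 0 := by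
  have h1 : (∑ p', if blk p' = j then
      ((if ((Sum.inl p, 0) : (P ⊕ J) × Fin 2) = (Sum.inl p', 0) ∧ b = (Sum.inl p', 1) then 1 else 0) -
        (if b = (Sum.inl p', 0) ∧ ((Sum.inl p, 0) : (P ⊕ J) × Fin 2) = (Sum.inl p', 1)
          then 1 else 0) : ℝ) else 0) = if b = (Sum.inl p, 1) ∧ blk p = j then 1 else 0 := by
    rw [Finset.sum_eq_single p]
    · by_cases h2 : blk p = j <;> by_cases h3 : b = (Sum.inl p, 1) <;> simp [h2, h3]
    · intro p' _ hp'
      have : p ≠ p' := fun h => hp' h.symm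
      simp [this]
    · intro h
      exact absurd (Finset.mem_univ _) h
  rw [kap, h1, tht_inl]
  split_ifs with h2 <;> simp_all

theorem kap_inr (ξ : (P ⊕ J) × Fin 2 → ℝ) (j l : J) (b : (P ⊕ J) × Fin 2) :
    kap blk ξ j (Sum.inr l, 1) b =
      if b = (Sum.inr l, 0) ∧ l = j then 2 * Real.pi * hh' (ξ (Sum.inr j, 0)) else 0 := by
  have h1 : (∑ p', if blk p' = j then
      ((if ((Sum.inr l, 1) : (P ⊕ J) × Fin 2) = (Sum.inl p', 0) ∧ b = (Sum.inl p', 1) then 1 else 0) -
        (if b = (Sum.inl p', 0) ∧ ((Sum.inr l, 1) : (P ⊕ J) × Fin 2) = (Sum.inl p', 1)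
          then 1 else 0) : ℝ) else 0) = 0 := by
    refine Finset.sum_eq_zero fun p' _ => ?_
    simp
  have h2 : tht blk ξ j (Sum.inr l, 1) = if l = j then 1 else 0 := by
    simp [tht]
  rw [kap, h1, h2]
  by_cases h3 : l = j
  · subst h3
    by_cases h4 : b = (Sum.inr l, 0) <;> simp [h4]
  · simp [h3]

theorem kap_inr' (ξ : (P ⊕ J) × Fin 2 → ℝ) (j l : J) :
    kap blk ξ j (Sum.inr l, 0) (Sum.inr l, 1) =
      if l = j then -(2 * Real.pi) * hh' (ξ (Sum.inr j, 0)) else 0 := by
  have h1 : (∑ p', if blk p' = j then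
      ((if ((Sum.inr l, 0) : (P ⊕ J) × Fin 2) = (Sum.inl p', 0) ∧
          ((Sum.inr l, 1) : (P ⊕ J) × Fin 2) = (Sum.inl p', 1) then 1 else 0) -
        (if ((Sum.inr l, 1) : (P ⊕ J) × Fin 2) = (Sum.inl p', 0) ∧
          ((Sum.inr l, 0) : (P ⊕ J) × Fin 2) = (Sum.inl p', 1)
          then 1 else 0) : ℝ) else 0) = 0 := by
    refine Finset.sum_eq_zero fun p' _ => ?_
    simp
  have h2 : tht blk ξ j (Sum.inr l, 1) = if l = j then 1 else 0 := by
    simp [tht]
  rw [kap, h1, h2]
  by_cases h3 : l = j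
  · subst h3
    simp
  · simp [h3]

theorem zero_smul_rotJ {P J K : Type} [Fintype P] [Fintype J] [Fintype K] [DecidableEq J]
    (j : J) : (0 : ℝ) • rotJ P K j = 0 := by
  refine ContinuousLinearMap.ext fun q => ?_
  rw [_root_.smul_apply, zero_smul]
  rfl

/-- the value of the characteristic form on the parametrised cube -/
theorem chernWeil_cube {e : ℕ} (slot : Fin (e + 1) ≃ P ⊕ J) (K : Type) [Fintype K]
    (F : InvariantForm (QSp P J K) (e + 1)) (ξ : (P ⊕ J) × Fin 2 → ℝ)
    (hξ : ∀ j, 0 < ξ (Sum.inr j, 0) ∧ ξ (Sum.inr j, 0) < 1) :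
    chernWeil F (curvature (formX blk K (fun _ => true)) (cubeX ξ))
        (fun i : Fin (2 * (e + 1)) => fderiv ℝ cubeX ξ (Pi.single (eqvX slot i) 1)) =
      pairCount (e + 1) * ((-(2 * Real.pi)) ^ (e + 1) *
        ((∏ p, (2 - hh (ξ (Sum.inr (blk p), 0)))) * ∏ j, hh' (ξ (Sum.inr j, 0))) *
        F.toFun (fun s => rotJ P K (Sum.elim blk id (slot s)))) := by
  obtain ⟨g, hg⟩ := curvature_cubeX blk K ξ hξ
  have hpairs := chernWeil_pairs F (curvature (formX blk K (fun _ => true)) (cubeX ξ))
    (fun u w => curvature_antisymm _ _ u w)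
    (fun i : Fin (2 * (e + 1)) => fderiv ℝ cubeX ξ (Pi.single (eqvX slot i) 1))
    (fun s => Sum.elim (fun _ => false) (fun _ => true) (slot s)) ?_
  · rw [chernWeil, hpairs]
    congr 1
    have hval : ∀ s : Fin (e + 1), curvature (formX blk K (fun _ => true)) (cubeX ξ)
        (fderiv ℝ cubeX ξ (Pi.single (eqvX slot ⟨2 * s.1, by omega⟩) 1))
        (fderiv ℝ cubeX ξ (Pi.single (eqvX slot ⟨2 * s.1 + 1, by omega⟩) 1)) =
        (g : QSp P J K →L[ℝ] QSp P J K) ∘L
          ((-(2 * Real.pi) * Sum.elim (fun p => 2 - hh (ξ (Sum.inr (blk p), 0)))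
            (fun j => hh' (ξ (Sum.inr j, 0))) (slot s)) •
            rotJ P K (Sum.elim blk id (slot s))) ∘L
          (g.symm : QSp P J K →L[ℝ] QSp P J K) := by
      intro s
      have e0 : eqvX slot (⟨2 * s.1, by omega⟩ : Fin (2 * (e + 1))) = (slot s, 0) :=
        eqvX_apply slot s 0 (by have := s.2; simp; omega)
      have e1 : eqvX slot (⟨2 * s.1 + 1, by omega⟩ : Fin (2 * (e + 1))) = (slot s, 1) :=
        eqvX_apply slot s 1 (by have := s.2; simp; omega)
      rw [e0, e1, hg]
      congr 2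
      rcases slot s with p | l
      · rw [Finset.sum_eq_single (blk p)]
        · simp [kap_inl]
        · intro j _ hj
          rw [kap_inl, if_neg (fun h => hj h.2.symm)]
          exact zero_smul_rotJ j
        · intro h
          exact absurd (Finset.mem_univ _) h
      · rw [Finset.sum_eq_single l]
        · simp [kap_inr']
        · intro j _ hj
          rw [kap_inr', if_neg (fun h => hj h.symm)]
          exact zero_smul_rotJ j
        · intro h
          exact absurd (Finset.mem_univ _) h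
    simp only [hval]
    rw [F.conj g, F.toFun.map_smul_univ, Finset.prod_mul_distrib, Finset.prod_const,
      Finset.card_univ, Fintype.card_fin, smul_eq_mul]
    congr 2
    rw [Equiv.prod_comp slot (fun c => Sum.elim (fun p => 2 - hh (ξ (Sum.inr (blk p), 0)))
            (fun j => hh' (ξ (Sum.inr j, 0))) c), Fintype.prod_sum_type]
    simp
  · intro s a ha
    obtain ⟨⟨s', b⟩, hs'⟩ := (pairEquiv (e + 1)).surjective a
    have ha' : eqvX slot a = (slot s', b) := by
      rw [← hs']
      exact eqvX_apply slot s' b _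
    rcases hs : slot s with p | l
    · have e0 : eqvX slot (⟨2 * s.1, by omega⟩ : Fin (2 * (e + 1))) = (slot s, 0) :=
        eqvX_apply slot s 0 (by have := s.2; simp; omega)
      simp only [Sum.elim_inl, Bool.false_eq_true, if_false, add_zero]
      rw [e0, ha', hg, hs]
      have hne : (slot s', b) ≠ (Sum.inl p, 1) := by
        intro h
        have h1 : slot s' = slot s := by rw [hs]; exact (Prod.ext_iff.mp h).1
        have h2 := slot.injective h1
        have h3 : b = 1 := (Prod.ext_iff.mp h).2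
        apply ha
        rw [← hs', h2, h3, hs]
        simp [pairEquiv]
      have : (∑ j, kap blk ξ j (Sum.inl p, 0) (slot s', b) • rotJ P K j) = 0 := by
        refine Finset.sum_eq_zero fun j _ => ?_
        have hk : kap blk ξ j (Sum.inl p, 0) (slot s', b) = 0 := by
          rw [kap_inl, if_neg (fun h => hne h.1)]
        rw [hk]
        exact zero_smul_rotJ j
      rw [this]
      simp
    · have e1 : eqvX slot (⟨2 * s.1 + 1, by omega⟩ : Fin (2 * (e + 1))) = (slot s, 1) :=
        eqvX_apply slot s 1 (by have := s.2; simp; omega)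
      simp only [Sum.elim_inr, if_true]
      rw [e1, ha', hg, hs]
      have hne : (slot s', b) ≠ (Sum.inr l, 0) := by
        intro h
        have h1 : slot s' = slot s := by rw [hs]; exact (Prod.ext_iff.mp h).1
        have h2 := slot.injective h1
        have h3 : b = 0 := (Prod.ext_iff.mp h).2
        apply ha
        rw [← hs', h2, h3, hs]
        simp [pairEquiv]
      have : (∑ j, kap blk ξ j (Sum.inr l, 1) (slot s', b) • rotJ P K j) = 0 := by
        refine Finset.sum_eq_zero fun j _ => ?_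
        have hk : kap blk ξ j (Sum.inr l, 1) (slot s', b) = 0 := by
          rw [kap_inr, if_neg (fun h => hne h.1)]
        rw [hk]
        exact zero_smul_rotJ j
      rw [this]
      simp

theorem not_exact {e : ℕ} (slot : Fin (e + 1) ≃ P ⊕ J) (K : Type) [Fintype K]
    (F : InvariantForm (QSp P J K) (e + 1))
    (hF : F.toFun (fun s => rotJ P K (Sum.elim blk id (slot s))) ≠ 0) :
    ¬ ChernWeilExact (cX (J := J) blk K) F := by
  rintro ⟨β, hβ, hd⟩
  have h0 := integral_extDeriv_cubeX (n := 2 * e + 1) blk (eqvX slot) β hβ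
  have hpos := integral_pos_cube blk (eqvX slot)
  have hae : (Set.pi Set.univ (fun _ : Fin (2 * e + 1 + 1) => Set.Ioo (0 : ℝ) 1)) =ᵐ[volume]
      Set.Icc (0 : Fin (2 * e + 1 + 1) → ℝ) 1 := Measure.univ_pi_Ioo_ae_eq_Icc
  have hmeas : MeasurableSet (Set.pi Set.univ (fun _ : Fin (2 * e + 1 + 1) => Set.Ioo (0 : ℝ) 1)) :=
    MeasurableSet.univ_pi fun _ => measurableSet_Ioo
  have key : ∫ ξ in Set.Icc (0 : Fin (2 * e + 1 + 1) → ℝ) 1,
      extDeriv β (cubeX (fun a => ξ ((eqvX slot).symm a)))
        (fun i => fderiv ℝ (cubeX (P := P) (J := J)) (fun a => ξ ((eqvX slot).symm a))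
          (Pi.single (eqvX slot i) 1)) =
      ∫ ξ in Set.Icc (0 : Fin (2 * e + 1 + 1) → ℝ) 1,
        (pairCount (e + 1) * ((-(2 * Real.pi)) ^ (e + 1) *
          F.toFun (fun s => rotJ P K (Sum.elim blk id (slot s))))) *
        ((∏ p, (2 - hh (ξ ((eqvX slot).symm (Sum.inr (blk p), 0))))) *
          ∏ j, hh' (ξ ((eqvX slot).symm (Sum.inr j, 0)))) := by
    rw [← setIntegral_congr_set hae, ← setIntegral_congr_set hae]
    refine setIntegral_congr_fun hmeas fun ξ hξ => ?_
    have hξ' : ∀ j : J, 0 < (fun a => ξ ((eqvX slot).symm a)) ((Sum.inr j, 0) : (P ⊕ J) × Fin 2) ∧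
        (fun a => ξ ((eqvX slot).symm a)) ((Sum.inr j, 0) : (P ⊕ J) × Fin 2) < 1 := by
      intro j
      have := hξ ((eqvX slot).symm (Sum.inr j, 0)) (Set.mem_univ _)
      exact this
    have h1 := hd (fun _ => true) (cubeX (fun a => ξ ((eqvX slot).symm a)))
      (cubeX_mem_domX _ hξ')
      (fun i => fderiv ℝ (cubeX (P := P) (J := J)) (fun a => ξ ((eqvX slot).symm a))
          (Pi.single (eqvX slot i) 1))
    have h2 := chernWeil_cube blk slot K F (fun a => ξ ((eqvX slot).symm a)) hξ'
    refine h1.trans (h2.trans ?_)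
    ring
  rw [key, integral_const_mul] at h0
  have hpc : (0 : ℝ) < pairCount (e + 1) := by exact_mod_cast pairCount_pos (e + 1)
  have hpi : (-(2 * Real.pi)) ^ (e + 1) ≠ 0 := pow_ne_zero _ (by
    have := Real.pi_pos
    linarith)
  rcases mul_eq_zero.1 h0 with h | h
  · rcases mul_eq_zero.1 h with h | h
    · exact hpc.ne' h
    · rcases mul_eq_zero.1 h with h | h
      · exact hpi h
      · exact hF h
  · exact hpos.ne' h

end

end Pool.Agent.HaefligerClasses
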