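import Pool.Agent.HaefligerClasses.Model

/-!
# The two charts of the sphere factor
-/

namespace Pool.Agent.HaefligerClasses

open Filter Topology
open scoped ContDiff

theorem normSq_exp_real (θ : ℝ) : Complex.normSq (Complex.exp (θ * Complex.I)) = 1 := by
  rw [Complex.normSq_eq_norm_sq, Complex.norm_exp_ofReal_mul_I]; norm_num

theorem conj_exp_real (θ : ℝ) : (starRingEnd ℂ) (Complex.exp (θ * Complex.I)) =
    Complex.exp (-θ * Complex.I) := by
  rw [← Complex.exp_conj]; congr 1; simp

theorem rad_rot (v : ℂ) (t θ : ℝ) : rad (Complex.exp (θ * Complex.I) * v) t = rad v t := by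
  unfold rad
  rw [map_mul, normSq_exp_real, one_mul]

theorem gA_rot (v : ℂ) (t θ : ℝ) : gA (Complex.exp (θ * Complex.I) * v) t =
    Complex.exp (θ * Complex.I) * gA v t := by
  unfold gA
  rw [rad_rot, mul_div_assoc]

theorem gB_rot (v : ℂ) (t θ : ℝ) : gB (Complex.exp (θ * Complex.I) * v) t =
    Complex.exp (-θ * Complex.I) * gB v t := by
  unfold gB
  rw [rad_rot, map_mul, conj_exp_real, mul_div_assoc]

theorem gC_rot (b : Bool) (v : ℂ) (t θ : ℝ) : gC b (Complex.exp (θ * Complex.I) * v) t =
    Complex.exp ((if b then 1 else -1 : ℂ) * θ * Complex.I) * gC b v t := by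
  cases b
  · simp only [gC, Bool.false_eq_true, if_false]
    rw [gB_rot]; congr 2; ring
  · simp only [gC, if_true]
    rw [gA_rot]; congr 2; ring

theorem wC_rot (b : Bool) (v : ℂ) (t θ : ℝ) : wC b (Complex.exp (θ * Complex.I) * v) t =
    Complex.exp ((mu b : ℂ) * θ * Complex.I) * wC b v t := by
  cases b
  · simp only [wC, mu, Bool.false_eq_true, if_false]
    rw [gB_rot]; congr 2; push_cast; ring
  · simp only [wC, mu, if_true]
    rw [gA_rot, mul_pow, ← Complex.exp_nat_mul]; congr 2; push_cast; ring

theorem normSq_gC_rot (b : Bool) (v : ℂ) (t θ : ℝ) :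
    Complex.normSq (gC b (Complex.exp (θ * Complex.I) * v) t) = Complex.normSq (gC b v t) := by
  cases b
  · simp only [gC, Bool.false_eq_true, if_false]
    rw [gB_rot, map_mul]
    have := normSq_exp_real (-θ)
    push_cast at this
    rw [this, one_mul]
  · simp only [gC, if_true]
    rw [gA_rot, map_mul, normSq_exp_real, one_mul]

theorem hC_rot (b : Bool) (v : ℂ) (t θ : ℝ) :
    hC b (Complex.exp (θ * Complex.I) * v) t = hC b v t := by
  have h := normSq_gC_rot b v t θ
  cases b
  · simp only [gC, Bool.false_eq_true, if_false] at h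
    simp only [hC, Bool.false_eq_true, if_false]
    rw [h]
  · simp only [gC, if_true] at h
    simp only [hC, if_true]
    rw [h]

theorem chartDom_rot (b : Bool) (v : ℂ) (t θ : ℝ) :
    chartDom b (Complex.exp (θ * Complex.I) * v) t ↔ chartDom b v t := by
  unfold chartDom
  rw [rad_rot]

theorem rad_nonneg (v : ℂ) (t : ℝ) : 0 ≤ rad v t := Real.sqrt_nonneg _

theorem rad_sq (v : ℂ) (t : ℝ) : rad v t ^ 2 = Complex.normSq v + t ^ 2 :=
  Real.sq_sqrt (add_nonneg (Complex.normSq_nonneg v) (sq_nonneg t))

theorem abs_lt_rad {v : ℂ} (hv : v ≠ 0) (t : ℝ) : |t| < rad v t := by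
  have h := rad_sq v t
  have h1 : 0 < Complex.normSq v := Complex.normSq_pos.2 hv
  apply abs_lt_of_sq_lt_sq _ (rad_nonneg v t)
  linarith

theorem rad_zero (t : ℝ) : rad 0 t = |t| := by
  unfold rad
  rw [map_zero, zero_add, Real.sqrt_sq_eq_abs]

theorem chartDom_true_iff (v : ℂ) (t : ℝ) : chartDom true v t ↔ (v ≠ 0 ∨ t < 0) := by
  simp only [chartDom, if_true]
  constructor
  · intro h
    by_cases hv : v = 0
    · right
      rw [hv, rad_zero] at h
      by_contra ht
      rw [abs_of_nonneg (not_lt.1 ht)] at h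
      exact lt_irrefl _ h
    · exact Or.inl hv
  · rintro (h | h)
    · exact lt_of_le_of_lt (le_abs_self t) (abs_lt_rad h t)
    · exact lt_of_lt_of_le h (rad_nonneg v t)

theorem chartDom_false_iff (v : ℂ) (t : ℝ) : chartDom false v t ↔ (v ≠ 0 ∨ 0 < t) := by
  simp only [chartDom, Bool.false_eq_true, if_false]
  constructor
  · intro h
    by_cases hv : v = 0
    · right
      rw [hv, rad_zero] at h
      by_contra ht
      rw [abs_of_nonpos (not_lt.1 ht)] at h
      exact lt_irrefl _ h
    · exact Or.inl hv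
  · rintro (h | h)
    · exact lt_of_le_of_lt (neg_le_abs t) (abs_lt_rad h t)
    · exact lt_of_lt_of_le (neg_lt_zero.2 h) (rad_nonneg v t)

theorem gA_mul_gB (v : ℂ) (t : ℝ) (h1 : chartDom true v t) (h2 : chartDom false v t) :
    gA v t * gB v t = 1 := by
  simp only [chartDom, if_true] at h1
  simp only [chartDom, Bool.false_eq_true, if_false] at h2
  have h3 : ((rad v t - t : ℝ) : ℂ) ≠ 0 := by
    exact_mod_cast (sub_pos.2 h1).ne'
  have h4 : ((rad v t + t : ℝ) : ℂ) ≠ 0 := by
    have : 0 < rad v t + t := by linarith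
    exact_mod_cast this.ne'
  have h5 : v * (starRingEnd ℂ) v = ((rad v t - t : ℝ) : ℂ) * ((rad v t + t : ℝ) : ℂ) := by
    rw [Complex.mul_conj, ← Complex.ofReal_mul]
    congr 1
    have := rad_sq v t
    nlinarith
  unfold gA gB
  rw [div_mul_div_comm, h5, div_self (mul_ne_zero h3 h4)]

theorem gB_ne_zero {v : ℂ} {t : ℝ} (h1 : chartDom true v t) (h2 : chartDom false v t) :
    gB v t ≠ 0 := fun h => by
  have := gA_mul_gB v t h1 h2
  rw [h, mul_zero] at this
  exact zero_ne_one this

theorem gA_ne_zero {v : ℂ} {t : ℝ} (h1 : chartDom true v t) (h2 : chartDom false v t) :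
    gA v t ≠ 0 := fun h => by
  have := gA_mul_gB v t h1 h2
  rw [h, zero_mul] at this
  exact zero_ne_one this

theorem hC_overlap (v : ℂ) (t : ℝ) (h1 : chartDom true v t) (h2 : chartDom false v t) :
    hC true v t = hC false v t := by
  simp only [hC, Bool.false_eq_true, if_false, if_true]
  have h3 : Complex.normSq (gA v t) * Complex.normSq (gB v t) = 1 := by
    rw [← map_mul, gA_mul_gB v t h1 h2, map_one]
  have h4 : 0 ≤ Complex.normSq (gA v t) := Complex.normSq_nonneg _
  have h5 : 0 ≤ Complex.normSq (gB v t) := Complex.normSq_nonneg _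
  rw [div_eq_div_iff (by positivity) (by positivity)]
  linear_combination 3 * h3

theorem radicand_pos {b : Bool} {v : ℂ} {t : ℝ} (h : chartDom b v t) :
    0 < Complex.normSq v + t ^ 2 := by
  have h1 : v ≠ 0 ∨ t ≠ 0 := by
    cases b
    · rcases (chartDom_false_iff v t).1 h with h | h
      · exact Or.inl h
      · exact Or.inr h.ne'
    · rcases (chartDom_true_iff v t).1 h with h | h
      · exact Or.inl h
      · exact Or.inr h.ne
  rcases h1 with h1 | h1
  · have := Complex.normSq_pos.2 h1
    positivity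
  · have := Complex.normSq_nonneg v
    positivity

theorem contDiff_normSq : ContDiff ℝ ∞ (fun v : ℂ => Complex.normSq v) := by
  have : (fun v : ℂ => Complex.normSq v) = fun v : ℂ => v.re * v.re + v.im * v.im := by
    funext v; exact Complex.normSq_apply v
  rw [this]
  exact (Complex.reCLM.contDiff.mul Complex.reCLM.contDiff).add
    (Complex.imCLM.contDiff.mul Complex.imCLM.contDiff)

theorem contDiffAt_rad {b : Bool} {v : ℂ} {t : ℝ} (h : chartDom b v t) :
    ContDiffAt ℝ ∞ (fun x : ℂ × ℝ => rad x.1 x.2) (v, t) := by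
  unfold rad
  apply ContDiffAt.sqrt
  · exact ((contDiff_normSq.comp contDiff_fst).add (contDiff_snd.pow 2)).contDiffAt
  · exact (radicand_pos h).ne'

theorem contDiffAt_div_complex {E : Type} [NormedAddCommGroup E] [NormedSpace ℝ E] {f g : E → ℂ}
    {x : E} (hf : ContDiffAt ℝ ∞ f x) (hg : ContDiffAt ℝ ∞ g x) (h : g x ≠ 0) :
    ContDiffAt ℝ ∞ (fun y => f y / g y) x := by
  simp only [div_eq_mul_inv]
  exact hf.mul (hg.inv h)

theorem contDiffAt_gC (b : Bool) (v : ℂ) (t : ℝ) (h : chartDom b v t) :
    ContDiffAt ℝ ∞ (fun x : ℂ × ℝ => gC b x.1 x.2) (v, t) := by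
  have hr := contDiffAt_rad h
  cases b
  · simp only [gC, Bool.false_eq_true, if_false, gB]
    simp only [chartDom, Bool.false_eq_true, if_false] at h
    apply contDiffAt_div_complex
    · exact (Complex.conjCLE.contDiff.comp contDiff_fst).contDiffAt
    · exact Complex.ofRealCLM.contDiff.contDiffAt.comp (v, t) (hr.add contDiff_snd.contDiffAt)
    · have : 0 < rad v t + t := by linarith
      exact_mod_cast this.ne'
  · simp only [gC, if_true, gA]
    simp only [chartDom, if_true] at h
    apply contDiffAt_div_complex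
    · exact contDiff_fst.contDiffAt
    · exact Complex.ofRealCLM.contDiff.contDiffAt.comp (v, t) (hr.sub contDiff_snd.contDiffAt)
    · exact_mod_cast (sub_pos.2 h).ne'

theorem contDiffAt_hC (b : Bool) (v : ℂ) (t : ℝ) (h : chartDom b v t) :
    ContDiffAt ℝ ∞ (fun x : ℂ × ℝ => hC b x.1 x.2) (v, t) := by
  have hg := contDiffAt_gC b v t h
  cases b
  · simp only [gC, Bool.false_eq_true, if_false] at hg
    simp only [hC, Bool.false_eq_true, if_false]
    have h2 : ContDiffAt ℝ ∞ (fun x : ℂ × ℝ => Complex.normSq (gB x.1 x.2)) (v, t) :=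
      contDiff_normSq.contDiffAt.comp (v, t) hg
    apply ContDiffAt.div contDiffAt_const (contDiffAt_const.add h2)
    have := Complex.normSq_nonneg (gB v t)
    positivity
  · simp only [gC, if_true] at hg
    simp only [hC, if_true]
    have h2 : ContDiffAt ℝ ∞ (fun x : ℂ × ℝ => Complex.normSq (gA x.1 x.2)) (v, t) :=
      contDiff_normSq.contDiffAt.comp (v, t) hg
    apply ContDiffAt.div (contDiffAt_const.mul h2) (contDiffAt_const.add h2)
    have := Complex.normSq_nonneg (gA v t)
    positivity

theorem continuous_rad : Continuous fun x : ℂ × ℝ => rad x.1 x.2 := by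
  unfold rad
  exact ((contDiff_normSq.continuous.comp continuous_fst).add (continuous_snd.pow 2)).sqrt

theorem isOpen_chartDom (b : Bool) : IsOpen {x : ℂ × ℝ | chartDom b x.1 x.2} := by
  cases b
  · simp only [chartDom, Bool.false_eq_true, if_false]
    exact isOpen_lt continuous_snd.neg continuous_rad
  · simp only [chartDom, if_true]
    exact isOpen_lt continuous_snd continuous_rad

/-- in chart `true`: `h = 3 |g|² / (1 + |g|²)`, in chart `false`: `h = 3 - 3 |g|² / (1 + |g|²)` -/
theorem hC_eq (b : Bool) (v : ℂ) (t : ℝ) : hC b v t =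
    (if b then 0 else 3) + (if b then 1 else -1) *
      (3 * Complex.normSq (gC b v t) / (1 + Complex.normSq (gC b v t))) := by
  cases b
  · simp only [hC, gC, Bool.false_eq_true, if_false]
    have h : 1 + Complex.normSq (gB v t) ≠ 0 := by
      have := Complex.normSq_nonneg (gB v t)
      positivity
    field_simp
    ring
  · simp only [hC, gC, if_true]
    ring

end Pool.Agent.HaefligerClasses
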