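import Pool.Agent.HaefligerClasses.Model

/-! # Transport of invariant forms to a linearly isomorphic transversal -/

namespace Pool.Agent.HaefligerClasses

open Filter Topology MeasureTheory
open scoped ContDiff

/-- transport of invariant forms -/
def InvariantForm.map {V W : Type} [NormedAddCommGroup V] [NormedSpace ℝ V]
    [NormedAddCommGroup W] [NormedSpace ℝ W] (L : V ≃L[ℝ] W) {d : ℕ} (F : InvariantForm W d) :
    InvariantForm V d where
  toFun := F.toFun.compLinearMap (fun _ =>
    { toFun := fun X => (L : V →L[ℝ] W) ∘L X ∘L (L.symm : W →L[ℝ] V)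
      map_add' := by intro X Y; ext v; simp
      map_smul' := by intro m X; ext v; simp })
  symm := by
    intro σ X
    exact F.symm σ (fun s => (L : V →L[ℝ] W) ∘L X s ∘L (L.symm : W →L[ℝ] V))
  conj := by
    intro g X
    have h := F.conj (L.symm.trans (g.trans L))
      (fun s => (L : V →L[ℝ] W) ∘L X s ∘L (L.symm : W →L[ℝ] V))
    refine Eq.trans ?_ h
    simp only [MultilinearMap.compLinearMap_apply, LinearMap.coe_mk, AddHom.coe_mk]
    congr 1
    ext s v
    simp

/-- the conjugation by `L` -/
private noncomputable def conjL {V W : Type} [NormedAddCommGroup V] [NormedSpace ℝ V]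
    [NormedAddCommGroup W] [NormedSpace ℝ W] (L : V ≃L[ℝ] W) :
    (V →L[ℝ] V) ≃L[ℝ] (W →L[ℝ] W) := L.arrowCongr L

private theorem conjL_apply {V W : Type} [NormedAddCommGroup V] [NormedSpace ℝ V]
    [NormedAddCommGroup W] [NormedSpace ℝ W] (L : V ≃L[ℝ] W) (X : V →L[ℝ] V) :
    conjL L X = (L : V →L[ℝ] W) ∘L X ∘L (L.symm : W →L[ℝ] V) := rfl

private theorem conjL_comp {V W : Type} [NormedAddCommGroup V] [NormedSpace ℝ V]
    [NormedAddCommGroup W] [NormedSpace ℝ W] (L : V ≃L[ℝ] W) (X Y : V →L[ℝ] V) :
    conjL L (X ∘L Y) = conjL L X ∘L conjL L Y := by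
  ext w
  simp [conjL_apply]

private theorem map_toFun {V W : Type} [NormedAddCommGroup V] [NormedSpace ℝ V]
    [NormedAddCommGroup W] [NormedSpace ℝ W] (L : V ≃L[ℝ] W) {d : ℕ} (F : InvariantForm W d)
    (X : Fin d → V →L[ℝ] V) : (F.map L).toFun X = F.toFun (fun s => conjL L (X s)) := rfl

private theorem fderiv_conj {V W : Type} [NormedAddCommGroup V] [NormedSpace ℝ V]
    [NormedAddCommGroup W] [NormedSpace ℝ W] (L : V ≃L[ℝ] W) (f : V → V) (v : V) :
    fderiv ℝ (fun w => L (f (L.symm w))) (L v) = conjL L (fderiv ℝ f v) := by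
  have h1 : (fun w => L (f (L.symm w))) = L ∘ (f ∘ L.symm) := rfl
  rw [h1, L.comp_fderiv, L.symm.comp_right_fderiv, L.symm_apply_apply]
  rfl

private theorem det_conjL {V W : Type} [NormedAddCommGroup V] [NormedSpace ℝ V]
    [NormedAddCommGroup W] [NormedSpace ℝ W] (L : V ≃L[ℝ] W) (X : V →L[ℝ] V) :
    (conjL L X).det = X.det := by
  have := LinearMap.det_conj (X : V →ₗ[ℝ] V) L.toLinearEquiv
  rw [ContinuousLinearMap.det, ContinuousLinearMap.det, ← this]
  rfl

section

variable {E : Type} [NormedAddCommGroup E] [NormedSpace ℝ E] {Λ : Type} [AddGroup Λ]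
variable {M : QuotientManifold E Λ} {V W : Type} [NormedAddCommGroup V] [NormedSpace ℝ V]
  [NormedAddCommGroup W] [NormedSpace ℝ W]

/-- the transported Haefliger structure -/
private noncomputable def tHS (L : V ≃L[ℝ] W) (H : HaefligerStructure M V) :
    HaefligerStructure M W where
  ι := H.ι
  dom := H.dom
  isOpen_dom := H.isOpen_dom
  dom_subset := H.dom_subset
  cover := H.cover
  f := fun i x => L (H.f i x)
  smooth_f := fun i => L.contDiff.comp_contDiffOn (H.smooth_f i)
  γ := fun i a j x w => L (H.γ i a j x (L.symm w))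
  smooth_γ := by
    intro i a j x hx hax
    have h1 := H.smooth_γ i a j x hx hax
    have h2 : ContDiffAt ℝ ∞ (fun w => H.γ i a j x (L.symm w)) (L (H.f j x)) := by
      refine ContDiffAt.comp (L (H.f j x)) ?_ L.symm.contDiff.contDiffAt
      rw [L.symm_apply_apply]
      exact h1
    exact L.contDiff.contDiffAt.comp _ h2
  orient_γ := by
    intro i a j x hx hax
    rw [fderiv_conj, det_conjL]
    exact H.orient_γ i a j x hx hax
  map_γ := by
    intro i a j x hx hax
    filter_upwards [H.map_γ i a j x hx hax] with y hy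
    rw [L.symm_apply_apply, hy]
  locConst_γ := by
    intro i a j x hx hax
    filter_upwards [H.locConst_γ i a j x hx hax] with y hy
    have ht : Tendsto L.symm (𝓝 (L (H.f j y))) (𝓝 (H.f j y)) := by
      have := L.symm.continuous.tendsto (L (H.f j y))
      rwa [L.symm_apply_apply] at this
    filter_upwards [ht.eventually hy] with w hw
    rw [hw]
  comp_γ := by
    intro i a j b k x hx hbx habx
    have ht : Tendsto L.symm (𝓝 (L (H.f k x))) (𝓝 (H.f k x)) := by
      have := L.symm.continuous.tendsto (L (H.f k x))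
      rwa [L.symm_apply_apply] at this
    filter_upwards [ht.eventually (H.comp_γ i a j b k x hx hbx habx)] with w hw
    rw [L.symm_apply_apply, hw]

private theorem tHS_normal (L : V ≃L[ℝ] W) (H : HaefligerStructure M V) (i : H.ι) (a : Λ)
    (j : H.ι) (x : E) : (tHS L H).normal i a j x = conjL L (H.normal i a j x) :=
  fderiv_conj L (H.γ i a j x) (H.f j x)

/-- the transported connection -/
private noncomputable def tNC (L : V ≃L[ℝ] W) {H : HaefligerStructure M V}
    (c : NormalConnection H) : NormalConnection (tHS L H) where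
  form := fun i x => (conjL L : (V →L[ℝ] V) →L[ℝ] (W →L[ℝ] W)) ∘L c.form i x
  smooth_form := fun i => contDiffOn_const.clm_comp (c.smooth_form i)
  compat := by
    intro i a j x hx hax u
    have h := c.compat i a j x hx hax u
    have h2 : fderiv ℝ (fun y => (tHS L H).normal i a j y) x u =
        conjL L (fderiv ℝ (fun y => H.normal i a j y) x u) := by
      have h3 : (fun y => (tHS L H).normal i a j y) = (conjL L) ∘ (fun y => H.normal i a j y) :=
        funext fun y => tHS_normal L H i a j y
      rw [h3, (conjL L).comp_fderiv]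
      rfl
    have h4 := congrArg (conjL L) h
    rw [map_sub, conjL_comp, conjL_comp] at h4
    have h5 : (tHS L H).normal i a j x = conjL L (H.normal i a j x) := tHS_normal L H i a j x
    rw [h2, h5]
    exact h4

private theorem tNC_curvature (L : V ≃L[ℝ] W) {H : HaefligerStructure M V}
    (c : NormalConnection H) (i : H.ι) (x : E) (hx : x ∈ H.dom i) (u w : E) :
    curvature ((tNC L c).form i) x u w = conjL L (curvature (c.form i) x u w) := by
  have hd : DifferentiableAt ℝ (c.form i) x :=
    ((c.smooth_form i).contDiffAt ((H.isOpen_dom i).mem_nhds hx)).differentiableAt (by simp)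
  have h0 := (hasFDerivAt_const (conjL L : (V →L[ℝ] V) →L[ℝ] (W →L[ℝ] W)) x).clm_comp
    hd.hasFDerivAt
  have h1 : ∀ u w : E, fderiv ℝ ((tNC L c).form i) x u w =
      conjL L (fderiv ℝ (c.form i) x u w) := by
    intro u w
    have h2 : fderiv ℝ ((tNC L c).form i) x = _ := h0.fderiv
    rw [h2]
    simp
  unfold curvature
  rw [h1, h1, map_add, map_sub, map_sub, conjL_comp, conjL_comp]
  rfl

end

theorem vanishes_map {V W : Type} [NormedAddCommGroup V] [NormedSpace ℝ V]
    [NormedAddCommGroup W] [NormedSpace ℝ W] (L : V ≃L[ℝ] W) {e : ℕ}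
    (F : InvariantForm W (e + 1)) (h : VanishesOnHaefliger F) :
    VanishesOnHaefliger (F.map L) := by
  intro E _ _ _ Λ _ M H c
  obtain ⟨β, hβ, hβ'⟩ := h E _ _ inferInstance Λ _ M (tHS L H) (tNC L c)
  refine ⟨β, hβ, fun i x hx u => ?_⟩
  rw [hβ' i x hx u]
  unfold chernWeil
  refine Finset.sum_congr rfl fun σ _ => ?_
  rw [map_toFun]
  congr 2
  ext1 s
  exact tNC_curvature L c i x hx _ _

end Pool.Agent.HaefligerClasses
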